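import Pool.Agent.Lib.MP_d610d0_nt.CC.Fin
import Pool.Agent.Lib.MP_d610d0_nt.CA.LC.Main
import Pool.Agent.Lib.MP_d610d0_nt.CA.SC.Main
import Pool.Agent.Lib.MP_d610d0_nt.CA.SV.p_tt
import Pool.Agent.Lib.MP_d610d0_nt.CA.SV.p_m1

set_option autoImplicit false

/-!
Project CC: the final theorem, without hypotheses.
-/

namespace Pool.Agent.CC

theorem h_m1 : Pool.Agent.CA.SV.R_m1 :=
  Pool.Agent.CA.SV.p_m1 Pool.Agent.CH.D.h_pp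
    (Pool.Agent.CH.D.p_m1a Pool.Agent.CH.P.h_PNT)
    (Pool.Agent.CA.SV.p_tt Pool.Agent.CH.D.h_pp
      (Pool.Agent.CA.LC.main_LL Pool.Agent.CA.SC.main_dec) Pool.Agent.CA.SC.main_SL
      Pool.Agent.CA.SC.main_CL).2.2

theorem clusters : ∀ K : ℕ, 2 ≤ K → ∃ (B : ℕ) (c : ℝ), 0 < c ∧ ∀ I : Finset ℕ, I.card = K →
    (∀ p : ℕ, p.Prime → ∃ r : ℕ, ∀ h ∈ I, ¬ p ∣ (r + h) * (r + h + 2)) →
    ∃ n0 : ℕ, ∀ n : ℕ, n0 ≤ n →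
      c * (n : ℝ) ^ 2 / (Real.log n) ^ (I ∪ I.image (fun h => h + 2)).card ≤
        ((clu I B n).ncard : ℝ) :=
  fin_w (Pool.Agent.CA.LC.main_LL Pool.Agent.CA.SC.main_dec) Pool.Agent.CA.SC.main_SL h_m1

end Pool.Agent.CC
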