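import Pool.Agent.Lib.MP_d610d0_nt.CC.Cls
import Pool.Agent.Lib.MP_89da58_nt.BvW

set_option autoImplicit false

/-!
From residue classes to primitive characters, general weights.
(The proofs are those of `Lib/MP_0da313_nt/BV/BvL.lean`.)
-/

namespace Pool.Agent.CC

open ArithmeticFunction Finset
open Pool.Agent.MP89da58 (sum_not_coprime_le sum_inv_totient_le inv_totient_le primChars)

/-- The twisted sum. -/
noncomputable def psC (w : ℕ → ℝ) (N0 : ℕ) {r : ℕ} (χ : DirichletCharacter ℂ r) : ℂ :=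
  ∑ n ∈ Icc 1 N0, (vonMangoldt n : ℂ) * χ (n : ZMod r) * (w n : ℂ)

/-- Sum of `‖psC w N0 χ‖` over the primitive characters modulo `r`. -/
noncomputable def prS (w : ℕ → ℝ) (N0 r : ℕ) : ℝ :=
  ∑ χ : DirichletCharacter ℂ r, Set.indicator {χ | χ.IsPrimitive} (fun χ => ‖psC w N0 χ‖) χ

theorem psC_sub_le {w : ℕ → ℝ} (hw0 : ∀ n, 0 ≤ w n) (hw1 : ∀ n, w n ≤ 1) {N0 : ℕ} (hN0 : 1 ≤ N0) {q r : ℕ} (hq : q ≠ 0)
    (χ : DirichletCharacter ℂ q) (ψ : DirichletCharacter ℂ r)
    (h : ∀ n : ℕ, n.Coprime q → χ (n : ZMod q) = ψ (n : ZMod r)) :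
    ‖psC w N0 χ - psC w N0 ψ‖ ≤ (q : ℝ) * Real.log N0 := by
  classical
  unfold psC
  rw [← Finset.sum_sub_distrib]
  have h1 : ∑ n ∈ Icc 1 N0, ((vonMangoldt n : ℂ) * χ (n : ZMod q) * (w n : ℂ) -
      (vonMangoldt n : ℂ) * ψ (n : ZMod r) * (w n : ℂ)) =
      ∑ n ∈ (Icc 1 N0).filter (fun n => ¬ n.Coprime q),
        ((vonMangoldt n : ℂ) * χ (n : ZMod q) * (w n : ℂ) -
          (vonMangoldt n : ℂ) * ψ (n : ZMod r) * (w n : ℂ)) := by
    symm
    refine Finset.sum_filter_of_ne ?_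
    intro n _ hne hcop
    apply hne
    rw [h n hcop, sub_self]
  rw [h1]
  refine (norm_sum_le _ _).trans ?_
  have h2 : ∀ n ∈ (Icc 1 N0).filter (fun n => ¬ n.Coprime q),
      ‖(vonMangoldt n : ℂ) * χ (n : ZMod q) * (w n : ℂ) -
        (vonMangoldt n : ℂ) * ψ (n : ZMod r) * (w n : ℂ)‖ ≤ vonMangoldt n := by
    intro n hn
    have hnc := (Finset.mem_filter.1 hn).2
    have h3 : χ (n : ZMod q) = 0 := by
      apply MulChar.map_nonunit
      rw [ZMod.isUnit_iff_coprime]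
      exact hnc
    rw [h3, mul_zero, zero_mul, zero_sub, norm_neg, norm_mul, norm_mul]
    have h4 : ‖ψ (n : ZMod r)‖ ≤ 1 := DirichletCharacter.norm_le_one ψ _
    have h5 : ‖(vonMangoldt n : ℂ)‖ = vonMangoldt n := by
      rw [Complex.norm_real, Real.norm_of_nonneg vonMangoldt_nonneg]
    have h6 : ‖(w n : ℂ)‖ ≤ 1 := by
      rw [Complex.norm_real, Real.norm_of_nonneg (hw0 n)]
      exact hw1 n
    rw [h5]
    have h7 : 0 ≤ vonMangoldt n := vonMangoldt_nonneg
    calc vonMangoldt n * ‖ψ (n : ZMod r)‖ * ‖(w n : ℂ)‖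
        ≤ vonMangoldt n * 1 * 1 := by (clear * - h4 h6; gcongr)
      _ = vonMangoldt n := by ring
  refine (Finset.sum_le_sum h2).trans ?_
  exact sum_not_coprime_le N0 q hq

theorem psC_one_one (w : ℕ → ℝ) (N0 : ℕ) : psC w N0 (1 : DirichletCharacter ℂ 1) = (psW w N0 : ℂ) := by
  unfold psC psW
  push_cast
  refine Finset.sum_congr rfl fun n _ => ?_
  have : (1 : DirichletCharacter ℂ 1) (n : ZMod 1) = 1 := by
    rw [MulChar.one_apply]
    exact isUnit_of_subsingleton _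
  rw [this, mul_one]

/-- orthogonality -/
theorem totient_mul_psA (w : ℕ → ℝ) (N0 : ℕ) {q : ℕ} [NeZero q] (a : ℕ) (ha : a.Coprime q) :
    ((Nat.totient q : ℂ)) * (psA w N0 q a : ℂ) =
      ∑ χ : DirichletCharacter ℂ q, χ ((a : ZMod q)⁻¹) * psC w N0 χ := by
  classical
  have hu : IsUnit (a : ZMod q) := (ZMod.isUnit_iff_coprime a q).2 ha
  unfold psC psA
  simp only [Finset.mul_sum]
  rw [Finset.sum_comm]
  push_cast
  rw [Finset.sum_filter, Finset.mul_sum]
  refine Finset.sum_congr rfl fun n _ => ?_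
  have h1 := DirichletCharacter.sum_char_inv_mul_char_eq ℂ hu (n : ZMod q)
  have h2 : ∑ χ : DirichletCharacter ℂ q, χ ((a : ZMod q)⁻¹) *
      ((vonMangoldt n : ℂ) * χ (n : ZMod q) * (w n : ℂ)) =
      (∑ χ : DirichletCharacter ℂ q, χ ((a : ZMod q)⁻¹) * χ (n : ZMod q)) *
        ((vonMangoldt n : ℂ) * (w n : ℂ)) := by
    rw [Finset.sum_mul]
    refine Finset.sum_congr rfl fun χ _ => ?_
    ring
  rw [h2, h1]
  have h3 : ((a : ZMod q) = (n : ZMod q)) ↔ n ≡ a [MOD q] := by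
    rw [ZMod.natCast_eq_natCast_iff]
    exact ⟨fun h => h.symm, fun h => h.symm⟩
  by_cases h4 : n ≡ a [MOD q]
  · rw [if_pos h4, if_pos (h3.2 h4)]
  · rw [if_neg h4, if_neg (fun h => h4 (h3.1 h))]
    ring

theorem prS_nonneg (w : ℕ → ℝ) (N0 : ℕ) (r : ℕ) : 0 ≤ prS w N0 r := by
  unfold prS
  refine Finset.sum_nonneg fun χ _ => ?_
  exact Set.indicator_nonneg (fun _ _ => norm_nonneg _) _

/-- one modulus -/
theorem ap_le {w : ℕ → ℝ} (hw0 : ∀ n, 0 ≤ w n) (hw1 : ∀ n, w n ≤ 1) {N0 : ℕ} (hN0 : 1 ≤ N0) {q : ℕ} [NeZero q] (a : ℕ)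
    (ha : a.Coprime q) :
    |psA w N0 q a - psW w N0 / (Nat.totient q : ℝ)| ≤ (q : ℝ) * Real.log N0 + (1 / (Nat.totient q : ℝ)) *
      ∑ χ ∈ (Finset.univ : Finset (DirichletCharacter ℂ q)).erase 1,
        ‖psC w N0 χ.primitiveCharacter‖ := by
  classical
  have hq : q ≠ 0 := NeZero.ne q
  have hφ : (0 : ℝ) < Nat.totient q := by
    exact_mod_cast Nat.totient_pos.2 (Nat.pos_of_ne_zero hq)
  have h1 := totient_mul_psA w N0 a ha
  have hcop : ∀ (χ : DirichletCharacter ℂ q) (n : ℕ), n.Coprime q →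
      χ (n : ZMod q) = χ.primitiveCharacter (n : ZMod χ.conductor) := by
    intro χ n hn
    have := χ.primitiveCharacter_apply_of_isCoprime (a := (n : ℤ)) (by
      rw [Nat.isCoprime_iff_coprime]; exact hn)
    push_cast at this
    exact this.symm
  have hD : 0 ≤ (q : ℝ) * Real.log N0 := by
    have : 0 ≤ Real.log N0 := Real.log_nonneg (by exact_mod_cast hN0)
    positivity
  -- the principal character
  have hone : ‖psC w N0 (1 : DirichletCharacter ℂ q) - (psW w N0 : ℂ)‖ ≤ (q : ℝ) * Real.log N0 := by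
    rw [← psC_one_one]
    refine psC_sub_le hw0 hw1 hN0 hq _ _ fun n hn => ?_
    rw [MulChar.one_apply ((ZMod.isUnit_iff_coprime n q).2 hn), MulChar.one_apply]
    exact isUnit_of_subsingleton _
  have hoth : ∀ χ ∈ (Finset.univ : Finset (DirichletCharacter ℂ q)).erase 1,
      ‖χ ((a : ZMod q)⁻¹) * psC w N0 χ‖ ≤ ‖psC w N0 χ.primitiveCharacter‖ + (q : ℝ) * Real.log N0 := by
    intro χ _
    have h2 := psC_sub_le hw0 hw1 hN0 hq χ χ.primitiveCharacter (hcop χ)
    have h3 : ‖psC w N0 χ‖ ≤ ‖psC w N0 χ.primitiveCharacter‖ + (q : ℝ) * Real.log N0 := by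
      have := norm_le_norm_add_norm_sub' (psC w N0 χ) (psC w N0 χ.primitiveCharacter)
      linarith
    rw [norm_mul]
    have h4 : ‖χ ((a : ZMod q)⁻¹)‖ ≤ 1 := DirichletCharacter.norm_le_one χ _
    calc ‖χ ((a : ZMod q)⁻¹)‖ * ‖psC w N0 χ‖ ≤ 1 * ‖psC w N0 χ‖ :=
          mul_le_mul_of_nonneg_right h4 (norm_nonneg _)
      _ ≤ _ := by rw [one_mul]; exact h3
  have hsplit : ∑ χ : DirichletCharacter ℂ q, χ ((a : ZMod q)⁻¹) * psC w N0 χ =
      psC w N0 (1 : DirichletCharacter ℂ q) +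
        ∑ χ ∈ (Finset.univ : Finset (DirichletCharacter ℂ q)).erase 1,
          χ ((a : ZMod q)⁻¹) * psC w N0 χ := by
    rw [← Finset.add_sum_erase _ _ (Finset.mem_univ (1 : DirichletCharacter ℂ q))]
    congr 1
    have : (1 : DirichletCharacter ℂ q) ((a : ZMod q)⁻¹) = 1 := by
      apply MulChar.one_apply
      have hu : IsUnit (a : ZMod q) := (ZMod.isUnit_iff_coprime a q).2 ha
      rw [← hu.unit_spec, ZMod.inv_coe_unit]
      exact Units.isUnit _
    rw [this, one_mul]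
  have hcard : (((Finset.univ : Finset (DirichletCharacter ℂ q)).erase 1).card : ℝ) + 1 =
      Nat.totient q := by
    have h5 := DirichletCharacter.card_eq_totient_of_hasEnoughRootsOfUnity ℂ q
    rw [Nat.card_eq_fintype_card] at h5
    have h6 := Finset.card_erase_add_one (Finset.mem_univ (1 : DirichletCharacter ℂ q))
    rw [Finset.card_univ] at h6
    rw [← h5]
    exact_mod_cast h6
  have hmain : (Nat.totient q : ℝ) * |psA w N0 q a - psW w N0 / (Nat.totient q : ℝ)| ≤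
      (Nat.totient q : ℝ) * (q : ℝ) * Real.log N0 +
      ∑ χ ∈ (Finset.univ : Finset (DirichletCharacter ℂ q)).erase 1,
        ‖psC w N0 χ.primitiveCharacter‖ := by
    have h7 : (Nat.totient q : ℝ) * |psA w N0 q a - psW w N0 / (Nat.totient q : ℝ)| =
        ‖(Nat.totient q : ℂ) * (psA w N0 q a : ℂ) - (psW w N0 : ℂ)‖ := by
      rw [← abs_of_pos hφ, ← abs_mul, abs_of_pos hφ, mul_sub, mul_div_cancel₀ _ hφ.ne']
      rw [← Real.norm_eq_abs, ← Complex.norm_real]
      push_cast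
      rfl
    rw [h7, h1, hsplit]
    have h8 : psC w N0 (1 : DirichletCharacter ℂ q) +
        ∑ χ ∈ (Finset.univ : Finset (DirichletCharacter ℂ q)).erase 1,
          χ ((a : ZMod q)⁻¹) * psC w N0 χ - (psW w N0 : ℂ) =
        (psC w N0 (1 : DirichletCharacter ℂ q) - (psW w N0 : ℂ)) +
        ∑ χ ∈ (Finset.univ : Finset (DirichletCharacter ℂ q)).erase 1,
          χ ((a : ZMod q)⁻¹) * psC w N0 χ := by ring
    rw [h8]
    refine (norm_add_le _ _).trans ?_
    refine (add_le_add hone ((norm_sum_le _ _).trans (Finset.sum_le_sum hoth))).trans ?_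
    rw [Finset.sum_add_distrib, Finset.sum_const, nsmul_eq_mul, ← hcard]
    ring_nf
    rfl
  have h9 : |psA w N0 q a - psW w N0 / (Nat.totient q : ℝ)| =
      (1 / (Nat.totient q : ℝ)) * ((Nat.totient q : ℝ) *
        |psA w N0 q a - psW w N0 / (Nat.totient q : ℝ)|) := by
    field_simp
  rw [h9]
  calc _ ≤ (1 / (Nat.totient q : ℝ)) * ((Nat.totient q : ℝ) * (q : ℝ) * Real.log N0 +
      ∑ χ ∈ (Finset.univ : Finset (DirichletCharacter ℂ q)).erase 1,
        ‖psC w N0 χ.primitiveCharacter‖) :=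
        mul_le_mul_of_nonneg_left hmain (by positivity)
    _ = _ := by
        rw [mul_add]
        have e : (1 / (Nat.totient q : ℝ)) * ((Nat.totient q : ℝ) * (q : ℝ) * Real.log N0) =
            (q : ℝ) * Real.log N0 := by field_simp
        rw [e]

/-- grouping by conductors -/
theorem sum_pr_le (w : ℕ → ℝ) (N0 : ℕ) (q : ℕ) [NeZero q] :
    ∑ χ ∈ (Finset.univ : Finset (DirichletCharacter ℂ q)).erase 1,
      ‖psC w N0 χ.primitiveCharacter‖ ≤ ∑ r ∈ q.divisors.erase 1, prS w N0 r := by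
  classical
  let G : ((r : ℕ) × DirichletCharacter ℂ r) → ℝ := fun x =>
    Set.indicator {χ | χ.IsPrimitive} (fun χ => ‖psC w N0 χ‖) x.2
  let σ : DirichletCharacter ℂ q → ((r : ℕ) × DirichletCharacter ℂ r) := fun χ =>
    ⟨χ.conductor, χ.primitiveCharacter⟩
  have hG : ∀ χ, ‖psC w N0 χ.primitiveCharacter‖ = G (σ χ) := by
    intro χ
    simp only [G, σ]
    rw [Set.indicator_of_mem]
    exact χ.primitiveCharacter_isPrimitive
  have hG0 : ∀ x, 0 ≤ G x := fun x => Set.indicator_nonneg (fun _ _ => norm_nonneg _) _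
  have hσ : Function.Injective σ := by
    intro χ ψ h
    have key : ∀ (x : (r : ℕ) × DirichletCharacter ℂ r) (y : (r : ℕ) × DirichletCharacter ℂ r)
        (hx : x.1 ∣ q) (hy : y.1 ∣ q), x = y →
        DirichletCharacter.changeLevel hx x.2 = DirichletCharacter.changeLevel hy y.2 := by
      rintro x y hx hy rfl
      rfl
    have := key (σ χ) (σ ψ) χ.conductor_dvd_level ψ.conductor_dvd_level h
    rwa [DirichletCharacter.changeLevel_primitiveCharacter,
      DirichletCharacter.changeLevel_primitiveCharacter] at this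
  have h1 : ∑ r ∈ q.divisors.erase 1, prS w N0 r =
      ∑ x ∈ (q.divisors.erase 1).sigma (fun r => (Finset.univ : Finset (DirichletCharacter ℂ r))),
        G x := by
    rw [Finset.sum_sigma]
    rfl
  rw [h1]
  have h2 : ∑ χ ∈ (Finset.univ : Finset (DirichletCharacter ℂ q)).erase 1,
      ‖psC w N0 χ.primitiveCharacter‖ =
      ∑ x ∈ ((Finset.univ : Finset (DirichletCharacter ℂ q)).erase 1).image σ, G x := by
    rw [Finset.sum_image (fun a _ b _ h => hσ h)]
    exact Finset.sum_congr rfl fun χ _ => hG χ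
  rw [h2]
  refine Finset.sum_le_sum_of_subset_of_nonneg ?_ (fun x _ _ => hG0 x)
  intro x hx
  obtain ⟨χ, hχ, rfl⟩ := Finset.mem_image.1 hx
  have hne : χ ≠ 1 := (Finset.mem_erase.1 hχ).1
  refine Finset.mem_sigma.2 ⟨Finset.mem_erase.2 ⟨?_, ?_⟩, Finset.mem_univ _⟩
  · intro h
    exact hne (DirichletCharacter.eq_one_iff_conductor_eq_one.2 h)
  · exact Nat.mem_divisors.2 ⟨χ.conductor_dvd_level, NeZero.ne q⟩

/-- the double sum -/
theorem sum_swap_le (w : ℕ → ℝ) (N0 : ℕ) (N : ℕ) :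
    ∑ q ∈ Icc 1 N, (1 / (Nat.totient q : ℝ)) * ∑ r ∈ q.divisors.erase 1, prS w N0 r ≤
      (∑ r ∈ Icc 2 N, prS w N0 r / (Nat.totient r : ℝ)) *
        ∑ m ∈ Icc 1 N, 1 / (Nat.totient m : ℝ) := by
  classical
  rw [Finset.sum_mul_sum]
  have h1 : ∑ q ∈ Icc 1 N, (1 / (Nat.totient q : ℝ)) * ∑ r ∈ q.divisors.erase 1, prS w N0 r ≤
      ∑ x ∈ (Icc 1 N).sigma (fun q => q.divisors.erase 1),
        prS w N0 x.2 / (Nat.totient x.2 : ℝ) * (1 / (Nat.totient (x.1 / x.2) : ℝ)) := by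
    rw [Finset.sum_sigma]
    refine Finset.sum_le_sum fun q hq => ?_
    rw [Finset.mul_sum]
    refine Finset.sum_le_sum fun r hr => ?_
    have hrq : r ∣ q := Nat.dvd_of_mem_divisors (Finset.mem_of_mem_erase hr)
    have hq1 := (Finset.mem_Icc.1 hq).1
    have hr0 : 0 < r := Nat.pos_of_dvd_of_pos hrq (by omega)
    have hm0 : 0 < q / r := Nat.div_pos (Nat.le_of_dvd (by omega) hrq) hr0
    have hφr : (0 : ℝ) < Nat.totient r := by exact_mod_cast Nat.totient_pos.2 hr0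
    have hφm : (0 : ℝ) < Nat.totient (q / r) := by exact_mod_cast Nat.totient_pos.2 hm0
    have h2 : (Nat.totient r : ℝ) * Nat.totient (q / r) ≤ Nat.totient q := by
      have := Nat.totient_super_multiplicative r (q / r)
      rw [Nat.mul_div_cancel' hrq] at this
      exact_mod_cast this
    have h3 : 1 / (Nat.totient q : ℝ) ≤ 1 / ((Nat.totient r : ℝ) * Nat.totient (q / r)) :=
      one_div_le_one_div_of_le (by positivity) h2
    calc 1 / (Nat.totient q : ℝ) * prS w N0 r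
        ≤ 1 / ((Nat.totient r : ℝ) * Nat.totient (q / r)) * prS w N0 r :=
          mul_le_mul_of_nonneg_right h3 (prS_nonneg w N0 r)
      _ = _ := by field_simp
  refine h1.trans ?_
  rw [← Finset.sum_product']
  let τ : ((_ : ℕ) × ℕ) → ℕ × ℕ := fun x => (x.2, x.1 / x.2)
  have hinj : Set.InjOn τ ((Icc 1 N).sigma (fun q => q.divisors.erase 1) :
      Finset ((_ : ℕ) × ℕ)) := by
    rintro ⟨q, r⟩ hx ⟨q', r'⟩ hy hxy
    simp only [Finset.coe_sigma, Set.mem_sigma_iff, Finset.mem_coe] at hx hy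
    simp only [τ, Prod.mk.injEq] at hxy
    obtain ⟨rfl, h2⟩ := hxy
    have h3 : r ∣ q := Nat.dvd_of_mem_divisors (Finset.mem_of_mem_erase hx.2)
    have h4 : r ∣ q' := Nat.dvd_of_mem_divisors (Finset.mem_of_mem_erase hy.2)
    have : q = q' := by
      rw [← Nat.mul_div_cancel' h3, ← Nat.mul_div_cancel' h4, h2]
    rw [this]
  have h5 : ∑ x ∈ (Icc 1 N).sigma (fun q => q.divisors.erase 1),
        prS w N0 x.2 / (Nat.totient x.2 : ℝ) * (1 / (Nat.totient (x.1 / x.2) : ℝ)) =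
      ∑ y ∈ ((Icc 1 N).sigma (fun q => q.divisors.erase 1)).image τ,
        prS w N0 y.1 / (Nat.totient y.1 : ℝ) * (1 / (Nat.totient y.2 : ℝ)) := by
    rw [Finset.sum_image hinj]
  rw [h5]
  refine Finset.sum_le_sum_of_subset_of_nonneg ?_ ?_
  · intro y hy
    obtain ⟨⟨q, r⟩, hx, rfl⟩ := Finset.mem_image.1 hy
    simp only [Finset.mem_sigma, Finset.mem_Icc] at hx
    obtain ⟨⟨hq1, hqN⟩, hr⟩ := hx
    have hr1 : r ≠ 1 := (Finset.mem_erase.1 hr).1
    have hrq : r ∣ q := Nat.dvd_of_mem_divisors (Finset.mem_of_mem_erase hr)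
    have hr0 : 0 < r := Nat.pos_of_dvd_of_pos hrq (by omega)
    have hrN : r ≤ q := Nat.le_of_dvd (by omega) hrq
    have hm0 : 0 < q / r := Nat.div_pos hrN hr0
    have hmN : q / r ≤ q := Nat.div_le_self q r
    simp only [τ, Finset.mem_product, Finset.mem_Icc]
    omega
  · intro y _ _
    exact mul_nonneg (div_nonneg (prS_nonneg _ _ _) (Nat.cast_nonneg _)) (by positivity)


end Pool.Agent.CC
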