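import Pool.Agent.Lib.MP_d610d0_nt.CC.BvA
import Pool.Agent.Lib.MP_d610d0_nt.CH.F.Stm

set_option autoImplicit false

/-!
The Bombieri-Vinogradov estimate in every window, for general residue classes.
-/

namespace Pool.Agent.CC

open Finset Filter
open Pool.Agent.MP89da58 (tri primChars sum_inv_totient_le inv_totient_le)
open Pool.Agent.CH (wJ)
open Pool.Agent.CH.D (Sf FL)
open Pool.Agent.CA (LCw SCw)

lemma psC_eq (J j : ℕ) {r : ℕ} (χ : DirichletCharacter ℂ r) :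
    psC (wJ J j) (27 * J ^ 3) χ = Sf (FL J) J j χ := by
  unfold psC Sf FL
  rfl

open Classical in
lemma sum_prS (J j N : ℕ) (g : ℕ → ℝ) :
    ∑ r ∈ Icc 2 N, g r * prS (wJ J j) (27 * J ^ 3) r =
      ∑ p ∈ primChars N, g p.1 * ‖Sf (FL J) J j p.2‖ := by
  unfold primChars
  rw [Finset.sum_sigma]
  apply Finset.sum_congr rfl
  intro r _
  unfold prS
  rw [Finset.mul_sum, Finset.sum_filter]
  apply Finset.sum_congr rfl
  intro χ _
  by_cases hχ : χ.IsPrimitive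
  · rw [if_pos hχ, Set.indicator_of_mem
      (show χ ∈ {χ : DirichletCharacter ℂ r | χ.IsPrimitive} from hχ), psC_eq]
  · rw [if_neg hχ, Set.indicator_of_notMem
      (show χ ∉ {χ : DirichletCharacter ℂ r | χ.IsPrimitive} from hχ), mul_zero]

/-- all moduli -/
lemma sum_Er_le (J j : ℕ) (hJ : 1 ≤ J) (hw0 : ∀ n, 0 ≤ wJ J j n) (hw1 : ∀ n, wJ J j n ≤ 1)
    (a : ℕ → ℕ) (ha : ∀ q, (a q).Coprime q) (N : ℕ) :
    ∑ q ∈ Icc 1 N, Er (wJ J j) (27 * J ^ 3) q (a q) ≤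
      (N : ℝ) ^ 2 * Real.log ((27 * J ^ 3 : ℕ) : ℝ) +
      (∑ p ∈ primChars N, 1 / (Nat.totient p.1 : ℝ) * ‖Sf (FL J) J j p.2‖) *
        ∑ m ∈ Icc 1 N, 1 / (Nat.totient m : ℝ) := by
  have hN0 : 1 ≤ 27 * J ^ 3 := by
    have : 1 ≤ J ^ 3 := Nat.one_le_pow _ _ hJ
    omega
  have hlog : 0 ≤ Real.log ((27 * J ^ 3 : ℕ) : ℝ) := Real.log_nonneg (by exact_mod_cast hN0)
  have hstep : ∀ q ∈ Icc 1 N, Er (wJ J j) (27 * J ^ 3) q (a q) ≤
      (N : ℝ) * Real.log ((27 * J ^ 3 : ℕ) : ℝ) +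
        (1 / (Nat.totient q : ℝ)) * ∑ r ∈ q.divisors.erase 1, prS (wJ J j) (27 * J ^ 3) r := by
    intro q hq
    have hq1 := (Finset.mem_Icc.1 hq).1
    have hq2 := (Finset.mem_Icc.1 hq).2
    have : NeZero q := ⟨by omega⟩
    refine (ap_le hw0 hw1 hN0 (a q) (ha q)).trans ?_
    have h1 := sum_pr_le (wJ J j) (27 * J ^ 3) q
    have h2 : 0 ≤ 1 / (Nat.totient q : ℝ) := by positivity
    have h3 := mul_le_mul_of_nonneg_left h1 h2
    have h4 : (q : ℝ) * Real.log ((27 * J ^ 3 : ℕ) : ℝ) ≤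
        (N : ℝ) * Real.log ((27 * J ^ 3 : ℕ) : ℝ) := by
      apply mul_le_mul_of_nonneg_right _ hlog
      exact_mod_cast hq2
    linarith
  refine (Finset.sum_le_sum hstep).trans ?_
  rw [Finset.sum_add_distrib, Finset.sum_const, Nat.card_Icc, Nat.add_sub_cancel, nsmul_eq_mul]
  have h1 := sum_swap_le (wJ J j) (27 * J ^ 3) N
  have h2 : ∑ r ∈ Icc 2 N, prS (wJ J j) (27 * J ^ 3) r / (Nat.totient r : ℝ) =
      ∑ p ∈ primChars N, 1 / (Nat.totient p.1 : ℝ) * ‖Sf (FL J) J j p.2‖ := by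
    rw [← sum_prS J j N (fun r => 1 / (Nat.totient r : ℝ))]
    apply Finset.sum_congr rfl
    intro r _
    ring
  rw [h2] at h1
  have h3 : (N : ℝ) * ((N : ℝ) * Real.log ((27 * J ^ 3 : ℕ) : ℝ)) =
      (N : ℝ) ^ 2 * Real.log ((27 * J ^ 3 : ℕ) : ℝ) := by ring
  linarith

end Pool.Agent.CC
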