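import Pool.Agent.Lib.MP_d610d0_nt.CC.BvB
import Pool.Agent.Lib.MP_d610d0_nt.CH.F.P.win

set_option autoImplicit false

/-!
The Bombieri-Vinogradov estimate in every window, for general residue classes.
(The core is that of `CA/SV/p_red.lean`.)
-/

namespace Pool.Agent.CC

open Finset Filter
open Pool.Agent.MP89da58 (tri primChars sum_inv_totient_le inv_totient_le)
open Pool.Agent.CH (wJ)
open Pool.Agent.CH.D (Sf FL)
open Pool.Agent.CA (LCw SCw)

lemma bv_mem {R : ℕ} {p : Σ q, DirichletCharacter ℂ q} :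
    p ∈ primChars R ↔ (2 ≤ p.1 ∧ p.1 ≤ R) ∧ p.2.IsPrimitive := by
  classical
  rw [primChars, mem_sigma, mem_filter, mem_Icc]
  simp only [mem_univ, true_and]

lemma bv_step {R R' : ℕ} (h : R ≤ R') (g : (Σ q, DirichletCharacter ℂ q) → ℝ) :
    ∑ p ∈ primChars R', g p - ∑ p ∈ primChars R, g p =
      ∑ p ∈ primChars R', (if R < p.1 then g p else 0) := by
  classical
  have h1 : primChars R = (primChars R').filter (fun p => ¬ R < p.1) := by
    ext p
    rw [mem_filter, bv_mem, bv_mem]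
    constructor
    · rintro ⟨⟨h2, h3⟩, h4⟩
      exact ⟨⟨⟨h2, h3.trans h⟩, h4⟩, by omega⟩
    · rintro ⟨⟨⟨h2, _⟩, h4⟩, h5⟩
      exact ⟨⟨h2, by omega⟩, h4⟩
  rw [h1, sum_filter, ← sum_sub_distrib]
  apply sum_congr rfl
  intro p _
  by_cases hp : R < p.1
  · simp [hp]
  · simp [hp]

/-- the core estimate -/
lemma bv_core (S : (Σ q, DirichletCharacter ℂ q) → ℝ)
    (C : (Σ q, DirichletCharacter ℂ q) → ℝ) (K X1 X2 : ℝ) (R : ℕ → ℕ) (I : ℕ)
    (hK : 0 < K) (hX1 : 0 ≤ X1) (hX2 : 0 ≤ X2) (hS0 : ∀ p, 0 ≤ S p)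
    (hRm : ∀ i, R i ≤ R (i + 1)) (hR2 : ∀ i, R (i + 1) ≤ 2 * R i)
    (hC : ∀ p : (Σ q, DirichletCharacter ℂ q), 1 ≤ p.1 → C p ≤ K / p.1)
    (hS : ∀ p ∈ primChars (R 0), S p ≤ X1)
    (hL : ∀ i < I, ∑ p ∈ primChars (R (i + 1)), S p ≤ (R (i + 1) : ℝ) * X2) :
    ∑ p ∈ primChars (R I), C p * S p ≤ (R 0 : ℝ) ^ 2 * K * X1 + 2 * (I : ℝ) * K * X2 := by
  classical
  induction I with
  | zero =>
    have hcard : ((primChars (R 0)).card : ℝ) ≤ (R 0 : ℝ) ^ 2 := by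
      exact_mod_cast Pool.Agent.MP89da58.card_primChars (R 0)
    have h1 : ∑ p ∈ primChars (R 0), C p * S p ≤ ∑ p ∈ primChars (R 0), K * X1 := by
      apply sum_le_sum
      intro p hp
      have h2 : 2 ≤ p.1 := (bv_mem.1 hp).1.1
      have h3 : (1 : ℝ) ≤ (p.1 : ℝ) := by exact_mod_cast (by omega : 1 ≤ p.1)
      have h4 : C p ≤ K := (hC p (by omega)).trans (div_le_self hK.le h3)
      calc C p * S p ≤ K * S p := mul_le_mul_of_nonneg_right h4 (hS0 p)
        _ ≤ K * X1 := mul_le_mul_of_nonneg_left (hS p hp) hK.le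
    rw [sum_const, nsmul_eq_mul] at h1
    have h2 : ((primChars (R 0)).card : ℝ) * (K * X1) ≤ (R 0 : ℝ) ^ 2 * (K * X1) :=
      mul_le_mul_of_nonneg_right hcard (by positivity)
    push_cast
    linarith
  | succ I ih =>
    have ih' := ih (fun i hi => hL i (by omega))
    have h1 := bv_step (hRm I) (fun p => C p * S p)
    have h2 : ∑ p ∈ primChars (R (I + 1)), (if R I < p.1 then C p * S p else 0) ≤
        2 * K * X2 := by
      rcases Nat.eq_zero_or_pos (R (I + 1)) with hR0 | hR0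
      · have h3 : ∑ p ∈ primChars (R (I + 1)), (if R I < p.1 then C p * S p else 0) = 0 := by
          apply sum_eq_zero
          intro p hp
          have := (bv_mem.1 hp).1
          omega
        rw [h3]
        positivity
      · have hR0' : (0 : ℝ) < (R (I + 1) : ℝ) := by exact_mod_cast hR0
        have h3 : ∀ p ∈ primChars (R (I + 1)), (if R I < p.1 then C p * S p else 0) ≤
            2 * K / (R (I + 1) : ℝ) * S p := by
          intro p hp
          by_cases hp1 : R I < p.1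
          · rw [if_pos hp1]
            apply mul_le_mul_of_nonneg_right _ (hS0 p)
            have hp0 : (0 : ℝ) < (p.1 : ℝ) := by exact_mod_cast (by omega : 0 < p.1)
            have h5 : (R (I + 1) : ℝ) ≤ 2 * (p.1 : ℝ) := by
              have h6 := hR2 I
              exact_mod_cast (by omega : R (I + 1) ≤ 2 * p.1)
            refine (hC p (by omega)).trans ?_
            rw [div_le_div_iff₀ hp0 hR0']
            nlinarith
          · rw [if_neg hp1]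
            have := hS0 p
            positivity
        calc ∑ p ∈ primChars (R (I + 1)), (if R I < p.1 then C p * S p else 0)
            ≤ ∑ p ∈ primChars (R (I + 1)), 2 * K / (R (I + 1) : ℝ) * S p := sum_le_sum h3
          _ = 2 * K / (R (I + 1) : ℝ) * ∑ p ∈ primChars (R (I + 1)), S p := by rw [mul_sum]
          _ ≤ 2 * K / (R (I + 1) : ℝ) * ((R (I + 1) : ℝ) * X2) :=
              mul_le_mul_of_nonneg_left (hL I (by omega)) (by positivity)
          _ = 2 * K * X2 := by field_simp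
    rw [← h1] at h2
    push_cast
    linarith

/-- the elementary estimate -/
lemma bv_num (A B : ℕ) (L K r I Z : ℝ) (hL : 10 ≤ L) (hZ : 0 ≤ Z) (hK0 : 0 ≤ K)
    (hK : K ≤ 800 * L ^ 3) (hr0 : 0 ≤ r) (hr : r ≤ 2 * L ^ B) (_ : 0 ≤ I) (hI : I ≤ 3 * L) :
    r ^ 2 * K * (Z / L ^ (A + 2 * B + 30)) + 2 * I * K * (Z / L ^ (A + 20)) ≤ Z / L ^ A := by
  have hL0 : 0 < L := by linarith
  have h1 : r ^ 2 ≤ 4 * L ^ (2 * B) := by
    calc r ^ 2 ≤ (2 * L ^ B) ^ 2 := pow_le_pow_left₀ hr0 hr 2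
      _ = 4 * L ^ (2 * B) := by rw [mul_pow, ← pow_mul, mul_comm B 2]; norm_num
  have h4 : (10 : ℝ) ^ 12 ≤ L ^ 12 := pow_le_pow_left₀ (by norm_num) hL 12
  have h5 : (10 : ℝ) ^ 24 ≤ L ^ 24 := pow_le_pow_left₀ (by norm_num) hL 24
  have e1 : r ^ 2 * K * (Z / L ^ (A + 2 * B + 30)) ≤
      4 * L ^ (2 * B) * (800 * L ^ 3) * (Z / L ^ (A + 2 * B + 30)) := by
    gcongr
  have e2 : 2 * I * K * (Z / L ^ (A + 20)) ≤
      2 * (3 * L) * (800 * L ^ 3) * (Z / L ^ (A + 20)) := by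
    gcongr
  have e3 : 4 * L ^ (2 * B) * (800 * L ^ 3) * (Z / L ^ (A + 2 * B + 30)) =
      3200 / L ^ 27 * (Z / L ^ A) := by
    have : L ^ (A + 2 * B + 30) = L ^ A * L ^ (2 * B) * L ^ 3 * L ^ 27 := by
      rw [← pow_add, ← pow_add, ← pow_add]
    rw [this]
    field_simp
    ring
  have e4 : 2 * (3 * L) * (800 * L ^ 3) * (Z / L ^ (A + 20)) =
      4800 / L ^ 16 * (Z / L ^ A) := by
    have : L ^ (A + 20) = L ^ A * L * L ^ 3 * L ^ 16 := by
      rw [← pow_succ, ← pow_add, ← pow_add]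
    rw [this]
    field_simp
    ring
  have h6 : L ^ 12 ≤ L ^ 16 := pow_le_pow_right₀ (by linarith) (by norm_num)
  have h7 : L ^ 24 ≤ L ^ 27 := pow_le_pow_right₀ (by linarith) (by norm_num)
  have e5 : 3200 / L ^ 27 ≤ 1 / 2 := by
    rw [div_le_iff₀ (by positivity)]
    nlinarith only [h5, h7]
  have e6 : 4800 / L ^ 16 ≤ 1 / 2 := by
    rw [div_le_iff₀ (by positivity)]
    nlinarith only [h4, h6]
  have hZA : 0 ≤ Z / L ^ A := by positivity
  have e7 := mul_le_mul_of_nonneg_right e5 hZA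
  have e8 := mul_le_mul_of_nonneg_right e6 hZA
  linarith


/-- lower bound for the level -/
lemma ev_lev (B : ℕ) {s : ℝ} (hs : 0 < s) : ∀ᶠ J : ℕ in atTop,
    (Real.log J) ^ B + 1 ≤ (J : ℝ) ^ s := by
  have h1 : Tendsto (fun x : ℝ => x ^ s) atTop atTop := tendsto_rpow_atTop hs
  have h2 : ∀ᶠ x : ℝ in atTop, Real.log x ^ (B : ℝ) ≤ 1 / 2 * x ^ s := by
    have h3 := (isLittleO_log_rpow_rpow_atTop (B : ℝ) hs).bound (by norm_num : (0 : ℝ) < 1 / 2)
    filter_upwards [h3, eventually_ge_atTop 1] with x hx hx1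
    have h4 : 0 ≤ Real.log x ^ (B : ℝ) := Real.rpow_nonneg (Real.log_nonneg hx1) _
    have h5 : 0 ≤ x ^ s := Real.rpow_nonneg (by linarith) _
    rwa [Real.norm_of_nonneg h4, Real.norm_of_nonneg h5] at hx
  have h6 : ∀ᶠ x : ℝ in atTop, Real.log x ^ B + 1 ≤ x ^ s := by
    filter_upwards [h2, h1.eventually_ge_atTop 2] with x hx hx2
    rw [Real.rpow_natCast] at hx
    linarith
  exact tendsto_natCast_atTop_atTop.eventually h6

/-- powers of the logarithm -/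
lemma ev_pow (C : ℝ) (B : ℕ) {s : ℝ} (hs : 0 < s) : ∀ᶠ J : ℕ in atTop,
    C * (Real.log J) ^ B ≤ (J : ℝ) ^ s := by
  have hlog : Tendsto (fun J : ℕ => Real.log (J : ℝ)) atTop atTop :=
    Real.tendsto_log_atTop.comp tendsto_natCast_atTop_atTop
  filter_upwards [ev_lev (B + 1) hs, hlog.eventually_ge_atTop C, hlog.eventually_ge_atTop 0]
    with J h1 h2 h3
  have h4 : C * (Real.log J) ^ B ≤ Real.log J * (Real.log J) ^ B :=
    mul_le_mul_of_nonneg_right h2 (pow_nonneg h3 _)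
  have h5 : (Real.log J) ^ (B + 1) = Real.log J * (Real.log J) ^ B := by ring
  linarith

theorem bv1 (hLC : LCw FL) (hSC : SCw FL) (A : ℕ) : ∀ᶠ J : ℕ in atTop, ∀ j ∈ Ioc J (2 * J),
    ∀ a : ℕ → ℕ, (∀ q, (a q).Coprime q) →
    ∑ q ∈ Icc 1 ⌊(J : ℝ) ^ (2 / 5 : ℝ)⌋₊, Er (wJ J j) (27 * J ^ 3) q (a q) ≤
      (J : ℝ) ^ 2 / (Real.log J) ^ A := by
  classical
  obtain ⟨B, hB⟩ := hLC (A + 1 + 20)
  have hS1 := hSC (A + 1 + 2 * B + 30) (B + 1)
  have hlog : Tendsto (fun J : ℕ => Real.log (J : ℝ)) atTop atTop :=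
    Real.tendsto_log_atTop.comp tendsto_natCast_atTop_atTop
  filter_upwards [hB, hS1, ev_lev B (show (0 : ℝ) < 2 / 5 by norm_num),
    ev_pow 4 (A + 2) (show (0 : ℝ) < 6 / 5 by norm_num), hlog.eventually_ge_atTop 10,
    eventually_ge_atTop 27] with J hBJ hSJ hYJ hpw hL hJ4 j hj a ha
  obtain ⟨L, hLdef⟩ : ∃ L : ℝ, L = Real.log J := ⟨_, rfl⟩
  obtain ⟨Y, hYdef⟩ : ∃ Y : ℝ, Y = (J : ℝ) ^ (2 / 5 : ℝ) := ⟨_, rfl⟩
  have hJ0 : (0 : ℝ) < (J : ℝ) := by exact_mod_cast (by omega : 0 < J)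
  have hJ1 : (1 : ℝ) ≤ (J : ℝ) := by exact_mod_cast (by omega : 1 ≤ J)
  have hYlev : Y ≤ (J : ℝ) ^ (4998 / 10000 : ℝ) := by
    rw [hYdef]
    exact Real.rpow_le_rpow_of_exponent_le hJ1 (by norm_num)
  rw [← hLdef] at hBJ hYJ hSJ hL hpw ⊢
  rw [← hYdef] at hYJ ⊢
  have hY0 : 0 ≤ Y := by rw [hYdef]; positivity
  have hYJ1 : Y ≤ J := by
    rw [hYdef]
    calc (J : ℝ) ^ (2 / 5 : ℝ) ≤ (J : ℝ) ^ (1 : ℝ) :=
          Real.rpow_le_rpow_of_exponent_le hJ1 (by norm_num)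
      _ = J := Real.rpow_one _
  obtain ⟨Y0, hY0def⟩ : ∃ Y0 : ℕ, Y0 = ⌊Y⌋₊ := ⟨_, rfl⟩
  rw [← hY0def]
  have hY0le : (Y0 : ℝ) ≤ Y := by rw [hY0def]; exact Nat.floor_le hY0
  have hY0lt : Y < Y0 + 1 := by rw [hY0def]; exact Nat.lt_floor_add_one Y
  have hY0J : Y0 ≤ J := by exact_mod_cast hY0le.trans hYJ1
  obtain ⟨R0, hR0def⟩ : ∃ R0 : ℕ, R0 = ⌈L ^ B⌉₊ := ⟨_, rfl⟩
  have hLB1 : 1 ≤ L ^ B := one_le_pow₀ (by linarith)
  have hR0ge : L ^ B ≤ R0 := by rw [hR0def]; exact Nat.le_ceil _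
  have hR0lt : (R0 : ℝ) < L ^ B + 1 := by rw [hR0def]; exact Nat.ceil_lt_add_one (by positivity)
  have hR0pos : 0 < R0 := by
    have : (0 : ℝ) < R0 := by linarith
    exact_mod_cast this
  have hY0B : L ^ B ≤ Y0 := by linarith
  have hY01 : 1 ≤ Y0 := by
    have : (0 : ℝ) < Y0 := by linarith
    exact_mod_cast this
  obtain ⟨R, hRdef⟩ : ∃ R : ℕ → ℕ, R = fun i => min (2 ^ i * R0) Y0 := ⟨_, rfl⟩
  have hR : ∀ i, R i = min (2 ^ i * R0) Y0 := fun i => by rw [hRdef]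
  obtain ⟨I, hIdef⟩ : ∃ I : ℕ, I = ⌈2 * L⌉₊ := ⟨_, rfl⟩
  have hIle : (I : ℝ) ≤ 3 * L := by
    have : (I : ℝ) < 2 * L + 1 := by rw [hIdef]; exact Nat.ceil_lt_add_one (by linarith)
    linarith
  have hRI : R I = Y0 := by
    rw [hR]
    apply min_eq_right
    have h1 : 2 * L ≤ I := by rw [hIdef]; exact Nat.le_ceil _
    have h2 : (J : ℝ) ≤ 2 ^ I := by
      have h3 : Real.log J ≤ Real.log (2 ^ I) := by
        rw [Real.log_pow, ← hLdef]
        have h4 : (0.5 : ℝ) < Real.log 2 := by linarith [Real.log_two_gt_d9]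
        nlinarith
      exact (Real.log_le_log_iff hJ0 (by positivity)).1 h3
    have h5 : J ≤ 2 ^ I := by exact_mod_cast h2
    calc Y0 ≤ J := hY0J
      _ ≤ 2 ^ I := h5
      _ = 2 ^ I * 1 := (mul_one _).symm
      _ ≤ 2 ^ I * R0 := Nat.mul_le_mul_left _ hR0pos
  have hRB : ∀ i, L ^ B ≤ (R i : ℝ) := by
    intro i
    rw [hR]
    push_cast
    apply le_min
    · calc L ^ B ≤ R0 := hR0ge
        _ = 1 * (R0 : ℝ) := (one_mul _).symm
        _ ≤ 2 ^ i * (R0 : ℝ) := mul_le_mul_of_nonneg_right (one_le_pow₀ (by norm_num))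
            (Nat.cast_nonneg _)
    · exact hY0B
  have hRY : ∀ i, (R i : ℝ) ≤ Y := by
    intro i
    refine le_trans ?_ hY0le
    rw [hR]
    exact_mod_cast min_le_right _ _
  have hR0' : (R 0 : ℝ) ≤ 2 * L ^ B := by
    have h1 : (R 0 : ℝ) ≤ R0 := by
      rw [hR, pow_zero, one_mul]
      exact_mod_cast min_le_left _ _
    linarith
  obtain ⟨K, hKdef⟩ : ∃ K : ℝ, K = 800 * L ^ 3 := ⟨_, rfl⟩
  have hK0 : 0 < K := by rw [hKdef]; positivity
  have hw := Pool.Agent.CH.F.p_win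
  have hw' : ∀ n, 0 ≤ wJ J j n ∧ wJ J j n ≤ 1 := (hw J (by omega) j hj).1
  obtain ⟨Sm, hSm⟩ : ∃ x : ℝ, x = ∑ m ∈ Icc 1 Y0, 1 / (Nat.totient m : ℝ) := ⟨_, rfl⟩
  have hSm0 : 0 ≤ Sm := by rw [hSm]; exact Finset.sum_nonneg fun m _ => by positivity
  have hlog2 : (0.69 : ℝ) < Real.log 2 := lt_trans (by norm_num) Real.log_two_gt_d9
  have hlogle : ∀ r : ℕ, 1 ≤ r → r ≤ Y0 → Real.log r / Real.log 2 + 1 ≤ 2 * L := by
    intro r hr1 hr2
    have h1 : Real.log r ≤ L := by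
      rw [hLdef]
      apply Real.log_le_log (by exact_mod_cast hr1)
      exact_mod_cast hr2.trans hY0J
    have h2 : Real.log r / Real.log 2 ≤ L / 0.69 :=
      div_le_div₀ (by linarith) h1 (by norm_num) hlog2.le
    have h3 : L / 0.69 ≤ 1.5 * L := by
      rw [div_le_iff₀ (by norm_num)]
      linarith
    linarith
  have hSmle : Sm ≤ 4 * L ^ 2 := by
    rw [hSm]
    refine (sum_inv_totient_le Y0 hY01).trans ?_
    have h1 := hlogle Y0 hY01 le_rfl
    have h2 : Real.log Y0 ≤ L := by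
      rw [hLdef]
      apply Real.log_le_log (by exact_mod_cast hY01)
      exact_mod_cast hY0J
    have h3 : 0 ≤ Real.log Y0 := Real.log_nonneg (by exact_mod_cast hY01)
    calc (Real.log Y0 / Real.log 2 + 1) * (1 + Real.log Y0) ≤ (2 * L) * (2 * L) :=
          mul_le_mul h1 (by linarith) (by linarith) (by linarith)
      _ = 4 * L ^ 2 := by ring
  obtain ⟨C, hCdef⟩ : ∃ C : (Σ q, DirichletCharacter ℂ q) → ℝ, C = fun p =>
      if p.1 ≤ Y0 then 1 / (Nat.totient p.1 : ℝ) * Sm else 0 := ⟨_, rfl⟩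
  have hCv : ∀ p, C p = if p.1 ≤ Y0 then 1 / (Nat.totient p.1 : ℝ) * Sm else 0 := fun p => by
    rw [hCdef]
  have hC : ∀ p : (Σ q, DirichletCharacter ℂ q), 1 ≤ p.1 → C p ≤ K / p.1 := by
    intro p hp
    rw [hCv]
    have hp0 : (0 : ℝ) < p.1 := by exact_mod_cast hp
    split_ifs with h
    · have h1 := inv_totient_le p.1 (by omega)
      have h2 := hlogle p.1 hp h
      calc 1 / (Nat.totient p.1 : ℝ) * Sm ≤ (2 * L) / p.1 * (4 * L ^ 2) := by
            apply mul_le_mul _ hSmle hSm0 (by positivity)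
            refine h1.trans ?_
            exact div_le_div_of_nonneg_right h2 hp0.le
        _ = 8 * L ^ 3 / p.1 := by ring
        _ ≤ K / p.1 := by
            apply div_le_div_of_nonneg_right _ hp0.le
            rw [hKdef]
            have : 0 ≤ L ^ 3 := by positivity
            linarith
    · positivity
  have hcore := bv_core (fun p => ‖Sf (FL J) J j p.2‖) C K
    ((J : ℝ) ^ 2 / L ^ (A + 1 + 2 * B + 30)) ((J : ℝ) ^ 2 / L ^ (A + 1 + 20)) R I hK0
    (by positivity) (by positivity) (fun p => norm_nonneg _)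
    (by
      intro i
      rw [hR, hR]
      apply min_le_min _ le_rfl
      exact Nat.mul_le_mul_right _ (Nat.pow_le_pow_right (by norm_num) (Nat.le_succ i)))
    (by
      intro i
      rw [hR, hR]
      have : 2 ^ (i + 1) * R0 = 2 * (2 ^ i * R0) := by ring
      rw [this]
      omega)
    hC
    (by
      intro p hp
      obtain ⟨⟨h1, h2⟩, h3⟩ := bv_mem.1 hp
      refine hSJ p.1 p.2 h1 ?_ h3 j hj
      have h4 : (p.1 : ℝ) ≤ R 0 := by exact_mod_cast h2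
      have h5 : L ^ (B + 1) = L * L ^ B := by ring
      have h6 : 2 * L ^ B ≤ L * L ^ B :=
        mul_le_mul_of_nonneg_right (by linarith) (by positivity)
      linarith)
    (by
      intro i _
      have h1 := hBJ (R (i + 1)) (hRB _) ((hRY _).trans hYlev) j hj
      rw [mul_div_assoc] at h1
      exact h1)
  have hnum := bv_num (A + 1) B L K (R 0 : ℝ) (I : ℝ) ((J : ℝ) ^ 2) hL (by positivity) hK0.le
    hKdef.le (Nat.cast_nonneg _) hR0' (Nat.cast_nonneg _) hIle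
  have hmain := sum_Er_le J j (by omega) (fun n => (hw' n).1) (fun n => (hw' n).2) a ha Y0
  rw [← hSm] at hmain
  have h1 : (∑ p ∈ primChars Y0, 1 / (Nat.totient p.1 : ℝ) * ‖Sf (FL J) J j p.2‖) * Sm =
      ∑ p ∈ primChars (R I), C p * ‖Sf (FL J) J j p.2‖ := by
    rw [hRI, Finset.sum_mul]
    apply Finset.sum_congr rfl
    intro p hp
    rw [hCv, if_pos (bv_mem.1 hp).1.2]
    ring
  rw [h1] at hmain
  have h2 : (Y0 : ℝ) ^ 2 * Real.log ((27 * J ^ 3 : ℕ) : ℝ) ≤ (J : ℝ) ^ 2 / L ^ (A + 1) := by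
    have h3 : Real.log ((27 * J ^ 3 : ℕ) : ℝ) ≤ 4 * L := by
      have h4 : ((27 * J ^ 3 : ℕ) : ℝ) ≤ (J : ℝ) ^ 4 := by
        have : 27 * J ^ 3 ≤ J ^ 4 := by
          calc 27 * J ^ 3 ≤ J * J ^ 3 := Nat.mul_le_mul_right _ hJ4
            _ = J ^ 4 := by ring
        exact_mod_cast this
      have h5 := Real.log_le_log (by
        have : 0 < 27 * J ^ 3 := by positivity
        exact_mod_cast this) h4
      rw [Real.log_pow, ← hLdef] at h5
      push_cast at h5 ⊢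
      exact h5
    have h4 : (Y0 : ℝ) ^ 2 ≤ (J : ℝ) ^ (4 / 5 : ℝ) := by
      calc (Y0 : ℝ) ^ 2 ≤ Y ^ 2 := pow_le_pow_left₀ (Nat.cast_nonneg _) hY0le 2
        _ = (J : ℝ) ^ (4 / 5 : ℝ) := by
            rw [hYdef, ← Real.rpow_natCast, ← Real.rpow_mul hJ0.le]
            norm_num
    rw [le_div_iff₀ (by positivity)]
    calc (Y0 : ℝ) ^ 2 * Real.log ((27 * J ^ 3 : ℕ) : ℝ) * L ^ (A + 1) ≤
          (J : ℝ) ^ (4 / 5 : ℝ) * (4 * L) * L ^ (A + 1) := by
          have h5 : 0 ≤ Real.log ((27 * J ^ 3 : ℕ) : ℝ) := Real.log_natCast_nonneg _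
          apply mul_le_mul_of_nonneg_right _ (by positivity)
          exact mul_le_mul h4 h3 h5 (by positivity)
      _ = (J : ℝ) ^ (4 / 5 : ℝ) * (4 * L ^ (A + 2)) := by ring
      _ ≤ (J : ℝ) ^ (4 / 5 : ℝ) * (J : ℝ) ^ (6 / 5 : ℝ) :=
          mul_le_mul_of_nonneg_left hpw (by positivity)
      _ = (J : ℝ) ^ 2 := by
          rw [← Real.rpow_add hJ0, ← Real.rpow_natCast]
          norm_num
  have h3 : (J : ℝ) ^ 2 / L ^ (A + 1) + (J : ℝ) ^ 2 / L ^ (A + 1) ≤ (J : ℝ) ^ 2 / L ^ A := by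
    rw [← add_div, div_le_div_iff₀ (by positivity) (by positivity)]
    have e : L ^ (A + 1) = L ^ A * L := pow_succ L A
    rw [e]
    have h4 : 0 ≤ (J : ℝ) ^ 2 * L ^ A := by positivity
    have h5 := mul_le_mul_of_nonneg_left (show (2 : ℝ) ≤ L by linarith) h4
    clear * - h5
    linarith
  linarith

end Pool.Agent.CC
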