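import Pool.Agent.Lib.MP_d610d0_nt.CC.BvC

set_option autoImplicit false

/-!
The weighted Bombieri-Vinogradov estimate in every window.
-/

namespace Pool.Agent.CC

open Finset Filter ArithmeticFunction
open Pool.Agent.MP89da58 (tri primChars sum_inv_totient_le inv_totient_le sum_omega_le)
open Pool.Agent.CH (wJ)
open Pool.Agent.CH.D (Sf FL)
open Pool.Agent.CA (LCw SCw)

lemma card_class (a b q v : ℕ) (hq : 0 < q) (hab : a ≤ b) :
    ((Icc a b).filter (fun n => n ≡ v [MOD q])).card ≤ (b - a) / q + 2 := by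
  have h : ((Icc a b).filter (fun n => n ≡ v [MOD q])).card ≤ (Icc (a / q) (b / q)).card := by
    refine Finset.card_le_card_of_injOn (fun n => n / q) ?_ ?_
    · intro n hn
      simp only [Finset.coe_filter, Finset.mem_Icc, Set.mem_ofPred_eq] at hn
      rw [Finset.mem_coe, Finset.mem_Icc]
      exact ⟨Nat.div_le_div_right hn.1.1, Nat.div_le_div_right hn.1.2⟩
    · intro n hn m hm h
      simp only [Finset.coe_filter, Finset.mem_Icc, Set.mem_ofPred_eq] at hn hm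
      have h1 : n % q = m % q := hn.2.trans hm.2.symm
      have h2 := Nat.div_add_mod n q
      have h3 := Nat.div_add_mod m q
      simp only at h
      rw [h, h1, h3] at h2
      exact h2.symm
  refine h.trans ?_
  rw [Nat.card_Icc]
  have h1 : b / q < a / q + (b - a) / q + 2 := by
    rw [Nat.div_lt_iff_lt_mul hq]
    have h3 := Nat.lt_mul_div_succ a hq
    have h4 := Nat.lt_mul_div_succ (b - a) hq
    have h5 : (a / q + (b - a) / q + 2) * q = q * (a / q + 1) + q * ((b - a) / q + 1) := by ring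
    rw [h5]
    omega
  generalize b / q = x at h1 ⊢
  generalize a / q = y at h1 ⊢
  generalize (b - a) / q = t at h1 ⊢
  omega

/-- the trivial bound -/
lemma triv {J j : ℕ} (hJ : 27 ≤ J) (hj : j ∈ Ioc J (2 * J)) (hL : 10 ≤ Real.log J) {q : ℕ}
    (hq1 : 1 ≤ q) (hqJ : q ≤ J) (b : ℕ) :
    Er (wJ J j) (27 * J ^ 3) q b ≤ 300 * (Real.log J) ^ 2 * (J : ℝ) ^ 2 / q := by
  classical
  obtain ⟨L, hLdef⟩ : ∃ L : ℝ, L = Real.log J := ⟨_, rfl⟩
  rw [← hLdef] at hL ⊢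
  have hJ0 : (0 : ℝ) < (J : ℝ) := by exact_mod_cast (by omega : 0 < J)
  have hJ1 : (1 : ℝ) ≤ (J : ℝ) := by exact_mod_cast (by omega : 1 ≤ J)
  have hq0 : (0 : ℝ) < q := by exact_mod_cast hq1
  have hqJ' : (q : ℝ) ≤ J := by exact_mod_cast hqJ
  obtain ⟨hw1, hw2, hw3, _⟩ := Pool.Agent.CH.F.p_win J (by omega) j hj
  have hlogN : Real.log ((27 * J ^ 3 : ℕ) : ℝ) ≤ 4 * L := by
    have h4 : ((27 * J ^ 3 : ℕ) : ℝ) ≤ (J : ℝ) ^ 4 := by
      have : 27 * J ^ 3 ≤ J ^ 4 := by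
        calc 27 * J ^ 3 ≤ J * J ^ 3 := Nat.mul_le_mul_right _ hJ
          _ = J ^ 4 := by ring
      exact_mod_cast this
    have h5 := Real.log_le_log (by
      have : 0 < 27 * J ^ 3 := by positivity
      exact_mod_cast this) h4
    rw [Real.log_pow, ← hLdef] at h5
    push_cast at h5 ⊢
    exact h5
  have hΛ : ∀ n ∈ Icc 1 (27 * J ^ 3), vonMangoldt n * wJ J j n ≤
      if wJ J j n ≠ 0 then 4 * L else 0 := by
    intro n hn
    obtain ⟨hn1, hn2⟩ := Finset.mem_Icc.1 hn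
    split_ifs with h
    · have h1 : vonMangoldt n ≤ 4 * L := by
        refine vonMangoldt_le_log.trans (le_trans ?_ hlogN)
        apply Real.log_le_log (by exact_mod_cast hn1)
        exact_mod_cast hn2
      calc vonMangoldt n * wJ J j n ≤ 4 * L * 1 :=
            mul_le_mul h1 (hw1 n).2 (hw1 n).1 (by linarith)
        _ = 4 * L := mul_one _
    · push Not at h
      rw [h, mul_zero]
  have hterm : ∀ n, 0 ≤ vonMangoldt n * wJ J j n := fun n =>
    mul_nonneg vonMangoldt_nonneg (hw1 n).1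
  -- the class
  have h0 : 0 ≤ psA (wJ J j) (27 * J ^ 3) q b := Finset.sum_nonneg fun n _ => hterm n
  have h1 : psA (wJ J j) (27 * J ^ 3) q b ≤ 100 * L * (J : ℝ) ^ 2 / q := by
    unfold psA
    refine (Finset.sum_le_sum fun n hn => hΛ n (Finset.mem_filter.1 hn).1).trans ?_
    rw [← Finset.sum_filter, Finset.sum_const, nsmul_eq_mul]
    have hj' := Finset.mem_Ioc.1 hj
    have h2 : ((((Icc 1 (27 * J ^ 3)).filter (fun n => n ≡ b [MOD q])).filter
        (fun n => wJ J j n ≠ 0)).card : ℝ) ≤ 25 * (J : ℝ) ^ 2 / q := by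
      have h3 : ((Icc 1 (27 * J ^ 3)).filter (fun n => n ≡ b [MOD q])).filter
          (fun n => wJ J j n ≠ 0) ⊆ (Icc (j ^ 3) ((j + 1) ^ 3)).filter (fun n => n ≡ b [MOD q]) := by
        intro n hn
        rw [Finset.mem_filter, Finset.mem_filter, Finset.mem_Icc] at hn
        obtain ⟨h4, h5, _, _⟩ := hw2 n hn.1.1.1 hn.2
        rw [Finset.mem_filter, Finset.mem_Icc]
        exact ⟨⟨by omega, by omega⟩, hn.1.2⟩
      have h4 := (Finset.card_le_card h3).trans (card_class (j ^ 3) ((j + 1) ^ 3) q b hq1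
        (Nat.pow_le_pow_left (by omega) 3))
      have h5 : (j + 1) ^ 3 - j ^ 3 ≤ 19 * J ^ 2 := by
        have e : (j + 1) ^ 3 = j ^ 3 + (3 * j ^ 2 + 3 * j + 1) := by ring
        have h6 : 3 * j ^ 2 + 3 * j + 1 ≤ 19 * J ^ 2 := by nlinarith [hj'.2]
        omega
      have h6 : ((((j + 1) ^ 3 - j ^ 3) / q + 2 : ℕ) : ℝ) ≤ 19 * (J : ℝ) ^ 2 / q + 2 := by
        push_cast
        have h7 : ((((j + 1) ^ 3 - j ^ 3) / q : ℕ) : ℝ) ≤ (((j + 1) ^ 3 - j ^ 3 : ℕ) : ℝ) / q :=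
          Nat.cast_div_le
        have h8 : (((j + 1) ^ 3 - j ^ 3 : ℕ) : ℝ) ≤ 19 * (J : ℝ) ^ 2 := by exact_mod_cast h5
        have h9 := div_le_div_of_nonneg_right h8 hq0.le
        linarith
      have h7 : (2 : ℝ) ≤ 2 * (J : ℝ) ^ 2 / q := by
        rw [le_div_iff₀ hq0]
        nlinarith
      calc _ ≤ ((((j + 1) ^ 3 - j ^ 3) / q + 2 : ℕ) : ℝ) := by exact_mod_cast h4
        _ ≤ 19 * (J : ℝ) ^ 2 / q + 2 := h6
        _ ≤ 19 * (J : ℝ) ^ 2 / q + 2 * (J : ℝ) ^ 2 / q := by linarith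
        _ = 21 * (J : ℝ) ^ 2 / q := by ring
        _ ≤ 25 * (J : ℝ) ^ 2 / q := by
            apply div_le_div_of_nonneg_right _ hq0.le
            have := sq_nonneg (J : ℝ)
            linarith
    calc _ ≤ 25 * (J : ℝ) ^ 2 / q * (4 * L) := by
          apply mul_le_mul_of_nonneg_right h2
          linarith
      _ = 100 * L * (J : ℝ) ^ 2 / q := by ring
  -- all
  have h2 : 0 ≤ psW (wJ J j) (27 * J ^ 3) := Finset.sum_nonneg fun n _ => hterm n
  have h3 : psW (wJ J j) (27 * J ^ 3) ≤ 72 * L * (J : ℝ) ^ 2 := by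
    unfold psW
    refine (Finset.sum_le_sum hΛ).trans ?_
    rw [← Finset.sum_filter, Finset.sum_const, nsmul_eq_mul]
    calc _ ≤ 18 * (J : ℝ) ^ 2 * (4 * L) := by
          apply mul_le_mul_of_nonneg_right hw3
          linarith
      _ = _ := by ring
  have h4 : 1 / (Nat.totient q : ℝ) ≤ 2 * L / q := by
    refine (inv_totient_le q (by omega)).trans ?_
    apply div_le_div_of_nonneg_right _ hq0.le
    have hlogq : Real.log q ≤ L := by
      rw [hLdef]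
      exact Real.log_le_log hq0 hqJ'
    have hlog2 : (0.69 : ℝ) < Real.log 2 := lt_trans (by norm_num) Real.log_two_gt_d9
    have h5 : Real.log q / Real.log 2 ≤ L / 0.69 :=
      div_le_div₀ (by linarith) hlogq (by norm_num) hlog2.le
    have h6 : L / 0.69 ≤ 1.5 * L := by
      rw [div_le_iff₀ (by norm_num)]
      linarith
    linarith
  have h5 : psW (wJ J j) (27 * J ^ 3) / (Nat.totient q : ℝ) ≤ 144 * L ^ 2 * (J : ℝ) ^ 2 / q := by
    calc psW (wJ J j) (27 * J ^ 3) / (Nat.totient q : ℝ) =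
          psW (wJ J j) (27 * J ^ 3) * (1 / (Nat.totient q : ℝ)) := by ring
      _ ≤ 72 * L * (J : ℝ) ^ 2 * (2 * L / q) :=
          mul_le_mul h3 h4 (by positivity) (by positivity)
      _ = _ := by ring
  have h6 : 0 ≤ psW (wJ J j) (27 * J ^ 3) / (Nat.totient q : ℝ) := div_nonneg h2 (by positivity)
  have h7 : 100 * L * (J : ℝ) ^ 2 / q ≤ 100 * L ^ 2 * (J : ℝ) ^ 2 / q := by
    apply div_le_div_of_nonneg_right _ hq0.le
    have h12 := mul_le_mul_of_nonneg_left (by linarith : (1 : ℝ) ≤ L)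
      (by positivity : 0 ≤ 100 * L * (J : ℝ) ^ 2)
    clear * - h12
    linarith
  have h8 : 0 ≤ L ^ 2 * (J : ℝ) ^ 2 / q := by positivity
  have h9 : 100 * L ^ 2 * (J : ℝ) ^ 2 / q = 100 * (L ^ 2 * (J : ℝ) ^ 2 / q) := by ring
  have h10 : 144 * L ^ 2 * (J : ℝ) ^ 2 / q = 144 * (L ^ 2 * (J : ℝ) ^ 2 / q) := by ring
  have h11 : 300 * L ^ 2 * (J : ℝ) ^ 2 / q = 300 * (L ^ 2 * (J : ℝ) ^ 2 / q) := by ring
  unfold Er
  rw [h11, abs_le]
  rw [h9] at h7
  rw [h10] at h5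
  constructor <;> linarith

/-- the weighted estimate from the plain one -/
theorem bv2 (hLC : LCw FL) (hSC : SCw FL) (b A : ℕ) : ∀ᶠ J : ℕ in atTop, ∀ j ∈ Ioc J (2 * J),
    ∀ a : ℕ → ℕ, (∀ q, (a q).Coprime q) →
    ∑ q ∈ (Icc 1 ⌊(J : ℝ) ^ (2 / 5 : ℝ)⌋₊).filter Squarefree,
      (b : ℝ) ^ (q.primeFactors.card) * Er (wJ J j) (27 * J ^ 3) q (a q) ≤
      (J : ℝ) ^ 2 / (Real.log J) ^ A := by
  classical
  have hlog : Tendsto (fun J : ℕ => Real.log (J : ℝ)) atTop atTop :=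
    Real.tendsto_log_atTop.comp tendsto_natCast_atTop_atTop
  filter_upwards [bv1 hLC hSC (2 * A + b ^ 2 + 3), hlog.eventually_ge_atTop 300,
    eventually_ge_atTop 27] with J hX hL300 hJ27 j hj a ha
  have hX := hX j hj a ha
  obtain ⟨L, hLdef⟩ : ∃ L : ℝ, L = Real.log J := ⟨_, rfl⟩
  rw [← hLdef] at hX hL300 ⊢
  have hJ0 : (0 : ℝ) < (J : ℝ) := by exact_mod_cast (by omega : 0 < J)
  have hJ1 : (1 : ℝ) ≤ (J : ℝ) := by exact_mod_cast (by omega : 1 ≤ J)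
  have hLpos : 0 < L := by linarith
  obtain ⟨N, hN⟩ : ∃ N : ℕ, N = ⌊(J : ℝ) ^ (2 / 5 : ℝ)⌋₊ := ⟨_, rfl⟩
  rw [← hN] at hX ⊢
  have hXp : 0 ≤ (J : ℝ) ^ (2 / 5 : ℝ) := Real.rpow_nonneg hJ0.le _
  have hN1 : 1 ≤ N := by
    rw [hN]
    exact Nat.le_floor (by
      push_cast
      exact Real.one_le_rpow hJ1 (by norm_num))
  have hNJ : N ≤ J := by
    have h1 : (N : ℝ) ≤ J := by
      rw [hN]
      refine (Nat.floor_le hXp).trans ?_
      calc (J : ℝ) ^ (2 / 5 : ℝ) ≤ (J : ℝ) ^ (1 : ℝ) :=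
            Real.rpow_le_rpow_of_exponent_le hJ1 (by norm_num)
        _ = J := Real.rpow_one _
    exact_mod_cast h1
  obtain ⟨E, hE⟩ : ∃ E : ℕ → ℝ, E = fun q => Er (wJ J j) (27 * J ^ 3) q (a q) := ⟨_, rfl⟩
  have hEq : ∀ q, Er (wJ J j) (27 * J ^ 3) q (a q) = E q := fun q => by rw [hE]
  simp only [hEq] at hX ⊢
  have hE0 : ∀ q, 0 ≤ E q := fun q => by rw [hE]; exact abs_nonneg _
  have hsum1 : ∑ q ∈ (Icc 1 N).filter Squarefree, E q ≤
      (J : ℝ) ^ 2 / L ^ (2 * A + b ^ 2 + 3) := by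
    refine le_trans ?_ hX
    exact Finset.sum_le_sum_of_subset_of_nonneg (Finset.filter_subset _ _) fun q _ _ => hE0 q
  have hlogN : Real.log N ≤ L - 1 := by
    have h1 : (N : ℝ) ≤ (J : ℝ) ^ (2 / 5 : ℝ) := by rw [hN]; exact Nat.floor_le hXp
    have h2 := Real.log_le_log (by exact_mod_cast hN1) h1
    rw [Real.log_rpow hJ0, ← hLdef] at h2
    linarith
  have hsum2 : ∑ q ∈ (Icc 1 N).filter Squarefree, ((b : ℝ) ^ q.primeFactors.card) ^ 2 * E q ≤
      300 * L ^ 2 * (J : ℝ) ^ 2 * L ^ (b ^ 2) := by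
    have h1 : ∀ q ∈ (Icc 1 N).filter Squarefree, ((b : ℝ) ^ q.primeFactors.card) ^ 2 * E q ≤
        300 * L ^ 2 * (J : ℝ) ^ 2 * (((b ^ 2 : ℕ) : ℝ) ^ q.primeFactors.card / q) := by
      intro q hq
      obtain ⟨hq1, hq2⟩ := Finset.mem_Icc.1 (Finset.mem_filter.1 hq).1
      have h3 : E q ≤ 300 * L ^ 2 * (J : ℝ) ^ 2 / q := by
        rw [hE, hLdef]
        exact triv hJ27 hj (by linarith) hq1 (hq2.trans hNJ) _
      calc ((b : ℝ) ^ q.primeFactors.card) ^ 2 * E q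
          ≤ ((b : ℝ) ^ q.primeFactors.card) ^ 2 * (300 * L ^ 2 * (J : ℝ) ^ 2 / q) :=
            mul_le_mul_of_nonneg_left h3 (by positivity)
        _ = _ := by
            push_cast
            rw [← pow_mul, ← pow_mul, mul_comm 2]
            ring
    refine (Finset.sum_le_sum h1).trans ?_
    rw [← Finset.mul_sum]
    apply mul_le_mul_of_nonneg_left _ (by positivity)
    refine (sum_omega_le (b ^ 2) N hN1).trans ?_
    have h2 : 0 ≤ Real.log N := Real.log_nonneg (by exact_mod_cast hN1)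
    exact pow_le_pow_left₀ (by linarith) (by linarith) _
  -- Cauchy-Schwarz
  have hCS := Finset.sum_mul_sq_le_sq_mul_sq ((Icc 1 N).filter Squarefree)
    (fun q => (b : ℝ) ^ q.primeFactors.card * Real.sqrt (E q)) (fun q => Real.sqrt (E q))
  have h1 : ∑ q ∈ (Icc 1 N).filter Squarefree,
      ((b : ℝ) ^ q.primeFactors.card * Real.sqrt (E q)) * Real.sqrt (E q) =
      ∑ q ∈ (Icc 1 N).filter Squarefree, (b : ℝ) ^ q.primeFactors.card * E q := by
    refine Finset.sum_congr rfl fun q _ => ?_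
    rw [mul_assoc, Real.mul_self_sqrt (hE0 q)]
  have h2 : ∑ q ∈ (Icc 1 N).filter Squarefree,
      ((b : ℝ) ^ q.primeFactors.card * Real.sqrt (E q)) ^ 2 =
      ∑ q ∈ (Icc 1 N).filter Squarefree, ((b : ℝ) ^ q.primeFactors.card) ^ 2 * E q := by
    refine Finset.sum_congr rfl fun q _ => ?_
    rw [mul_pow, Real.sq_sqrt (hE0 q)]
  have h3 : ∑ q ∈ (Icc 1 N).filter Squarefree, Real.sqrt (E q) ^ 2 =
      ∑ q ∈ (Icc 1 N).filter Squarefree, E q :=
    Finset.sum_congr rfl fun q _ => Real.sq_sqrt (hE0 q)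
  rw [h1, h2, h3] at hCS
  have h4 : (∑ q ∈ (Icc 1 N).filter Squarefree, ((b : ℝ) ^ q.primeFactors.card) ^ 2 * E q) *
      (∑ q ∈ (Icc 1 N).filter Squarefree, E q) ≤
      300 * L ^ 2 * (J : ℝ) ^ 2 * L ^ (b ^ 2) * ((J : ℝ) ^ 2 / L ^ (2 * A + b ^ 2 + 3)) :=
    mul_le_mul hsum2 hsum1 (Finset.sum_nonneg fun q _ => hE0 q) (by positivity)
  have h5 : 300 * L ^ 2 * (J : ℝ) ^ 2 * L ^ (b ^ 2) * ((J : ℝ) ^ 2 / L ^ (2 * A + b ^ 2 + 3)) ≤
      ((J : ℝ) ^ 2 / L ^ A) ^ 2 := by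
    have h6 : L ^ (2 * A + b ^ 2 + 3) = L ^ A * L ^ A * L ^ (b ^ 2) * L ^ 2 * L := by
      ring
    rw [h6]
    have h7 : 300 * L ^ 2 * (J : ℝ) ^ 2 * L ^ (b ^ 2) *
        ((J : ℝ) ^ 2 / (L ^ A * L ^ A * L ^ (b ^ 2) * L ^ 2 * L)) =
        300 / L * ((J : ℝ) ^ 2 / L ^ A) ^ 2 := by
      field_simp
    rw [h7]
    have h8 : 300 / L ≤ 1 := by
      rw [div_le_one hLpos]; exact hL300
    have h9 : 0 ≤ ((J : ℝ) ^ 2 / L ^ A) ^ 2 := sq_nonneg _
    exact mul_le_of_le_one_left h9 h8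
  have h6 : (∑ q ∈ (Icc 1 N).filter Squarefree, (b : ℝ) ^ q.primeFactors.card * E q) ^ 2 ≤
      ((J : ℝ) ^ 2 / L ^ A) ^ 2 := hCS.trans (h4.trans h5)
  exact le_of_sq_le_sq h6 (by positivity)

end Pool.Agent.CC
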