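import Pool.Agent.Lib.MP_d610d0_nt.CC.Defs

set_option autoImplicit false

/-!
Primes `N = u x + v` with `x` in prescribed residue classes, general weights.
(The proofs are those of `Lib/MP_0da313_nt/BV/Classes.lean`.)
-/

open Finset

namespace Pool.Agent.CC

open Pool.Agent.Lib.MP_0da313_nt Pool.Agent.BVall

lemma psA_congr {w : ℕ → ℝ} {N0 : ℕ} {q a b : ℕ} (h : a ≡ b [MOD q]) :
    psA w N0 q a = psA w N0 q b := by
  unfold psA
  congr 1
  apply Finset.filter_congr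
  intro n _
  exact ⟨fun h' => h'.trans h, fun h' => h'.trans h.symm⟩

/-- the largest error modulo `W q` over the coprime classes -/
lemma exists_worst (w : ℕ → ℝ) (N0 : ℕ) (W : ℕ) (hW : 0 < W) : ∃ a : ℕ → ℕ,
    (∀ q, (a q).Coprime (W * q)) ∧ ∀ q b, 0 < q → b.Coprime (W * q) →
      |psA w N0 (W * q) b - psW w N0 / (Nat.totient (W * q) : ℝ)| ≤
      |psA w N0 (W * q) (a q) - psW w N0 / (Nat.totient (W * q) : ℝ)| := by
  classical
  have key : ∀ q, ∃ a : ℕ, a.Coprime (W * q) ∧ (0 < q → ∀ b : ℕ, b.Coprime (W * q) →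
      |psA w N0 (W * q) b - psW w N0 / (Nat.totient (W * q) : ℝ)| ≤
      |psA w N0 (W * q) a - psW w N0 / (Nat.totient (W * q) : ℝ)|) := by
    intro q
    rcases Nat.eq_zero_or_pos q with h0 | hq
    · exact ⟨1, Nat.coprime_one_left _, fun h => by omega⟩
    have hWq : 0 < W * q := Nat.mul_pos hW hq
    set Sf := (range (W * q)).filter (fun a => a.Coprime (W * q)) with hSf
    have hmem : ∀ b : ℕ, b.Coprime (W * q) → b % (W * q) ∈ Sf := by
      intro b hb
      rw [hSf, Finset.mem_filter, Finset.mem_range]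
      refine ⟨Nat.mod_lt _ hWq, ?_⟩
      rw [Nat.Coprime, ← Nat.gcd_rec, Nat.gcd_comm]
      exact hb
    have hne : Sf.Nonempty := ⟨1 % (W * q), hmem 1 (Nat.coprime_one_left _)⟩
    obtain ⟨a, ha, hmax⟩ := Finset.exists_max_image Sf
      (fun a => |psA w N0 (W * q) a - psW w N0 / (Nat.totient (W * q) : ℝ)|) hne
    refine ⟨a, (Finset.mem_filter.1 ha).2, fun _ b hb => ?_⟩
    have := hmax _ (hmem b hb)
    rwa [psA_congr (Nat.mod_modEq b (W * q))] at this
  choose a ha using key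
  exact ⟨a, fun q => (ha q).1, fun q b hq hb => (ha q).2 hq b hb⟩

section classes

variable {u v : ℤ} (hu : u ≠ 0)

include hu

/-- decomposition of a sum over `N = u x + v` into residue classes -/
lemma sum_classes (Q : ℕ → ℤ → Prop) [∀ p, DecidablePred (Q p)]
    (hQ : ∀ (p : ℕ) (x y : ℤ), (p : ℤ) ∣ x - y → (Q p x ↔ Q p y)) (T : Finset ℕ)
    (hT : ∀ p ∈ T, p.Prime) (w : ℕ → ℝ) (N0 : ℕ) :
    ∑ N ∈ (Icc 1 N0).filter (fun N : ℕ => u ∣ (N : ℤ) - v),
      (ArithmeticFunction.vonMangoldt N * w N) *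
        ∏ p ∈ T, (if Q p (((N : ℤ) - v) / u) then (1 : ℝ) else 0) =
      ∑ ρ ∈ (range (∏ p ∈ T, p)).filter (fun ρ : ℕ => ∀ p ∈ T, Q p ρ),
        psA w N0 (u.natAbs * ∏ p ∈ T, p) (rr u v (∏ p ∈ T, p) ρ) := by
  classical
  set D := ∏ p ∈ T, p with hD
  have hD0 : 0 < D := Finset.prod_pos fun p hp => (hT p hp).pos
  have hD0' : (0 : ℤ) < D := by exact_mod_cast hD0
  unfold psA
  simp only [Finset.sum_filter]
  rw [show (∑ ρ ∈ range D, if (∀ p ∈ T, Q p (ρ : ℤ)) then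
      ∑ N ∈ Icc 1 N0, (if N ≡ rr u v D ρ [MOD u.natAbs * D] then
        ArithmeticFunction.vonMangoldt N * w N else 0) else 0) =
      ∑ N ∈ Icc 1 N0, ∑ ρ ∈ range D,
        (if (∀ p ∈ T, Q p (ρ : ℤ)) ∧ N ≡ rr u v D ρ [MOD u.natAbs * D] then
        ArithmeticFunction.vonMangoldt N * w N else 0) by
    rw [Finset.sum_comm]
    apply Finset.sum_congr rfl
    intro ρ _
    split_ifs with h
    · apply Finset.sum_congr rfl
      intro N _
      by_cases h2 : N ≡ rr u v D ρ [MOD u.natAbs * D]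
      · rw [if_pos h2, if_pos ⟨h, h2⟩]
      · rw [if_neg h2, if_neg (fun h' => h2 h'.2)]
    · symm
      apply Finset.sum_eq_zero
      intro N _
      rw [if_neg (fun h' => h h'.1)]]
  apply Finset.sum_congr rfl
  intro N _
  rw [Finset.prod_ite_zero, Finset.prod_const_one]
  by_cases hN : u ∣ (N : ℤ) - v
  · rw [if_pos hN]
    set x : ℤ := ((N : ℤ) - v) / u with hx
    set ρ0 : ℕ := (x % (D : ℤ)).toNat with hρ0
    have hρ0' : (ρ0 : ℤ) = x % (D : ℤ) := Int.toNat_of_nonneg (Int.emod_nonneg _ hD0'.ne')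
    have hρ0lt : ρ0 ∈ range D := by
      rw [Finset.mem_range]
      have := Int.emod_lt_of_pos x hD0'
      omega
    have hdvd0 : (D : ℤ) ∣ (ρ0 : ℤ) - x := by
      rw [hρ0']
      have := Int.dvd_self_sub_emod (x := x) (m := (D : ℤ))
      have h2 := dvd_neg.2 this
      rwa [neg_sub] at h2
    rw [Finset.sum_eq_single ρ0]
    · have e1 : N ≡ rr u v D ρ0 [MOD u.natAbs * D] := by
        rw [rr_modEq hu hD0, dvd_iff_class hu]
        exact ⟨hN, hdvd0⟩
      have e2 : (∀ p ∈ T, Q p x) ↔ (∀ p ∈ T, Q p (ρ0 : ℤ)) := by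
        have : ∀ p ∈ T, (Q p x ↔ Q p (ρ0 : ℤ)) := by
          intro p hp
          symm
          apply hQ
          have h1 : (p : ℤ) ∣ (D : ℤ) := by
            rw [hD]
            exact_mod_cast Finset.dvd_prod_of_mem (fun p => p) hp
          exact h1.trans hdvd0
        exact ⟨fun h p hp => (this p hp).1 (h p hp), fun h p hp => (this p hp).2 (h p hp)⟩
      by_cases h : ∀ p ∈ T, Q p x
      · rw [if_pos h, if_pos ⟨e2.1 h, e1⟩, mul_one]
      · rw [if_neg h, if_neg (fun h' => h (e2.2 h'.1)), mul_zero]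
    · intro ρ hρ hne
      rw [if_neg]
      rintro ⟨_, h2⟩
      rw [rr_modEq hu hD0, dvd_iff_class hu] at h2
      apply hne
      have h3 := dvd_sub h2.2 hdvd0
      have h4 : (ρ : ℤ) - x - ((ρ0 : ℤ) - x) = (ρ : ℤ) - ρ0 := by ring
      rw [h4] at h3
      have h5 : ρ0 ≡ ρ [MOD D] := by
        rw [← Int.natCast_modEq_iff]
        exact Int.modEq_iff_dvd.2 h3
      exact (Nat.ModEq.eq_of_lt_of_lt h5 (Finset.mem_range.1 hρ0lt) (Finset.mem_range.1 hρ)).symm
    · intro h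
      exact absurd hρ0lt h
  · rw [if_neg hN]
    symm
    apply Finset.sum_eq_zero
    intro ρ _
    rw [if_neg]
    rintro ⟨_, h2⟩
    rw [rr_modEq hu hD0, dvd_iff_class hu] at h2
    exact hN h2.1

/-- the estimate for one set of primes -/
lemma class_estimate (huv : IsCoprime u v) (Q : ℕ → ℤ → Prop) [∀ p, DecidablePred (Q p)]
    (hQ : ∀ (p : ℕ) (x y : ℤ), (p : ℤ) ∣ x - y → (Q p x ↔ Q p y))
    (hQu : ∀ (p : ℕ) (x : ℤ), Q p x → ¬ (p : ℤ) ∣ u * x + v) {K : ℕ}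
    (T : Finset ℕ) (hT : ∀ p ∈ T, p.Prime) (hK : ∀ p ∈ T, om Q p ≤ K) (w : ℕ → ℝ) (N0 : ℕ) (a : ℕ → ℕ)
    (ha : ∀ q b, 0 < q → b.Coprime (u.natAbs * q) →
      |psA w N0 (u.natAbs * q) b - psW w N0 / (Nat.totient (u.natAbs * q) : ℝ)| ≤
      |psA w N0 (u.natAbs * q) (a q) - psW w N0 / (Nat.totient (u.natAbs * q) : ℝ)|) :
    |∑ N ∈ (Icc 1 N0).filter (fun N : ℕ => u ∣ (N : ℤ) - v),
      (ArithmeticFunction.vonMangoldt N * w N) *
        ∏ p ∈ T, (if Q p (((N : ℤ) - v) / u) then (1 : ℝ) else 0) -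
      psW w N0 / (Nat.totient u.natAbs : ℝ) * ∏ p ∈ T, rhoW u.natAbs Q p| ≤
      (K : ℝ) ^ T.card * |psA w N0 (u.natAbs * ∏ p ∈ T, p) (a (∏ p ∈ T, p)) -
        psW w N0 / (Nat.totient (u.natAbs * ∏ p ∈ T, p) : ℝ)| := by
  classical
  have hD0 : 0 < ∏ p ∈ T, p := Finset.prod_pos fun p hp => (hT p hp).pos
  rw [sum_classes hu Q hQ T hT]
  have hcount : ((range (∏ p ∈ T, p)).filter (fun ρ : ℕ => ∀ p ∈ T, Q p (ρ : ℤ))).card =
      ∏ p ∈ T, om Q p := by
    apply count_primes (fun p x => Q p (x : ℤ)) _ T hT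
    intro p x
    apply hQ
    have := Nat.div_add_mod x p
    refine ⟨-((x / p : ℕ) : ℤ), ?_⟩
    have h3 : (p : ℤ) * ((x / p : ℕ) : ℤ) + ((x % p : ℕ) : ℤ) = x := by exact_mod_cast this
    linear_combination h3
  have hW : 0 < u.natAbs := Int.natAbs_pos.2 hu
  have hφW : (0 : ℝ) < Nat.totient u.natAbs := by exact_mod_cast Nat.totient_pos.2 hW
  have hmain : psW w N0 / (Nat.totient u.natAbs : ℝ) * ∏ p ∈ T, rhoW u.natAbs Q p =
      ∑ ρ ∈ (range (∏ p ∈ T, p)).filter (fun ρ : ℕ => ∀ p ∈ T, Q p (ρ : ℤ)),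
        psW w N0 / (Nat.totient (u.natAbs * ∏ p ∈ T, p) : ℝ) := by
    rw [Finset.sum_const, hcount, nsmul_eq_mul, totient_mul_prod u.natAbs T hT]
    unfold rhoW
    rw [Finset.prod_div_distrib]
    push_cast
    have hne : (∏ p ∈ T, ((if p ∣ u.natAbs then p else p - 1 : ℕ) : ℝ)) ≠ 0 := by
      rw [Finset.prod_ne_zero_iff]
      intro p hp
      have hpp := hT p hp
      have := hpp.two_le
      split_ifs
      · exact_mod_cast hpp.ne_zero
      · have : p - 1 ≠ 0 := by omega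
        exact_mod_cast this
    field_simp
  rw [hmain, ← Finset.sum_sub_distrib]
  refine (Finset.abs_sum_le_sum_abs _ _).trans ?_
  have h1 : ∀ ρ ∈ (range (∏ p ∈ T, p)).filter (fun ρ : ℕ => ∀ p ∈ T, Q p (ρ : ℤ)),
      |psA w N0 (u.natAbs * ∏ p ∈ T, p) (rr u v (∏ p ∈ T, p) ρ) -
        psW w N0 / (Nat.totient (u.natAbs * ∏ p ∈ T, p) : ℝ)| ≤
      |psA w N0 (u.natAbs * ∏ p ∈ T, p) (a (∏ p ∈ T, p)) -
        psW w N0 / (Nat.totient (u.natAbs * ∏ p ∈ T, p) : ℝ)| := by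
    intro ρ hρ
    apply ha _ _ hD0
    apply rr_coprime hu huv T hT
    intro p hp
    exact hQu p ρ ((Finset.mem_filter.1 hρ).2 p hp)
  refine (Finset.sum_le_sum h1).trans ?_
  rw [Finset.sum_const, hcount, nsmul_eq_mul]
  apply mul_le_mul_of_nonneg_right _ (abs_nonneg _)
  push_cast
  rw [← Finset.prod_const]
  apply Finset.prod_le_prod
  · intro p _; positivity
  · intro p hp; exact_mod_cast hK p hp

end classes

end Pool.Agent.CC
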