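import Pool.Agent.Lib.MP_d610d0_nt.CC.Win

set_option autoImplicit false
set_option linter.unusedSectionVars false

/-!
Many primes among the linear forms, in every window.
-/

open Finset Polynomial Filter

namespace Pool.Agent.CC

open Pool.Agent.MP89da58 Pool.Agent.BVall Pool.Agent.Lib.MP_0da313_nt Pool.Agent.MT
open Pool.Agent.CH (wJ thP)
open Pool.Agent.CH.F (mu)
open Pool.Agent.CH.D (FL)
open Pool.Agent.CA (LCw SCw)

lemma len_eq (j : ℕ) : len j = 3 * j ^ 2 + 3 * j + 1 := by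
  unfold len
  have e : (j + 1) ^ 3 = j ^ 3 + (3 * j ^ 2 + 3 * j + 1) := by ring
  omega

/-- the good points of the window -/
def Good {m : ℕ} (B K : ℕ) (hh : Fin m → ℕ) (I : Finset (Fin m)) (j x : ℕ) : Prop :=
  1 / 10 ^ 21 * Real.log K ≤ ((I.filter (fun k => (x + j ^ 3 + hh k).Prime)).card : ℝ) ∧
  1 ≤ (I.filter (fun k => (x + j ^ 3 + hh k).Prime)).card ∧
  ∀ k, (∀ p : ℕ, p.Prime → p ∣ x + j ^ 3 + hh k → len j < p ^ B) ∧
    ArithmeticFunction.cardFactors (x + j ^ 3 + hh k) ≤ B * 2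

open Classical in
theorem core_w (m K : ℕ) (hm : 1 ≤ m) (hK : 2 ≤ K) (hLC : LCw FL) (hSC : SCw FL)
    (hm1 : Pool.Agent.CA.SV.R_m1) :
    ∃ (B : ℕ) (c : ℝ), 1 ≤ B ∧ 0 < c ∧ ∀ hh : Fin m → ℕ, Adm hh → ∀ I : Finset (Fin m),
      I.card = K → (∀ k ∈ I, ∀ l ∈ I, k ≠ l → hh k ≠ hh l) →
      ∀ᶠ J : ℕ in atTop, c * ((len (J + 1) : ℝ) * singV (fam ((J + 1) ^ 3) hh) (len (J + 1))) ≤
        (((Ioo 0 (len (J + 1))).filter (fun x => Good B K hh I (J + 1) x)).card : ℝ) := by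
  obtain ⟨D, hDdef⟩ : ∃ D, D = m := ⟨_, rfl⟩
  have hD : 1 ≤ D := by omega
  obtain ⟨m', hm'def⟩ : ∃ m', m' = Nat.log 2 K := ⟨_, rfl⟩
  have hm' : 1 ≤ m' := by
    rw [hm'def]
    exact (Nat.le_log_iff_pow_le (by norm_num) (by omega)).2 (by simpa using hK)
  have hm'K : 2 ^ m' ≤ K := by
    rw [hm'def]
    exact Nat.pow_log_le_self 2 (by omega)
  obtain ⟨M, hM⟩ : ∃ M, M = 64 * 1000 * K * (m' + 1) := ⟨_, rfl⟩
  have hM1 : 1 ≤ M := by
    rw [hM]
    exact Nat.mul_pos (by omega) (by omega)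
  obtain ⟨B0, hB0⟩ : ∃ B0, B0 = 128000 * (2 * D) * ((D + 1) * M) := ⟨_, rfl⟩
  have hB01 : 1 ≤ B0 := by
    rw [hB0]
    exact Nat.mul_pos (by omega) (Nat.mul_pos (by omega) hM1)
  have hB0r : (0 : ℝ) < B0 := by exact_mod_cast hB01
  have hKr : (0 : ℝ) < K := by
    have : 0 < K := by omega
    exact_mod_cast this
  obtain ⟨wm, hwm⟩ : ∃ wm : ℝ, wm = (2 ^ (K * (B0 * 2)) * (B0 : ℝ) ^ K) ^ 2 := ⟨_, rfl⟩
  have hwm0 : 0 < wm := by rw [hwm]; positivity
  have hdel := del_pos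
  refine ⟨B0, del / (64 * K * wm), hB01, by positivity, ?_⟩
  intro hh hAdm I hIK hinj
  have hcard : Fintype.card {k // k ∈ I} = K := by rw [Fintype.card_coe, hIK]
  obtain ⟨Hm, hHm⟩ : ∃ Hm : ℕ, Hm = ∑ k, hh k := ⟨_, rfl⟩
  have hHk : ∀ k, hh k ≤ Hm := fun k => by
    rw [hHm]
    exact Finset.single_le_sum (fun i _ => Nat.zero_le _) (Finset.mem_univ k)
  set c1 : ℝ := ∏ p ∈ small (2 * D), (1 / (p : ℝ)) with hc1
  have hc1pos : 0 < c1 := by
    apply Finset.prod_pos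
    intro p hp
    have hpp : p.Prime := (Finset.mem_filter.mp hp).2
    have : (0 : ℝ) < p := by exact_mod_cast hpp.pos
    (clear * - this; positivity)
  -- the length tends to infinity
  have hlen : Tendsto (fun J : ℕ => (len (J + 1) : ℝ)) atTop atTop := by
    apply tendsto_atTop_mono _ tendsto_natCast_atTop_atTop
    intro J
    have : J ≤ len (J + 1) := by rw [len_eq]; nlinarith
    exact_mod_cast this
  have ev1 := hlen.eventually (choose_levS (2 * D) ((D + 1) * M) (by omega)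
    (Nat.mul_pos (by omega) hM1) (Hm + 16 * (K + 2) ^ 2))
  have ev3 := bv2 hLC hSC (3 * K * D) (8 * D + 1)
  have ev6 : ∀ᶠ J : ℕ in atTop, 2000 * M * Real.log 2 ≤ Real.log (len (J + 1)) :=
    hlen.eventually (Real.tendsto_log_atTop.eventually_ge_atTop _)
  have ev7 := hlen.eventually (ev_err (s := 3 / 1000) hc1pos
    (show (0 : ℝ) < (B0 : ℝ) ^ (4 * K) by positivity) (8 * D) (by norm_num))
  have ev8a := hlen.eventually (ev_err (s := 8 / 10) (show 0 < del / (4 * K) * c1 by positivity)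
    (show (0 : ℝ) < 24 * (B0 : ℝ) ^ (4 * K) by positivity) (8 * D) (by norm_num))
  have ev8b := hlen.eventually (ev_err2 (θ := 1) (show 0 < del / (4 * K) * c1 by positivity)
    (show (0 : ℝ) < (B0 : ℝ) ^ (2 * K) * 3 ^ (8 * D + 1) by positivity) (by norm_num) (8 * D))
  filter_upwards [ev1, ev3, hm1, ev6, ev7, ev8a, ev8b, eventually_ge_atTop (1000 + 4 * Hm)]
    with J h1 h3 h4 h6 h7 h8a h8b hJ
  obtain ⟨n', hl1, hl2, hl3, hl4⟩ := h1
  obtain ⟨j, hj⟩ : ∃ j, j = J + 1 := ⟨_, rfl⟩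
  rw [← hj] at hl1 hl2 hl3 h6 h7 h8a h8b ⊢
  have hjJ : j ∈ Ioc J (2 * J) := by rw [Finset.mem_Ioc]; omega
  obtain ⟨n, hn⟩ : ∃ n, n = len j := ⟨_, rfl⟩
  rw [← hn] at hl1 hl2 hl3 h6 h7 h8a h8b ⊢
  have hnj : n = 3 * j ^ 2 + 3 * j + 1 := by rw [hn, len_eq]
  have hj3 : (j + 1) ^ 3 = j ^ 3 + n := by rw [hnj]; ring
  have hj1000 : 1000 ≤ j := by omega
  have hn5' : 100000 ≤ n := by rw [hnj]; nlinarith
  have hn5 : (100000 : ℝ) ≤ n := by exact_mod_cast hn5'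
  have hn0 : (0 : ℝ) < n := by linarith only [hn5]
  have hJ0 : (0 : ℝ) < J := by exact_mod_cast (by omega : 0 < J)
  have hJ1 : (1 : ℝ) ≤ J := by exact_mod_cast (by omega : 1 ≤ J)
  have hnJ3 : (n : ℝ) ≤ (J : ℝ) ^ 3 := by
    have h10 : n ≤ J ^ 3 := by
      rw [hnj, hj]
      have h11 : 3 * (J + 1) ^ 2 + 3 * (J + 1) + 1 ≤ 13 * J ^ 2 := by nlinarith
      have h12 : 13 * J ^ 2 ≤ J * J ^ 2 := Nat.mul_le_mul_right _ (by omega)
      have h13 : J * J ^ 2 = J ^ 3 := by ring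
      omega
    exact_mod_cast h10
  have hJ2n : (J : ℝ) ^ 2 ≤ n := by
    have h10 : J ^ 2 ≤ n := by
      rw [hnj, hj]
      nlinarith
    exact_mod_cast h10
  obtain ⟨hw1, hw2, _, _⟩ := Pool.Agent.CH.F.p_win J (by omega) j hjJ
  have hGdeg : (∏ k, lineRestrict (fam (j ^ 3) hh k) n).natDegree ≤ D := by
    rw [hDdef]
    exact deg_fam (j ^ 3) hh n
  have hloc := loc_fam (j ^ 3) hh hAdm n
  have hloc' : ∀ p : ℕ, p.Prime →
      ¬ ∀ x : ℤ, (p : ℤ) ∣ (∏ k, lineRestrict (fam (j ^ 3) hh k) n).eval x :=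
    fun p hp h => hloc p hp (fun x => by rw [← eval_prod]; exact h x)
  have hdens := dens_poly (∏ k, lineRestrict (fam (j ^ 3) hh k) n) D (2 * D) hGdeg (by omega) hloc'
  have hVge := W_ge hdens n' hl3
  rw [← hc1, show 4 * (2 * D) = 8 * D by ring] at hVge
  obtain ⟨z, hz⟩ : ∃ z : ℕ, z = 2 ^ (2 ^ (2 * D + n')) := ⟨_, rfl⟩
  have hzB : n ≤ (2 ^ (2 ^ (2 * D + n'))) ^ B0 := by
    rw [hB0]
    exact_mod_cast hl2
  have hz2 : 2 ≤ z := by
    have h10 : 1 ≤ (K + 2) ^ 2 := Nat.one_le_pow _ _ (by omega)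
    omega
  have hlogn1 : 1 ≤ Real.log n := by
    rw [Real.le_log_iff_exp_le hn0]
    linarith only [hn5, Real.exp_one_lt_d9]
  -- sizes
  have hxle : ∀ x : ℕ, x < n → ∀ k, x + j ^ 3 + hh k ≤ n ^ 2 := by
    intro x hx k
    have h10 := hHk k
    have h11 : x + j ^ 3 + hh k ≤ (j + 1) ^ 3 + j := by omega
    have h12 : (j + 1) ^ 3 + j ≤ n ^ 2 := by
      rw [hnj]
      nlinarith
    omega
  have hval : ∀ (k : Fin m) (x : ℕ), val (fam (j ^ 3) hh k) x ((n : ℤ) - x) =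
      ((x + j ^ 3 + hh k : ℕ) : ℤ) := by
    intro k x
    rw [val_fam]
    push_cast
    ring
  have hvalp : ∀ (k : Fin m) (x : ℕ), (val (fam (j ^ 3) hh k) x ((n : ℤ) - x)).natAbs =
      x + j ^ 3 + hh k := by
    intro k x
    rw [hval, Int.natAbs_natCast]
  have hOm : ∀ x : ℕ, 0 < x → x < n → Rgh (fam (j ^ 3) hh) n (2 ^ (2 ^ (2 * D + n'))) x → ∀ k,
      val (fam (j ^ 3) hh k) x ((n : ℤ) - x) ≠ 0 ∧
      ArithmeticFunction.cardFactors (val (fam (j ^ 3) hh k) x ((n : ℤ) - x)).natAbs ≤ B0 * 2 := by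
    intro x hx0 hxn hr k
    have hne : x + j ^ 3 + hh k ≠ 0 := by omega
    refine ⟨by rw [hval]; exact_mod_cast hne, ?_⟩
    rw [hvalp]
    have h10 := pow_cardFactors_le (N := x + j ^ 3 + hh k) (z := z) hne (fun p hp hpa => by
      rw [hz]
      apply (hr k p hp _).le
      rw [hval]
      exact_mod_cast hpa)
    have h11 : x + j ^ 3 + hh k ≤ z ^ (B0 * 2) := by
      refine (hxle x hxn k).trans ?_
      calc n ^ 2 ≤ (z ^ B0) ^ 2 := Nat.pow_le_pow_left (by rw [hz]; exact hzB) 2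
        _ = z ^ (B0 * 2) := by rw [← pow_mul]
    exact (Nat.pow_le_pow_iff_right (by omega : 1 < z)).mp (h10.trans h11)
  -- the primes of the sieve weights
  obtain ⟨y, hy⟩ : ∃ y, y = ⌊(n : ℝ) ^ (1 / (1000 * M) : ℝ)⌋₊ := ⟨_, rfl⟩
  obtain ⟨P, hPdef⟩ : ∃ P : Finset ℕ, P = (Icc 1 (y ^ M)).filter (fun p => p.Prime ∧
    2 ^ (2 ^ (2 * D + n')) < p) := ⟨_, rfl⟩
  have hP : ∀ p ∈ P, p.Prime ∧ 2 ^ (2 ^ (2 * D + n')) < p ∧ p ≤ y ^ M := by
    intro p hp
    rw [hPdef, Finset.mem_filter, Finset.mem_Icc] at hp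
    exact ⟨hp.2.1, hp.2.2, hp.1.2⟩
  obtain ⟨v, hv⟩ : ∃ v : {k // k ∈ I} → ℤ, v = fun l : {k // k ∈ I} => ((j ^ 3 : ℕ) : ℤ) + hh (l : Fin m) :=
    ⟨_, rfl⟩
  have hvl : ∀ l, v l = ((j ^ 3 : ℕ) : ℤ) + hh (l : Fin m) := fun l => by rw [hv]
  have hdet : ∀ p ∈ P, ∀ l l', l ≠ l' → ¬ (p : ℤ) ∣ 1 * v l' - 1 * v l := by
    intro p hp l l' hll h
    rw [hvl, hvl] at h
    have e : 1 * (((j ^ 3 : ℕ) : ℤ) + hh (l' : Fin m)) - 1 * (((j ^ 3 : ℕ) : ℤ) + hh (l : Fin m)) =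
        (hh (l' : Fin m) : ℤ) - hh (l : Fin m) := by ring
    rw [e] at h
    have hne : hh (l' : Fin m) ≠ hh (l : Fin m) :=
      hinj l' l'.2 l l.2 (fun h' => hll (Subtype.ext h'.symm))
    have hne0 : (hh (l' : Fin m) : ℤ) - hh (l : Fin m) ≠ 0 := by
      intro h0
      apply hne
      have : (hh (l' : Fin m) : ℤ) = hh (l : Fin m) := by linarith
      exact_mod_cast this
    have h10 := Int.natAbs_dvd_natAbs.2 h
    rw [Int.natAbs_natCast] at h10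
    have h11 := Nat.le_of_dvd (Int.natAbs_pos.2 hne0) h10
    have h12 := (hP p hp).2.1
    have h13 := hHk (l : Fin m)
    have h14 := hHk (l' : Fin m)
    omega
  have hN0 : 1 ≤ 27 * J ^ 3 := by
    have : 1 ≤ J ^ 3 := Nat.one_le_pow _ _ (by omega)
    omega
  have hN0n : 27 * J ^ 3 ≤ n ^ 2 := by
    have h10 : J ^ 2 ≤ n := by exact_mod_cast hJ2n
    calc 27 * J ^ 3 ≤ J * J ^ 3 := Nat.mul_le_mul_right _ (by omega)
      _ = (J ^ 2) ^ 2 := by ring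
      _ ≤ n ^ 2 := Nat.pow_le_pow_left h10 2
  have hsup : ∀ l : {k // k ∈ I}, ∀ N : ℕ, 1 ≤ N → N ≤ 27 * J ^ 3 → wJ J j N ≠ 0 →
      v l < N ∧ (N : ℤ) < v l + n ∧ n < N := by
    intro l N hN1 hN2 hwN
    have hC : 4 * Hm ≤ J ^ 2 := by nlinarith
    obtain ⟨h10, h11⟩ := margin (by omega) hjJ hC hN1 hwN
    have h12 := hHk (l : Fin m)
    rw [hvl]
    refine ⟨?_, ?_, ?_⟩
    · have : j ^ 3 + hh (l : Fin m) < N := by omega
      exact_mod_cast this
    · have : N < j ^ 3 + hh (l : Fin m) + n := by omega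
      exact_mod_cast this
    · have h13 : n < j ^ 3 := by
        rw [hnj]
        have : j ^ 3 = j * j ^ 2 := by ring
        rw [this]
        nlinarith
      omega
  have hmass := mass (J := J) (j := j) (by omega) (by omega) (h4 j hjJ) (fun n => (hw1 n).1)
  have hpsi : (n : ℝ) / 1536 ≤ psW (wJ J j) (27 * J ^ 3) := by
    refine le_trans ?_ hmass
    have h10 : n ≤ 7 * j ^ 2 := by rw [hnj]; nlinarith
    have h11 : (n : ℝ) ≤ 7 * (j : ℝ) ^ 2 := by exact_mod_cast h10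
    have h12 := sq_nonneg (j : ℝ)
    linarith
  -- the error terms
  have hlogJ : Real.log n ≤ 3 * Real.log J := by
    have h10 := Real.log_le_log hn0 hnJ3
    rw [Real.log_pow] at h10
    push_cast at h10
    exact h10
  have hlogJ0 : 0 < Real.log J := by linarith
  have hA0le : (J : ℝ) ^ 2 / Real.log J ^ (8 * D + 1) ≤
      3 ^ (8 * D + 1) * (n / Real.log n ^ (8 * D + 1)) := by
    have h10 : Real.log n ^ (8 * D + 1) ≤ 3 ^ (8 * D + 1) * Real.log J ^ (8 * D + 1) := by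
      rw [← mul_pow]
      exact pow_le_pow_left₀ (by linarith) hlogJ _
    have h11 : 0 < Real.log n ^ (8 * D + 1) := by positivity
    rw [mul_div_assoc', div_le_div_iff₀ (by positivity) h11]
    calc (J : ℝ) ^ 2 * Real.log n ^ (8 * D + 1) ≤
          n * (3 ^ (8 * D + 1) * Real.log J ^ (8 * D + 1)) :=
          mul_le_mul hJ2n h10 h11.le hn0.le
      _ = _ := by ring
  have hE2 : 4 * Real.sqrt ((27 * J ^ 3 : ℕ) : ℝ) * ((n : ℝ) ^ (2 / 1000 : ℝ) * (B0 : ℝ) ^ (4 * K)) +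
        (B0 : ℝ) ^ (2 * K) * ((J : ℝ) ^ 2 / Real.log J ^ (8 * D + 1)) ≤
        del / (2 * K) * (n * (c1 * (1 / Real.log n ^ (8 * D)))) := by
    have h10 : Real.sqrt ((27 * J ^ 3 : ℕ) : ℝ) ≤ 6 * (n : ℝ) ^ (3 / 4 : ℝ) := by
      rw [Real.sqrt_le_left (by positivity)]
      have h11 : (J : ℝ) ^ 3 ≤ (n : ℝ) ^ (3 / 2 : ℝ) := by
        calc (J : ℝ) ^ 3 = ((J : ℝ) ^ 2) ^ (3 / 2 : ℝ) := by
              rw [← Real.rpow_natCast, ← Real.rpow_natCast, ← Real.rpow_mul hJ0.le]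
              norm_num
          _ ≤ (n : ℝ) ^ (3 / 2 : ℝ) := Real.rpow_le_rpow (by positivity) hJ2n (by norm_num)
      have h12 : (6 * (n : ℝ) ^ (3 / 4 : ℝ)) ^ 2 = 36 * (n : ℝ) ^ (3 / 2 : ℝ) := by
        rw [mul_pow, ← Real.rpow_natCast, ← Real.rpow_natCast, ← Real.rpow_mul hn0.le]
        norm_num
      rw [h12]
      push_cast
      have : 0 ≤ (n : ℝ) ^ (3 / 2 : ℝ) := by positivity
      linarith
    have h11 : 4 * Real.sqrt ((27 * J ^ 3 : ℕ) : ℝ) *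
        ((n : ℝ) ^ (2 / 1000 : ℝ) * (B0 : ℝ) ^ (4 * K)) ≤
        24 * (B0 : ℝ) ^ (4 * K) * (n : ℝ) ^ (8 / 10 : ℝ) := by
      have h12 : (n : ℝ) ^ (3 / 4 : ℝ) * (n : ℝ) ^ (2 / 1000 : ℝ) ≤ (n : ℝ) ^ (8 / 10 : ℝ) := by
        rw [← Real.rpow_add hn0]
        exact Real.rpow_le_rpow_of_exponent_le (by linarith) (by norm_num)
      calc 4 * Real.sqrt ((27 * J ^ 3 : ℕ) : ℝ) *
            ((n : ℝ) ^ (2 / 1000 : ℝ) * (B0 : ℝ) ^ (4 * K)) ≤
            4 * (6 * (n : ℝ) ^ (3 / 4 : ℝ)) * ((n : ℝ) ^ (2 / 1000 : ℝ) * (B0 : ℝ) ^ (4 * K)) := by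
            apply mul_le_mul_of_nonneg_right _ (by positivity)
            linarith
        _ = 24 * (B0 : ℝ) ^ (4 * K) * ((n : ℝ) ^ (3 / 4 : ℝ) * (n : ℝ) ^ (2 / 1000 : ℝ)) := by ring
        _ ≤ _ := mul_le_mul_of_nonneg_left h12 (by positivity)
    have h12 : (B0 : ℝ) ^ (2 * K) * ((J : ℝ) ^ 2 / Real.log J ^ (8 * D + 1)) ≤
        (B0 : ℝ) ^ (2 * K) * 3 ^ (8 * D + 1) * (n / Real.log n ^ (8 * D + 1)) := by
      rw [mul_assoc]
      exact mul_le_mul_of_nonneg_left hA0le (by positivity)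
    rw [one_mul] at h8b
    have e : del / (2 * K) * (n * (c1 * (1 / Real.log n ^ (8 * D)))) =
        n * (del / (4 * K) * c1 * (1 / Real.log n ^ (8 * D))) +
        n * (del / (4 * K) * c1 * (1 / Real.log n ^ (8 * D))) := by
      field_simp
      ring
    rw [e]
    linarith only [h8a, h8b, h11, h12]
  have hmain := main_w (D := D) (M := M) (m' := m') (B0 := B0) hD hK hm' hm'K hM
    (fam (j ^ 3) hh) hcard (fun l : {k // k ∈ I} => (l : Fin m)) v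
    (fun l y => by rw [hvl, eval_fam]; ring) hGdeg hloc hn5 hl1 hzB (by omega) hOm y hy hP hdet
    (fun p hp h10 h11 => by
      rw [hPdef, Finset.mem_filter, Finset.mem_Icc]
      exact ⟨⟨hp.one_le, h11⟩, hp, h10⟩)
    (wJ J j) (27 * J ^ 3) hN0 hN0n (fun n => (hw1 n).1) (fun n => (hw1 n).2) hsup hpsi
    (A0 := (J : ℝ) ^ 2 / Real.log J ^ (8 * D + 1))
    (fun a ha => by
      refine le_trans ?_ (h3 j hjJ a ha)
      apply Finset.sum_le_sum_of_subset_of_nonneg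
      · intro q hq
        rw [Finset.mem_filter, Finset.mem_Icc] at hq ⊢
        refine ⟨⟨hq.1.1, hq.1.2.trans ?_⟩, hq.2⟩
        apply Nat.floor_le_floor
        calc (n : ℝ) ^ (3 / 1000 : ℝ) ≤ ((J : ℝ) ^ 3) ^ (3 / 1000 : ℝ) :=
              Real.rpow_le_rpow hn0.le hnJ3 (by norm_num)
          _ = (J : ℝ) ^ (9 / 1000 : ℝ) := by
              rw [← Real.rpow_natCast, ← Real.rpow_mul hJ0.le]
              norm_num
          _ ≤ (J : ℝ) ^ (2 / 5 : ℝ) := Real.rpow_le_rpow_of_exponent_le hJ1 (by norm_num)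
      · intro q _ _
        exact mul_nonneg (by positivity) (abs_nonneg _))
    h6 (Vl := c1 * (1 / Real.log n ^ (8 * D))) (by (clear * - hc1pos hlogn1; positivity)) hVge h7 hE2
  rw [← hwm] at hmain
  set V : ℝ := W (fun p => (om (fun p y => (p : ℤ) ∣
    (∏ k, lineRestrict (fam (j ^ 3) hh k) n).eval y) p : ℝ) / p) (PK (2 * D) n') with hV
  set G := (Ioo 0 n).filter (fun x => Rgh (fam (j ^ 3) hh) n (2 ^ (2 ^ (2 * D + n'))) x ∧
    m' * del / 200 ≤ ((univ.filter (fun l : {k // k ∈ I} =>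
      (val (fam (j ^ 3) hh (l : Fin m)) x ((n : ℤ) - x)).natAbs.Prime)).card : ℝ)) with hG
  have hzn : z ≤ n := by
    have hf5 := (level_facts (θ := 1 / 4) le_rfl hn5 hl3).2.2.2.2
    have h11 : ((2 ^ (2 ^ (2 * D + n')) : ℕ) : ℝ) ≤ n := by
      refine hf5.trans ?_
      calc (n : ℝ) ^ (3 / 4 : ℝ) ≤ (n : ℝ) ^ (1 : ℝ) :=
            Real.rpow_le_rpow_of_exponent_le (by linarith only [hn5]) (by norm_num)
        _ = n := Real.rpow_one _
    rw [hz]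
    exact_mod_cast h11
  have hsing : singV (fam (j ^ 3) hh) n ≤ V :=
    singV_le (fam (j ^ 3) hh) n (2 * D) n' hloc (by rw [← hz]; exact hzn)
  have hGsub : G ⊆ (Ioo 0 n).filter (fun x => Good B0 K hh I j x) := by
    intro x hx
    rw [hG, Finset.mem_filter] at hx
    obtain ⟨hxI, hxr, hxc⟩ := hx
    have hxI' := Finset.mem_Ioo.1 hxI
    rw [Finset.mem_filter]
    simp only [hvalp] at hxc
    rw [card_filter_sub I (fun k => (x + j ^ 3 + hh k).Prime)] at hxc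
    refine ⟨hxI, ?_, ?_, fun k => ⟨?_, ?_⟩⟩
    · refine ((log_le_del hK hm'def).trans hxc).trans (le_of_eq ?_)
      congr 2
    · have h11 : (0 : ℝ) < ((I.filter (fun k => (x + j ^ 3 + hh k).Prime)).card : ℝ) := by
        refine lt_of_lt_of_le ?_ (hxc.trans (le_of_eq (by congr 2)))
        have : (0 : ℝ) < m' := by exact_mod_cast hm'
        positivity
      have h12 : 0 < (I.filter (fun k => (x + j ^ 3 + hh k).Prime)).card := by exact_mod_cast h11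
      omega
    · intro p hp hpd
      rw [← hn]
      have h11 := hxr k p hp (by rw [hval]; exact_mod_cast hpd)
      calc n ≤ (2 ^ (2 ^ (2 * D + n'))) ^ B0 := hzB
        _ < p ^ B0 := Nat.pow_lt_pow_left h11 (by omega)
    · have h11 := (hOm x hxI'.1 hxI'.2 hxr k).2
      rwa [hvalp] at h11
  have hGc : (G.card : ℝ) ≤ (((Ioo 0 n).filter (fun x => Good B0 K hh I j x)).card : ℝ) := by
    exact_mod_cast Finset.card_le_card hGsub
  have h11 : del / (64 * K * wm) * (n * V) ≤ G.card := by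
    have e1 : del / (64 * K * wm) * (n * V) = n * V * (del / 64) / (K * wm) := by
      field_simp
    rw [e1, div_le_iff₀ (by positivity)]
    linarith only [hmain]
  have h13 : del / (64 * K * wm) * (n * singV (fam (j ^ 3) hh) n) ≤
      del / (64 * K * wm) * (n * V) :=
    mul_le_mul_of_nonneg_left (mul_le_mul_of_nonneg_left hsing hn0.le) (by positivity)
  linarith only [hGc, h11, h13]

end Pool.Agent.CC
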