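import Pool.Agent.Lib.MP_d610d0_nt.CA.Defs
import Pool.Agent.Lib.MP_0da313_nt.MT.Core

set_option autoImplicit false

/-!
Project CC (clusters of primes `p` with `p + 2` almost prime between consecutive cubes): definitions.
-/

namespace Pool.Agent.CC

open Finset Polynomial
open Pool.Agent.Lib.MP_0da313_nt

/-- The weighted number of primes (prime powers) `N ≤ N0`. -/
noncomputable def psW (w : ℕ → ℝ) (N0 : ℕ) : ℝ :=
  ∑ N ∈ Icc 1 N0, ArithmeticFunction.vonMangoldt N * w N

/-- The weighted number of primes (prime powers) `N ≤ N0` in the residue class `b` mod `q`. -/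
noncomputable def psA (w : ℕ → ℝ) (N0 q b : ℕ) : ℝ :=
  ∑ N ∈ (Icc 1 N0).filter (fun N => N ≡ b [MOD q]), ArithmeticFunction.vonMangoldt N * w N

/-- The error term of the residue class `b` mod `q`. -/
noncomputable def Er (w : ℕ → ℝ) (N0 q b : ℕ) : ℝ :=
  |psA w N0 q b - psW w N0 / (Nat.totient q : ℝ)|

/-- The linear forms `x + a + h k` as polynomials in two variables. -/
noncomputable def fam {m : ℕ} (a : ℕ) (h : Fin m → ℕ) : Fin m → MvPolynomial (Fin 2) ℤ :=
  fun k => MvPolynomial.X 0 + MvPolynomial.C ((a : ℤ) + h k)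

/-- The length of the window `(j^3, (j+1)^3)`. -/
def len (j : ℕ) : ℕ := (j + 1) ^ 3 - j ^ 3

/-- The shifts `h k` are admissible. -/
def Adm {m : ℕ} (h : Fin m → ℕ) : Prop := ∀ p : ℕ, p.Prime → ∃ r : ℕ, ∀ k, ¬ p ∣ r + h k

end Pool.Agent.CC
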