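import Pool.Agent.Lib.MP_d610d0_nt.CC.Core

set_option autoImplicit false
set_option linter.unusedSectionVars false

/-!
Clusters of primes `p` with `p + 2` almost prime between consecutive cubes.
-/

open Finset Polynomial Filter

namespace Pool.Agent.CC

open Pool.Agent.MP89da58 Pool.Agent.BVall Pool.Agent.Lib.MP_0da313_nt Pool.Agent.MT
open Pool.Agent.CH (wJ thP)
open Pool.Agent.CH.F (mu)
open Pool.Agent.CH.D (FL)
open Pool.Agent.CA (LCw SCw)

/-- The translates of `I ∪ (I + 2)` inside `(n^3, (n+1)^3)` without small prime factors and with many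
primes among the `x + h`, `h ∈ I`. -/
def clu (I : Finset ℕ) (B n : ℕ) : Set ℕ :=
  {x | (∀ h ∈ I, n ^ 3 < x + h ∧ x + h + 2 < (n + 1) ^ 3 ∧
      ArithmeticFunction.cardFactors ((x + h) * (x + h + 2)) ≤ B ∧
      ∀ p : ℕ, p.Prime → p ∣ (x + h) * (x + h + 2) → n < p ^ B) ∧
    1 ≤ (I.filter (fun h => (x + h).Prime)).card ∧
    1 / 10 ^ 21 * Real.log I.card ≤ ((I.filter (fun h => (x + h).Prime)).card : ℝ)}

lemma finite_clu {I : Finset ℕ} (hI : I.Nonempty) (B n : ℕ) : (clu I B n).Finite := by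
  obtain ⟨h, hh⟩ := hI
  apply Set.Finite.subset (Set.finite_Iio ((n + 1) ^ 3))
  intro x hx
  have h1 := (hx.1 h hh).2.1
  exact Set.mem_Iio.mpr (by omega)

/-- the enumeration of `I` and `I + 2` -/
noncomputable def en (I : Finset ℕ) {K : ℕ} (hI : I.card = K) : Fin (K + K) → ℕ :=
  Fin.addCases (fun i => I.orderEmbOfFin hI i) (fun i => I.orderEmbOfFin hI i + 2)

lemma en_left (I : Finset ℕ) {K : ℕ} (hI : I.card = K) (i : Fin K) :
    en I hI (Fin.castAdd K i) = I.orderEmbOfFin hI i := by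
  unfold en
  rw [Fin.addCases_left]

lemma en_right (I : Finset ℕ) {K : ℕ} (hI : I.card = K) (i : Fin K) :
    en I hI (Fin.natAdd K i) = I.orderEmbOfFin hI i + 2 := by
  unfold en
  rw [Fin.addCases_right]

lemma exists_en {I : Finset ℕ} {K : ℕ} (hI : I.card = K) {h : ℕ} (hh : h ∈ I) :
    ∃ i : Fin K, I.orderEmbOfFin hI i = h := by
  have h1 : h ∈ Set.range (I.orderEmbOfFin hI) := by
    rw [Finset.range_orderEmbOfFin]
    exact hh
  exact h1

lemma image_en (I : Finset ℕ) {K : ℕ} (hI : I.card = K) :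
    univ.image (en I hI) = I ∪ I.image (fun h => h + 2) := by
  ext h
  rw [Finset.mem_image, Finset.mem_union, Finset.mem_image]
  constructor
  · rintro ⟨k, _, hk⟩
    induction k using Fin.addCases with
    | left i =>
      rw [en_left] at hk
      left
      rw [← hk]
      exact Finset.orderEmbOfFin_mem I hI i
    | right i =>
      rw [en_right] at hk
      right
      exact ⟨_, Finset.orderEmbOfFin_mem I hI i, hk⟩
  · rintro (h1 | ⟨h', h1, h2⟩)
    · obtain ⟨i, hi⟩ := exists_en hI h1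
      exact ⟨Fin.castAdd K i, Finset.mem_univ _, by rw [en_left, hi]⟩
    · obtain ⟨i, hi⟩ := exists_en hI h1
      exact ⟨Fin.natAdd K i, Finset.mem_univ _, by rw [en_right, hi, h2]⟩

/-- the indices of `I` -/
def lef (K : ℕ) : Finset (Fin (K + K)) := univ.map (Fin.castAddEmb K)

lemma card_lef (K : ℕ) : (lef K).card = K := by
  unfold lef
  rw [Finset.card_map, Finset.card_univ, Fintype.card_fin]

lemma mem_lef {K : ℕ} {k : Fin (K + K)} : k ∈ lef K ↔ ∃ i : Fin K, Fin.castAdd K i = k := by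
  unfold lef
  rw [Finset.mem_map]
  constructor
  · rintro ⟨i, _, h⟩
    exact ⟨i, h⟩
  · rintro ⟨i, h⟩
    exact ⟨i, Finset.mem_univ _, h⟩

lemma en_inj (I : Finset ℕ) {K : ℕ} (hI : I.card = K) :
    ∀ k ∈ lef K, ∀ l ∈ lef K, k ≠ l → en I hI k ≠ en I hI l := by
  intro k hk l hl hkl h
  obtain ⟨i, rfl⟩ := mem_lef.1 hk
  obtain ⟨i', rfl⟩ := mem_lef.1 hl
  rw [en_left, en_left] at h
  apply hkl
  rw [(I.orderEmbOfFin hI).injective h]

lemma card_lef_filter (I : Finset ℕ) {K : ℕ} (hI : I.card = K) (P : ℕ → Prop) [DecidablePred P] :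
    ((lef K).filter (fun k => P (en I hI k))).card = (I.filter P).card := by
  have h1 : I.filter P = ((lef K).filter (fun k => P (en I hI k))).image (en I hI) := by
    ext h
    rw [Finset.mem_filter, Finset.mem_image]
    constructor
    · rintro ⟨h1, h2⟩
      obtain ⟨i, hi⟩ := exists_en hI h1
      refine ⟨Fin.castAdd K i, ?_, by rw [en_left, hi]⟩
      rw [Finset.mem_filter, en_left, hi]
      exact ⟨mem_lef.2 ⟨i, rfl⟩, h2⟩
    · rintro ⟨k, hk, rfl⟩
      rw [Finset.mem_filter] at hk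
      obtain ⟨i, rfl⟩ := mem_lef.1 hk.1
      refine ⟨?_, hk.2⟩
      rw [en_left]
      exact Finset.orderEmbOfFin_mem I hI i
  rw [h1, Finset.card_image_of_injOn]
  intro k hk l hl h
  by_contra hkl
  exact en_inj I hI k (Finset.mem_filter.1 hk).1 l (Finset.mem_filter.1 hl).1 hkl h

lemma adm_en (I : Finset ℕ) {K : ℕ} (hI : I.card = K)
    (hA : ∀ p : ℕ, p.Prime → ∃ r : ℕ, ∀ h ∈ I, ¬ p ∣ (r + h) * (r + h + 2)) :
    Adm (en I hI) := by
  intro p hp
  obtain ⟨r, hr⟩ := hA p hp
  refine ⟨r, fun k h => ?_⟩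
  induction k using Fin.addCases with
  | left i =>
    rw [en_left] at h
    exact hr _ (Finset.orderEmbOfFin_mem I hI i) (h.mul_right _)
  | right i =>
    rw [en_right] at h
    have e : r + (I.orderEmbOfFin hI i + 2) = r + I.orderEmbOfFin hI i + 2 := by ring
    rw [e] at h
    exact hr _ (Finset.orderEmbOfFin_mem I hI i) (h.mul_left _)

theorem fin_w (hLC : LCw FL) (hSC : SCw FL) (hm1 : Pool.Agent.CA.SV.R_m1) :
    ∀ K : ℕ, 2 ≤ K → ∃ (B : ℕ) (c : ℝ), 0 < c ∧ ∀ I : Finset ℕ, I.card = K →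
      (∀ p : ℕ, p.Prime → ∃ r : ℕ, ∀ h ∈ I, ¬ p ∣ (r + h) * (r + h + 2)) →
      ∃ n0 : ℕ, ∀ n : ℕ, n0 ≤ n →
        c * (n : ℝ) ^ 2 / (Real.log n) ^ (I ∪ I.image (fun h => h + 2)).card ≤
          ((clu I B n).ncard : ℝ) := by
  classical
  intro K hK
  obtain ⟨B, c, hB1, hc, hcore⟩ := core_w (K + K) K (by omega) hK hLC hSC hm1
  choose cm hcm0 hcm using mer
  obtain ⟨cf, hcf⟩ : ∃ cf : ℝ, cf = ∏ k ∈ Finset.range (K + K + 1), min 1 (cm k) := ⟨_, rfl⟩
  have hcf0 : 0 < cf := by
    rw [hcf]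
    exact Finset.prod_pos fun k _ => lt_min one_pos (hcm0 k)
  have hcfle : ∀ k ∈ Finset.range (K + K + 1), cf ≤ cm k := by
    intro k hk
    rw [hcf, ← Finset.mul_prod_erase _ _ hk]
    have h1 : ∏ k ∈ (Finset.range (K + K + 1)).erase k, min 1 (cm k) ≤ 1 :=
      Finset.prod_le_one (fun k _ => (lt_min one_pos (hcm0 k)).le) (fun k _ => min_le_left _ _)
    have h2 : 0 ≤ min 1 (cm k) := (lt_min one_pos (hcm0 k)).le
    calc _ ≤ min 1 (cm k) * 1 := mul_le_mul_of_nonneg_left h1 h2
      _ ≤ cm k := by rw [mul_one]; exact min_le_right _ _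
  refine ⟨B * 4, c * cf / (2 * 3 ^ (K + K)), by positivity, ?_⟩
  intro I hI hA
  obtain ⟨k, hk⟩ : ∃ k, k = (I ∪ I.image (fun h => h + 2)).card := ⟨_, rfl⟩
  rw [← hk]
  have hkK : k ≤ K + K := by
    rw [hk]
    refine (Finset.card_union_le _ _).trans ?_
    have := Finset.card_image_le (s := I) (f := fun h => h + 2)
    omega
  have hev := hcore (en I hI) (adm_en I hI hA) (lef K) (card_lef K) (en_inj I hI)
  obtain ⟨Hm, hHm⟩ : ∃ Hm : ℕ, Hm = I.sup id := ⟨_, rfl⟩
  have hHk : ∀ h ∈ I, h ≤ Hm := fun h hh => by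
    rw [hHm]
    exact Finset.le_sup (f := id) hh
  -- the length tends to infinity
  have hlen : Tendsto (fun J : ℕ => (len (J + 1) : ℝ)) atTop atTop := by
    apply tendsto_atTop_mono _ tendsto_natCast_atTop_atTop
    intro J
    have : J ≤ len (J + 1) := by rw [len_eq]; nlinarith
    exact_mod_cast this
  have hevH := hlen.eventually (ev_err (s := 0) (show 0 < c * cf / 2 by positivity)
    (show (0 : ℝ) < Hm + 3 by positivity) k (by norm_num))
  obtain ⟨J0, hJ0⟩ := eventually_atTop.1 (hev.and (hevH.and (eventually_ge_atTop 1000)))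
  refine ⟨J0 + 1, fun n hn => ?_⟩
  obtain ⟨J, rfl⟩ : ∃ J, n = J + 1 := ⟨n - 1, by omega⟩
  obtain ⟨h1, h2, h3⟩ := hJ0 J (by omega)
  obtain ⟨j, hj⟩ : ∃ j, j = J + 1 := ⟨_, rfl⟩
  rw [← hj] at h1 h2 ⊢
  obtain ⟨N, hN⟩ : ∃ N, N = len j := ⟨_, rfl⟩
  rw [← hN] at h1 h2
  have hNj : N = 3 * j ^ 2 + 3 * j + 1 := by rw [hN, len_eq]
  have hj3 : (j + 1) ^ 3 = j ^ 3 + N := by rw [hNj]; ring
  have hj1000 : 1000 ≤ j := by omega
  have hN2 : 2 ≤ N := by rw [hNj]; omega
  have hNr : (2 : ℝ) ≤ N := by exact_mod_cast hN2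
  have hN0 : (0 : ℝ) < N := by linarith
  have hjr : (1000 : ℝ) ≤ j := by exact_mod_cast hj1000
  have hj0 : (0 : ℝ) < j := by linarith
  have hlogN : 0 < Real.log N := Real.log_pos (by linarith)
  have hlogj : 0 < Real.log j := Real.log_pos (by linarith)
  have hlogle : Real.log N ≤ 3 * Real.log j := by
    have h10 : N ≤ j ^ 3 := by
      rw [hNj]
      have : j ^ 3 = j * j ^ 2 := by ring
      rw [this]
      nlinarith
    have h11 : (N : ℝ) ≤ (j : ℝ) ^ 3 := by exact_mod_cast h10
    have h12 := Real.log_le_log hN0 h11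
    rw [Real.log_pow] at h12
    push_cast at h12
    exact h12
  -- the product
  have hsing : cf / (Real.log N) ^ k ≤ singV (fam (j ^ 3) (en I hI)) N := by
    have h10 := hcm k N hN2 (fun p => nroots (fam (j ^ 3) (en I hI)) N p) (fun p hp =>
      ⟨(nroots_fam_le (j ^ 3) (en I hI) N hp).trans (by rw [image_en, ← hk]),
        nroots_fam_lt (j ^ 3) (en I hI) (adm_en I hI hA) N hp⟩)
    refine le_trans ?_ h10
    exact div_le_div_of_nonneg_right (hcfle k (by rw [Finset.mem_range]; omega)) (by positivity)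
  -- the points near the end
  set A := (Ioo 0 N).filter (fun x => Good B K (en I hI) (lef K) j x) with hAdef
  set A' := A.filter (fun x => x + Hm + 2 < N) with hA'def
  have hAcard : A.card ≤ A'.card + (Hm + 3) := by
    have h10 : A.filter (fun x => ¬ x + Hm + 2 < N) ⊆ Finset.Ico (N - (Hm + 2)) N := by
      intro x hx
      rw [Finset.mem_filter, hAdef, Finset.mem_filter, Finset.mem_Ioo] at hx
      rw [Finset.mem_Ico]
      omega
    have h11 := Finset.card_le_card h10
    rw [Nat.card_Ico] at h11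
    have h12 : A'.card + (A.filter (fun x => ¬ x + Hm + 2 < N)).card = A.card :=
      Finset.card_filter_add_card_filter_not (s := A) (fun x => x + Hm + 2 < N)
    omega
  have hAcard' : (A.card : ℝ) ≤ A'.card + (Hm + 3) := by exact_mod_cast hAcard
  -- the map to the cluster set
  have hmap : A'.card ≤ (clu I (B * 4) j).ncard := by
    have h10 : ((A'.image (fun x => x + j ^ 3) : Finset ℕ) : Set ℕ) ⊆ clu I (B * 4) j := by
      intro X hX
      rw [Finset.mem_coe, Finset.mem_image] at hX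
      obtain ⟨x, hx, rfl⟩ := hX
      rw [hA'def, Finset.mem_filter, hAdef, Finset.mem_filter, Finset.mem_Ioo] at hx
      obtain ⟨⟨⟨hx0, hxN⟩, hg1, hg2, hg3⟩, hxH⟩ := hx
      have e1 : ((lef K).filter (fun k => (x + j ^ 3 + en I hI k).Prime)).card =
          (I.filter (fun h => (x + j ^ 3 + h).Prime)).card :=
        card_lef_filter I hI (fun h => (x + j ^ 3 + h).Prime)
      rw [e1] at hg1 hg2
      refine ⟨fun h hh => ?_, ?_, ?_⟩
      · obtain ⟨i, hi⟩ := exists_en hI hh
        have g1 := hg3 (Fin.castAdd K i)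
        have g2 := hg3 (Fin.natAdd K i)
        rw [en_left, hi] at g1
        rw [en_right, hi] at g2
        have e2 : x + j ^ 3 + (h + 2) = x + j ^ 3 + h + 2 := by ring
        rw [e2] at g2
        have g3 := hHk h hh
        refine ⟨by omega, by omega, ?_, ?_⟩
        · rw [ArithmeticFunction.cardFactors_mul (by omega) (by omega)]
          omega
        · intro p hp hpd
          have hpow : p ^ B ≤ p ^ (B * 4) := Nat.pow_le_pow_right hp.pos (by omega)
          have hjN : j ≤ N := by rw [hNj]; nlinarith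
          rcases (Nat.Prime.dvd_mul hp).1 hpd with g4 | g4
          · have := g1.1 p hp g4
            rw [← hN] at this
            omega
          · have := g2.1 p hp g4
            rw [← hN] at this
            omega
      · exact hg2
      · rw [hI]
        exact hg1
    have h11 := Set.ncard_le_ncard h10 (finite_clu (by
      rw [← Finset.card_pos]; omega) (B * 4) j)
    rw [Set.ncard_coe_finset, Finset.card_image_of_injective _ (add_left_injective _)] at h11
    exact h11
  have hmap' : (A'.card : ℝ) ≤ ((clu I (B * 4) j).ncard : ℝ) := by exact_mod_cast hmap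
  -- assembling
  rw [Real.rpow_zero, mul_one] at h2
  have h10 : c * (N * (cf / (Real.log N) ^ k)) ≤ c * (N * singV (fam (j ^ 3) (en I hI)) N) :=
    mul_le_mul_of_nonneg_left (mul_le_mul_of_nonneg_left hsing hN0.le) hc.le
  have h11 : N * (c * cf / 2 * (1 / Real.log N ^ k)) + N * (c * cf / 2 * (1 / Real.log N ^ k)) =
      c * (N * (cf / (Real.log N) ^ k)) := by
    field_simp
    ring
  have h12 : c * cf / (2 * 3 ^ (K + K)) * (j : ℝ) ^ 2 / (Real.log j) ^ k ≤
      N * (c * cf / 2 * (1 / Real.log N ^ k)) := by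
    have g1 : (j : ℝ) ^ 2 ≤ N := by
      have : j ^ 2 ≤ N := by rw [hNj]; nlinarith
      exact_mod_cast this
    have g2 : Real.log N ^ k ≤ 3 ^ (K + K) * Real.log j ^ k := by
      calc Real.log N ^ k ≤ (3 * Real.log j) ^ k := pow_le_pow_left₀ hlogN.le hlogle k
        _ = 3 ^ k * Real.log j ^ k := mul_pow _ _ _
        _ ≤ 3 ^ (K + K) * Real.log j ^ k := by
            apply mul_le_mul_of_nonneg_right _ (by positivity)
            exact pow_le_pow_right₀ (by norm_num) hkK
    have e1 : c * cf / (2 * 3 ^ (K + K)) * (j : ℝ) ^ 2 / (Real.log j) ^ k =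
        (c * cf / 2) * ((j : ℝ) ^ 2 / (3 ^ (K + K) * Real.log j ^ k)) := by
      field_simp
    have e2 : N * (c * cf / 2 * (1 / Real.log N ^ k)) = (c * cf / 2) * (N / Real.log N ^ k) := by
      ring
    rw [e1, e2]
    apply mul_le_mul_of_nonneg_left _ (by positivity)
    rw [div_le_div_iff₀ (by positivity) (by positivity)]
    exact mul_le_mul g1 g2 (by positivity) hN0.le
  linarith only [h1, h2, h10, h11, h12, hAcard', hmap']

end Pool.Agent.CC
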