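import Pool.Agent.Lib.MP_d610d0_nt.CC.T
import Pool.Agent.Lib.MP_0da313_nt.MT.MainN2

set_option autoImplicit false
set_option linter.unusedSectionVars false

/-!
The estimate for a single window.
(The proof is that of `Lib/MP_0da313_nt/MT/MainN2.lean`.)
-/

open Finset Polynomial

namespace Pool.Agent.CC

open Pool.Agent.MP89da58 Pool.Agent.BVall Pool.Agent.Lib.MP_0da313_nt Pool.Agent.MT

open Classical in
theorem main_w {m K D m' M B0 n n' : ℕ} (hD : 1 ≤ D) (hK : 2 ≤ K)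
    (hm' : 1 ≤ m') (hm'K : 2 ^ m' ≤ K)
    (hM : M = 64 * 1000 * K * (m' + 1)) (f : Fin m → MvPolynomial (Fin 2) ℤ)
    {ι : Type} [Fintype ι] [DecidableEq ι]
    (hcard : Fintype.card ι = K) (e : ι → Fin m) (v : ι → ℤ)
    (hev : ∀ l (y : ℤ), 1 * y + v l = 1 * (lineRestrict (f (e l)) n).eval y)
    (hGdeg : (∏ k, lineRestrict (f k) n).natDegree ≤ D)
    (hloc : ∀ p : ℕ, p.Prime → ¬ ∀ x : ℤ, (p : ℤ) ∣ ∏ k, (lineRestrict (f k) n).eval x)
    (hn5 : (100000 : ℝ) ≤ n)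
    (hlev : (lev (2 * D) n' : ℝ) ^ ((D + 1) * M) ≤ (n : ℝ) ^ (1 / 1000 : ℝ))
    (hzB : n ≤ (2 ^ (2 ^ (2 * D + n'))) ^ B0)
    (hz16 : 16 * (K + 2) ^ 2 ≤ 2 ^ (2 ^ (2 * D + n')))
    (hom : ∀ x : ℕ, 0 < x → x < n → Rgh f n (2 ^ (2 ^ (2 * D + n'))) x → ∀ k,
      val (f k) x ((n : ℤ) - x) ≠ 0 ∧
      ArithmeticFunction.cardFactors (val (f k) x ((n : ℤ) - x)).natAbs ≤ B0 * 2)
    (y : ℕ) (hy : y = ⌊(n : ℝ) ^ (1 / (1000 * M) : ℝ)⌋₊)
    {P : Finset ℕ} (hP : ∀ p ∈ P, p.Prime ∧ 2 ^ (2 ^ (2 * D + n')) < p ∧ p ≤ y ^ M)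
    (hdet : ∀ p ∈ P, ∀ l l', l ≠ l' → ¬ (p : ℤ) ∣ 1 * v l' - 1 * v l)
    (hEx1 : ∀ p : ℕ, p.Prime → 2 ^ (2 ^ (2 * D + n')) < p → p ≤ y ^ M → p ∈ P)
    (w : ℕ → ℝ) (N0 : ℕ) (hN0 : 1 ≤ N0) (hN0n : N0 ≤ n ^ 2)
    (hw0 : ∀ N, 0 ≤ w N) (hw1 : ∀ N, w N ≤ 1)
    (hsup : ∀ l, ∀ N : ℕ, 1 ≤ N → N ≤ N0 → w N ≠ 0 → v l < N ∧ (N : ℤ) < v l + n ∧ n < N)
    (hpsi : (n : ℝ) / 1536 ≤ psW w N0) {A0 : ℝ}
    (hbv : ∀ a : ℕ → ℕ, (∀ q, (a q).Coprime q) →
      ∑ q ∈ (Finset.Icc 1 ⌊(n : ℝ) ^ (3 / 1000 : ℝ)⌋₊).filter Squarefree,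
      ((3 * K * D : ℕ) : ℝ) ^ (q.primeFactors.card) * Er w N0 q (a q) ≤ A0)
    (hlogn : 2000 * M * Real.log 2 ≤ Real.log n) {Vl : ℝ} (hVl0 : 0 ≤ Vl)
    (hVl : Vl ≤ W (fun p => (om (fun p y => (p : ℤ) ∣ (∏ k, lineRestrict (f k) n).eval y) p : ℝ) / p)
        (PK (2 * D) n'))
    (hE1 : (B0 : ℝ) ^ (4 * K) * (n : ℝ) ^ (3 / 1000 : ℝ) ≤ n * Vl)
    (hE2 : 4 * Real.sqrt N0 * ((n : ℝ) ^ (2 / 1000 : ℝ) * (B0 : ℝ) ^ (4 * K)) +
        (B0 : ℝ) ^ (2 * K) * A0 ≤ del / (2 * K) * (n * Vl)) :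
    n * W (fun p => (om (fun p y => (p : ℤ) ∣ (∏ k, lineRestrict (f k) n).eval y) p : ℝ) / p)
        (PK (2 * D) n') * (del / 64) ≤
      K * (2 ^ (K * (B0 * 2)) * (B0 : ℝ) ^ K) ^ 2 *
        (((Ioo 0 n).filter (fun x => Rgh f n (2 ^ (2 ^ (2 * D + n'))) x ∧ m' * del / 200 ≤
          ((univ.filter (fun l => (val (f (e l)) x ((n : ℤ) - x)).natAbs.Prime)).card : ℝ))).card :
          ℝ) := by
  have h1ne : (1 : ℤ) ≠ 0 := one_ne_zero
  have huv : ∀ l, IsCoprime (1 : ℤ) (v l) := fun l => isCoprime_one_left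
  have hPu : ∀ p ∈ P, ∀ _l : ι, ¬ p ∣ (1 : ℤ).natAbs := by
    intro p hp _ h
    rw [Int.natAbs_one] at h
    have := (hP p hp).1.two_le
    have := Nat.le_of_dvd (by omega) h
    omega
  set G : ℤ[X] := ∏ k, lineRestrict (f k) n with hG
  set z : ℕ := 2 ^ (2 ^ (2 * D + n')) with hz
  have hKr : (2 : ℝ) ≤ K := by exact_mod_cast hK
  have hm'r : (1 : ℝ) ≤ m' := by exact_mod_cast hm'
  have hM1 : 1 ≤ M := by
    rw [hM]
    exact Nat.mul_pos (by omega) (by omega)
  have hn0 : (0 : ℝ) < n := by linarith only [hn5]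
  have hz2 : 2 ≤ z := by
    have h1 : 1 ≤ (K + 2) ^ 2 := Nat.one_le_pow _ _ (by omega)
    omega
  have hzl : z ≤ lev (2 * D) n' := le_lev _ _
  obtain ⟨hzy, hyM, hLy, hlevD⟩ := size_y hM1 hn5 hlev (by omega) hzl hy hlogn
  have hMr : (1 : ℝ) ≤ M := by exact_mod_cast hM1
  have hy2 : 2 ≤ y := hz2.trans hzy
  have hyr : (2 : ℝ) ≤ y := by exact_mod_cast hy2
  have hzr : (2 : ℝ) ≤ z := by exact_mod_cast hz2
  have hLy0 : 0 < Real.log y := Real.log_pos (by linarith only [hyr])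
  have hlz0 : 0 < Real.log z := Real.log_pos (by linarith only [hzr])
  have hln1 : 1 ≤ Real.log n := by
    rw [Real.le_log_iff_exp_le hn0]
    linarith only [hn5, Real.exp_one_lt_d9]
  set κ : ℝ := kapD z with hκdef
  have hκ : 0 < κ := kapD_pos z
  have hκlz : κ * Real.log z ≤ 1 := kapD_mul_log_le z (by omega)
  have hlogB : Real.log n ≤ B0 * Real.log z := by
    rw [← Real.log_pow]
    apply Real.log_le_log hn0
    exact_mod_cast hzB
  have hκn : κ * Real.log n ≤ B0 := by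
    calc κ * Real.log n ≤ κ * (B0 * Real.log z) := mul_le_mul_of_nonneg_left hlogB hκ.le
      _ = B0 * (κ * Real.log z) := by ring
      _ ≤ B0 * 1 := mul_le_mul_of_nonneg_left hκlz (Nat.cast_nonneg _)
      _ = B0 := mul_one _
  -- the sieve data
  have hPz : ∀ p ∈ P, p.Prime ∧ z < p := fun p hp => ⟨(hP p hp).1, (hP p hp).2.1⟩
  obtain ⟨S, hSp, hSR, hA1, hA2l, hA2u, hB1⟩ := exists_sdataG (ι := ι) P z 1000 m' y κ hκ
    (by norm_num) hm' hy2 hPz (by rw [hcard]; exact hm'K) (by rw [hcard]; exact hz16) (by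
      intro ee he heM
      rw [hcard, ← hM] at heM
      have hye : y ≤ y ^ ee := Nat.le_self_pow (by omega) y
      have hlog : Real.log ((y ^ ee : ℕ) : ℝ) = ee * Real.log y := by
        push_cast
        rw [Real.log_pow]
      constructor
      · have h1 := g0_lower P z (y ^ ee) (Nat.one_le_pow _ _ (by omega)) ∅ (by
          intro p hp hzp hpe
          exact Or.inl (hEx1 p hp hzp (hpe.trans (Nat.pow_le_pow_right (by omega) heM))))
          (by norm_num)
        rw [hlog] at h1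
        exact h1
      · have h1 := g0_upper P z hPz (y ^ ee) (hy2.trans hye) (hzy.trans hye)
        rw [hlog] at h1
        push_cast
        linarith only [h1])
  rw [hcard, ← hM] at hSR
  rw [hcard] at hB1
  have hSR2 : 2 ≤ S.R := by
    rw [hSR]
    exact hy2.trans (Nat.le_self_pow (by omega) y)
  have hSRr : ((S.R : ℕ) : ℝ) ≤ (n : ℝ) ^ (1 / 1000 : ℝ) := by
    rw [hSR]; push_cast; exact hyM
  have hSR0 : (0 : ℝ) < S.R := by
    have : 0 < S.R := by omega
    exact_mod_cast this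
  have hlogR : Real.log S.R ≤ Real.log n / 1000 := by
    have h1 := Real.log_le_log hSR0 hSRr
    rw [Real.log_rpow hn0] at h1
    linarith only [h1]
  -- size of the weights
  have hG0 : S.G0 S.R ≤ B0 := by
    rw [G0_eq S hSp]
    have h1 := g0_upper P z hPz S.R hSR2 (by
      rw [hSR]
      exact hzy.trans (Nat.le_self_pow (by omega) y))
    refine h1.trans ?_
    calc 1000 * κ * Real.log S.R ≤ 1000 * κ * (Real.log n / 1000) :=
          mul_le_mul_of_nonneg_left hlogR (by (clear * - hκ; positivity))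
      _ = κ * Real.log n := by ring
      _ ≤ B0 := hκn
  have hG00 : 0 ≤ S.G0 S.R := G0_nonneg S _
  have hB0r : (0 : ℝ) ≤ B0 := Nat.cast_nonneg _
  have hsum : ∀ g : (PJf P → Option ι) → ℝ, (∀ α, |g α| ≤ S.G0 S.R ^ Fintype.card ι) →
      (∀ α, g α ≠ 0 → nn S.p (supp α) ≤ S.R) →
      (∑ α, |g α|) ^ 2 ≤ (n : ℝ) ^ (2 / 1000 : ℝ) * (B0 : ℝ) ^ (4 * K) := by
    intro g hg1 hg2
    have h1 := sum_abs_le S g _ S.R hg1 hg2
    rw [hcard] at h1
    have h2 : ∑ α, |g α| ≤ (n : ℝ) ^ (1 / 1000 : ℝ) * (B0 : ℝ) ^ K * (B0 : ℝ) ^ K := by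
      refine h1.trans ?_
      have h3 : S.G0 S.R ^ K ≤ (B0 : ℝ) ^ K := pow_le_pow_left₀ hG00 hG0 K
      have h4 : 0 ≤ S.G0 S.R ^ K := pow_nonneg hG00 K
      (clear * - hSRr h3 hG00 hn5; gcongr)
    have h3 : 0 ≤ ∑ α, |g α| := Finset.sum_nonneg fun _ _ => abs_nonneg _
    calc (∑ α, |g α|) ^ 2 ≤ ((n : ℝ) ^ (1 / 1000 : ℝ) * (B0 : ℝ) ^ K * (B0 : ℝ) ^ K) ^ 2 :=
          pow_le_pow_left₀ h3 h2 2
      _ = ((n : ℝ) ^ (1 / 1000 : ℝ)) ^ 2 * (B0 : ℝ) ^ (4 * K) := by ring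
      _ = _ := by
          rw [← Real.rpow_natCast, ← Real.rpow_mul hn0.le]
          norm_num
  have hlamS := hsum S.lam S.abs_lam_le S.lam_support
  have hlamiS : ∀ l, (∑ α, |S.lami l α|) ^ 2 ≤ (n : ℝ) ^ (2 / 1000 : ℝ) * (B0 : ℝ) ^ (4 * K) :=
    fun l => hsum (S.lami l) (S.abs_lami_le l) (fun α hα => (S.lami_support l α hα).2)
  -- the density
  set V : ℝ := W (fun p => (om (fun p y => (p : ℤ) ∣ G.eval y) p : ℝ) / p) (PK (2 * D) n') with hV
  have hV0 : 0 ≤ V := hVl0.trans hVl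
  have hA21 : 1 ≤ S.A2 := S.A2_ge_one
  have hA2K : 1 ≤ S.A2 ^ K := one_le_pow₀ hA21
  set Φ : ℝ := n * V * S.A2 ^ K with hΦ
  have hVΦ : n * V ≤ Φ := le_mul_of_one_le_right (by (clear * - hn5 hV0; positivity)) hA2K
  have hVlΦ : n * Vl ≤ Φ := (mul_le_mul_of_nonneg_left hVl hn0.le).trans hVΦ
  have hΦ0 : 0 ≤ Φ := le_trans (by positivity) hVΦ
  -- the total sum
  have hS1 := S1_upper f hGdeg hloc hPz hPu huv hdet S hSp (by
    have : (1 : ℝ) ≤ n := by linarith only [hn5]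
    exact_mod_cast this)
  rw [hcard, ← hz, ← hG, ← hV] at hS1
  have hS1' : ∑ x ∈ (Ioo 0 n).filter (fun x => Rgh f n z x),
      ZI (Dl P (fun _ => 1) v) S.lam (x : ℤ) ^ 2 ≤ 3 * Φ := by
    refine hS1.trans ?_
    have h1 : (∑ α, |S.lam α|) ^ 2 * (lev (2 * D) n' : ℝ) ^ (D + 1) ≤ Φ := by
      calc (∑ α, |S.lam α|) ^ 2 * (lev (2 * D) n' : ℝ) ^ (D + 1) ≤
            ((n : ℝ) ^ (2 / 1000 : ℝ) * (B0 : ℝ) ^ (4 * K)) * (n : ℝ) ^ (1 / 1000 : ℝ) :=
            mul_le_mul hlamS hlevD (by (clear * -; positivity)) (by (clear * - hn5; positivity))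
        _ = (B0 : ℝ) ^ (4 * K) * ((n : ℝ) ^ (2 / 1000 : ℝ) * (n : ℝ) ^ (1 / 1000 : ℝ)) := by ring
        _ = (B0 : ℝ) ^ (4 * K) * (n : ℝ) ^ (3 / 1000 : ℝ) := by
            rw [← Real.rpow_add hn0]
            norm_num
        _ ≤ n * Vl := hE1
        _ ≤ Φ := hVlΦ
    have h2 : (n : ℝ) * (2 * V) * S.A2 ^ K = 2 * Φ := by rw [hΦ]; ring
    linarith only [h1]
  -- lower bound for the main term
  have hmainT : Φ * m' * Real.log n * (del / K) ≤
      1 / 2 * ((n : ℝ) / 1536 * (V / κ)) * (S.A1 ^ 2 * S.A2 ^ (K - 1) / 4) := by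
    have hK1 : S.A2 ^ K = S.A2 * S.A2 ^ (K - 1) := by
      rw [← pow_succ']; congr 1; omega
    have hA1sq : (m' * κ * Real.log y / 8) ^ 2 ≤ S.A1 ^ 2 :=
      pow_le_pow_left₀ (by (clear * - hm' hκ hLy0; positivity)) hA1 2
    have hκL : S.A2 / 2000 ≤ κ * Real.log y := by
      have : S.A2 ≤ 2 * 1000 * κ * Real.log y := by exact_mod_cast hA2u
      linarith only [this]
    have hMle : (M : ℝ) ≤ 128000 * K * m' :=
      M_le (by rw [hM]; push_cast; ring) (by linarith only [hKr]) hm'r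
    have hLn : Real.log n ≤ 256000000 * K * m' * Real.log y := by
      refine hLy.trans ?_
      calc 2000 * M * Real.log y ≤ 2000 * (128000 * K * m') * Real.log y := by (clear * - hMle hLy0; gcongr)
        _ = _ := by ring
    -- A1 ^ 2 / κ ≥ m'^2 * L * A2 / 128000
    have h1 : m' ^ 2 * Real.log y * S.A2 / 128000 ≤ S.A1 ^ 2 / κ := by
      rw [le_div_iff₀ hκ]
      calc m' ^ 2 * Real.log y * S.A2 / 128000 * κ =
            (m' ^ 2 * Real.log y * κ / 64) * (S.A2 / 2000) := by ring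
        _ ≤ (m' ^ 2 * Real.log y * κ / 64) * (κ * Real.log y) :=
            mul_le_mul_of_nonneg_left hκL (by (clear * - hm' hLy0 hκ; positivity))
        _ = (m' * κ * Real.log y / 8) ^ 2 := by ring
        _ ≤ S.A1 ^ 2 := hA1sq
    have hP0 : 0 ≤ S.A2 ^ (K - 1) := by (clear * - hA21; positivity)
    calc Φ * m' * Real.log n * (del / K) ≤
          Φ * m' * (256000000 * K * m' * Real.log y) * (del / K) := by
          have := del_pos
          (clear * - hLn hn5 hV0 hA21 hm' this hK; gcongr)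
      _ = n * V * S.A2 ^ (K - 1) / 12288 * (m' ^ 2 * Real.log y * S.A2 / 128000) := by
          rw [hΦ, hK1]
          unfold del
          field_simp
          ring
      _ ≤ n * V * S.A2 ^ (K - 1) / 12288 * (S.A1 ^ 2 / κ) :=
          mul_le_mul_of_nonneg_left h1 (by (clear * - hn5 hV0 hA21; positivity))
      _ = _ := by
          field_simp
          ring
  -- the sums over prime values
  have hA0 : 0 ≤ A0 := by
    refine le_trans ?_ (hbv (fun _ => 1) (fun q => Nat.coprime_one_left q))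
    apply Finset.sum_nonneg
    intro q _
    exact mul_nonneg (by positivity) (abs_nonneg _)
  have hT : ∀ l, Φ * m' * del / (32 * K) ≤
      ∑ x ∈ ((Ioo 0 n).filter (fun x => Rgh f n z x)).filter
        (fun x : ℕ => (val (f (e l)) x ((n : ℤ) - x)).natAbs.Prime),
        ZI (Dl P (fun _ => 1) v) S.lam (x : ℤ) ^ 2 := by
    intro l
    have hlevle : (lev (2 * D) n' : ℝ) ≤ (n : ℝ) ^ (1 / 1000 : ℝ) := by
      refine le_trans ?_ hlevD
      apply le_self_pow₀ _ (by omega)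
      have : 1 ≤ lev (2 * D) n' := by omega
      exact_mod_cast this
    have hnle : (n : ℝ) ^ (1 / 1000 : ℝ) ≤ n := by
      calc (n : ℝ) ^ (1 / 1000 : ℝ) ≤ (n : ℝ) ^ (1 : ℝ) :=
            Real.rpow_le_rpow_of_exponent_le (by linarith only [hn5]) (by norm_num)
        _ = n := Real.rpow_one _
    have hRn : S.R ≤ n := by exact_mod_cast hSRr.trans hnle
    have hzn : z ≤ n := by
      have h1 : (lev (2 * D) n' : ℝ) ≤ n := hlevle.trans hnle
      exact hzl.trans (by exact_mod_cast h1)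
    have hTl := T_low hD f e v hev hGdeg hloc hPz hdet S hSp l (fun p hp => by
      rw [hSR]; exact (hP p hp).2.2) w N0 hN0 hw0 hw1 (fun N h1 h2 h3 => by
        obtain ⟨g1, g2, g3⟩ := hsup l N h1 h2 h3
        exact ⟨g1, g2, lt_of_le_of_lt hzn g3, lt_of_le_of_lt hRn g3⟩) A0 (by
        intro a ha
        rw [hcard]
        refine le_trans ?_ (hbv a ha)
        apply Finset.sum_le_sum_of_subset_of_nonneg
        · intro q hq
          rw [Finset.mem_filter, Finset.mem_Icc] at hq ⊢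
          refine ⟨⟨hq.1.1, hq.1.2.trans (Nat.le_floor ?_)⟩, hq.2⟩
          push_cast
          calc (S.R : ℝ) * S.R * lev (2 * D) n' ≤
                (n : ℝ) ^ (1 / 1000 : ℝ) * (n : ℝ) ^ (1 / 1000 : ℝ) * (n : ℝ) ^ (1 / 1000 : ℝ) := by
                (clear * - hSRr hSR2 hn5 hlevle; gcongr)
            _ = _ := by
                rw [← Real.rpow_add hn0, ← Real.rpow_add hn0]; norm_num
        · intro q _ _
          exact mul_nonneg (by positivity) (abs_nonneg _)) (by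
        -- 1 < log R
        have h1 : 2 * Real.log 2 ≤ Real.log S.R := by
          rw [hSR]
          push_cast
          rw [Real.log_pow]
          have h2 : Real.log 2 ≤ Real.log y := Real.log_le_log (by norm_num) hyr
          have h3 : (2 : ℝ) ≤ M := M_ge (by rw [hM]; push_cast; ring) hKr hm'r
          exact two_log h3 h2 (Real.log_pos (by norm_num))
        linarith only [h1, Real.log_two_gt_d9]) (by rw [hcard]; exact hB1)
    rw [hcard, ← hz, ← hG, ← hV, ← hκdef] at hTl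
    rw [Finset.filter_filter]
    set T := ∑ x ∈ (Ioo 0 n).filter (fun x : ℕ => Rgh f n z x ∧
          (val (f (e l)) x ((n : ℤ) - x)).natAbs.Prime),
          ZI (Dl P (fun _ => 1) v) S.lam (x : ℤ) ^ 2 with hTdef
    have hT0 : 0 ≤ T := Finset.sum_nonneg fun _ _ => sq_nonneg _
    have hlog3 : Real.log N0 ≤ 2 * Real.log n := by
      have h1 : (N0 : ℝ) ≤ (n : ℝ) ^ 2 := by exact_mod_cast hN0n
      have h2 := Real.log_le_log (by exact_mod_cast hN0) h1
      rw [Real.log_pow] at h2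
      push_cast at h2
      exact h2
    have hlog30 : 0 ≤ Real.log N0 := Real.log_natCast_nonneg _
    have hmainT' : 1 / 2 * ((n : ℝ) / 1536 * (V / κ)) * (S.A1 ^ 2 * S.A2 ^ (K - 1) / 4) ≤
        1 / 2 * (psW w N0 * (V / κ)) * (S.A1 ^ 2 * S.A2 ^ (K - 1) / 4) := by
      have g1 : 0 ≤ V / κ := div_nonneg hV0 hκ.le
      have g2 : 0 ≤ S.A1 ^ 2 * S.A2 ^ (K - 1) / 4 := by (clear * - hA21; positivity)
      exact mul_le_mul_of_nonneg_right (mul_le_mul_of_nonneg_left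
        (mul_le_mul_of_nonneg_right hpsi g1) (by norm_num)) g2
    have e1 : Real.log N0 * T ≤ Real.log n * (16 * T) := by
      have : Real.log N0 * T ≤ 2 * Real.log n * T :=
        mul_le_mul_of_nonneg_right hlog3 hT0
      have h5 : 0 ≤ Real.log n * T := mul_nonneg (by linarith only [hln1]) hT0
      linarith only [this, h5]
    have e2 : 2 * Real.sqrt N0 * Real.log N0 *
        (∑ α, |S.lami l α|) ^ 2 ≤ Real.log n * (4 * Real.sqrt N0 *
          ((n : ℝ) ^ (2 / 1000 : ℝ) * (B0 : ℝ) ^ (4 * K))) := by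
      calc 2 * Real.sqrt N0 * Real.log N0 *
            (∑ α, |S.lami l α|) ^ 2 ≤ 2 * Real.sqrt N0 * (2 * Real.log n) *
            ((n : ℝ) ^ (2 / 1000 : ℝ) * (B0 : ℝ) ^ (4 * K)) := by
            apply mul_le_mul _ (hlamiS l) (sq_nonneg _) (by positivity)
            exact mul_le_mul_of_nonneg_left hlog3 (by positivity)
        _ = _ := by ring
    have e3 : (S.G0 S.R ^ K) ^ 2 * A0 ≤
        Real.log n * ((B0 : ℝ) ^ (2 * K) * A0) := by
      have h1 : (S.G0 S.R ^ K) ^ 2 ≤ (B0 : ℝ) ^ (2 * K) := by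
        calc (S.G0 S.R ^ K) ^ 2 = S.G0 S.R ^ (2 * K) := by ring
          _ ≤ _ := pow_le_pow_left₀ hG00 hG0 _
      calc _ ≤ (B0 : ℝ) ^ (2 * K) * A0 :=
            mul_le_mul_of_nonneg_right h1 hA0
        _ ≤ _ := le_mul_of_one_le_left (by (clear * - hA0; positivity)) hln1
    have e4 : Real.log n * (Φ * m' * (del / K)) ≤ Real.log n * (16 * T + del / (2 * K) * Φ) := by
      have e5 : del / (2 * K) * (n * Vl) ≤ del / (2 * K) * Φ :=
        mul_le_mul_of_nonneg_left hVlΦ (by have := del_pos; positivity)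
      have e6 := mul_le_mul_of_nonneg_left (hE2.trans e5) (show 0 ≤ Real.log n by linarith only [hln1])
      calc Real.log n * (Φ * m' * (del / K)) = Φ * m' * Real.log n * (del / K) := by ring
        _ ≤ _ := hmainT
        _ ≤ _ := hmainT'
        _ ≤ _ := hTl
        _ ≤ Real.log n * (16 * T) + Real.log n * (4 * Real.sqrt N0 *
          ((n : ℝ) ^ (2 / 1000 : ℝ) * (B0 : ℝ) ^ (4 * K))) + Real.log n * ((B0 : ℝ) ^ (2 * K) *
          A0) := by
            linarith only [e1, e2, e3]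
        _ ≤ _ := by
            linarith only [e6]
    have e5 := le_of_mul_le_mul_left e4 (by linarith only [hln1])
    have e6 : del / (2 * K) * Φ ≤ Φ * m' * (del / K) / 2 := by
      have h1 : Φ * (del / K) ≤ Φ * m' * (del / K) := by
        have := del_pos
        have h2 : 0 ≤ Φ * (del / K) := by (clear * - hn5 hV0 hA21 this hK; positivity)
        calc Φ * (del / K) ≤ Φ * (del / K) * m' := le_mul_of_one_le_right h2 hm'r
          _ = _ := by ring
      calc del / (2 * K) * Φ = Φ * (del / K) / 2 := by field_simp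
        _ ≤ _ := by linarith only [h1]
    have e7 : Φ * m' * del / (32 * K) = Φ * m' * (del / K) / 32 := by field_simp
    rw [e7]
    linarith only [e5, e6]
  -- the pointwise bound
  have hwmax : ∀ x ∈ (Ioo 0 n).filter (fun x => Rgh f n z x),
      ZI (Dl P (fun _ => 1) v) S.lam (x : ℤ) ^ 2 ≤
        (2 ^ (K * (B0 * 2)) * (B0 : ℝ) ^ K) ^ 2 := by
    intro x hx
    rw [Finset.mem_filter, Finset.mem_Ioo] at hx
    have h1 := abs_ZI_le (Dl P (fun _ => 1) v) (x : ℤ) (K * (B0 * 2))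
      S.lam (S.G0 S.R ^ Fintype.card ι) S.abs_lam_le (by
        rw [← hcard, ← smul_eq_mul, ← Finset.card_univ]
        apply Finset.sum_le_card_nsmul
        intro l _
        obtain ⟨h2, h3⟩ := hom x hx.1.1 hx.1.2 hx.2 (e l)
        refine le_trans ?_ h3
        refine le_trans (Finset.card_le_card ?_) (card_dvd_le (fun p hp => (hP p hp).1) h2)
        intro j hj
        rw [Finset.mem_filter] at hj ⊢
        refine ⟨Finset.mem_univ _, ?_⟩
        have h4 : (((j : ℕ) : ℤ)) ∣ 1 * x + v l := hj.2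
        rw [hev, eval_lineRestrict, one_mul] at h4
        exact h4)
    rw [← sq_abs]
    apply pow_le_pow_left₀ (abs_nonneg _)
    refine h1.trans ?_
    rw [hcard]
    apply mul_le_mul_of_nonneg_left _ (by positivity)
    exact pow_le_pow_left₀ hG00 hG0 K
  have hfin := count_lower ((Ioo 0 n).filter (fun x => Rgh f n z x))
    (fun x : ℕ => ZI (Dl P (fun _ => 1) v) S.lam (x : ℤ) ^ 2)
    (fun _ _ => sq_nonneg _) _ hwmax
    (fun l x => (val (f (e l)) x ((n : ℤ) - x)).natAbs.Prime) (ρ := m' * del / 200)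
    (by have := del_pos; positivity) hT hS1' (by
      rw [hcard]
      have h1 : (K : ℝ) * (Φ * m' * del / (32 * K)) / 2 = Φ * m' * del / 64 := by
        field_simp; ring
      rw [h1]
      have h2 : 0 ≤ Φ * m' * del := by
        have := del_pos
        (clear * - hn5 hV0 hA21 hm' this; positivity)
      calc (m' : ℝ) * del / 200 * (3 * Φ) = Φ * m' * del * (3 / 200) := by ring
        _ ≤ Φ * m' * del * (1 / 64) := mul_le_mul_of_nonneg_left (by norm_num) h2
        _ = _ := by ring)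
  rw [hcard, Finset.filter_filter] at hfin
  have h1 : (K : ℝ) * (Φ * m' * del / (32 * K)) / 2 = Φ * m' * del / 64 := by
    field_simp; ring
  rw [h1] at hfin
  refine le_trans ?_ hfin
  have h2 : 0 ≤ del := del_pos.le
  calc (n : ℝ) * V * (del / 64) ≤ Φ * (del / 64) := mul_le_mul_of_nonneg_right hVΦ (by (clear * - h2; positivity))
    _ ≤ Φ * m' * (del / 64) := by
        apply mul_le_mul_of_nonneg_right _ (by (clear * - h2; positivity))
        exact le_mul_of_one_le_right hΦ0 hm'r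
    _ = _ := by ring

end Pool.Agent.CC
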