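import Pool.Agent.Lib.MP_0da313_nt.MT.Mertens

set_option autoImplicit false

/-!
A lower bound for sieve products in terms of the logarithm.
-/

open Finset

namespace Pool.Agent.CC

open Pool.Agent.MT Pool.Agent.MP89da58

lemma one_sub_sum_le {s : Finset ℕ} {f : ℕ → ℝ} (h0 : ∀ p ∈ s, 0 ≤ f p) (h1 : ∀ p ∈ s, f p ≤ 1) :
    1 - ∑ p ∈ s, f p ≤ ∏ p ∈ s, (1 - f p) := by
  classical
  induction s using Finset.induction_on with
  | empty => simp
  | insert a s ha ih =>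
    rw [Finset.sum_insert ha, Finset.prod_insert ha]
    have ih' := ih (fun p hp => h0 p (Finset.mem_insert_of_mem hp))
      (fun p hp => h1 p (Finset.mem_insert_of_mem hp))
    have ha0 := h0 a (Finset.mem_insert_self _ _)
    have ha1 := h1 a (Finset.mem_insert_self _ _)
    have hp1 : ∏ p ∈ s, (1 - f p) ≤ 1 :=
      Finset.prod_le_one (fun p hp => by linarith [h1 p (Finset.mem_insert_of_mem hp)])
        (fun p hp => by linarith [h0 p (Finset.mem_insert_of_mem hp)])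
    have h2 : f a * ∏ p ∈ s, (1 - f p) ≤ f a * 1 := mul_le_mul_of_nonneg_left hp1 ha0
    have e : (1 - f a) * ∏ p ∈ s, (1 - f p) = ∏ p ∈ s, (1 - f p) - f a * ∏ p ∈ s, (1 - f p) := by
      ring
    rw [e]
    linarith

/-- second order inequality for powers -/
lemma pow_one_sub_le (k : ℕ) {x : ℝ} (hx0 : 0 ≤ x) (hx1 : x ≤ 1) :
    (1 - x) ^ k ≤ 1 - k * x + (k * x) ^ 2 := by
  induction k with
  | zero => simp
  | succ k ih =>
    have h1 : 0 ≤ 1 - x := by linarith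
    have h2 : (1 - x) ^ (k + 1) ≤ (1 - k * x + (k * x) ^ 2) * (1 - x) := by
      rw [pow_succ]
      exact mul_le_mul_of_nonneg_right ih h1
    refine h2.trans ?_
    push_cast
    have h3 : 0 ≤ (k : ℝ) := Nat.cast_nonneg _
    have e : 1 - ((k : ℝ) + 1) * x + (((k : ℝ) + 1) * x) ^ 2 -
        (1 - k * x + (k * x) ^ 2) * (1 - x) = (k + 1) * x ^ 2 + k ^ 2 * x ^ 3 := by ring
    have h4 : 0 ≤ ((k : ℝ) + 1) * x ^ 2 + k ^ 2 * x ^ 3 := by positivity
    linarith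

lemma half_pow_le (k : ℕ) {x : ℝ} (_hx0 : 0 ≤ x) (hx1 : k * x ≤ 1 / 2) (hx2 : x ≤ 1) :
    1 / 2 ≤ (1 - x) ^ k := by
  have h := one_add_mul_le_pow (show (-2 : ℝ) ≤ -x by linarith) k
  have e : (1 : ℝ) + -x = 1 - x := by ring
  rw [e] at h
  linarith

lemma tail_prod (k P0 : ℕ) (hP0 : 8 * (k + 1) ^ 2 ≤ P0) (s : Finset ℕ)
    (hs : ∀ p ∈ s, P0 < p) :
    (1 / 2 : ℝ) ≤ ∏ p ∈ s, (1 - 2 * ((k : ℝ) / p) ^ 2) := by
  have hk1 : 1 ≤ (k + 1) ^ 2 := Nat.one_le_pow _ _ (by omega)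
  have hkP : 2 * k ^ 2 ≤ P0 := by nlinarith
  have h0 : ∀ p ∈ s, 0 ≤ 2 * ((k : ℝ) / p) ^ 2 ∧ 2 * ((k : ℝ) / p) ^ 2 ≤ 1 := by
    intro p hp
    refine ⟨by positivity, ?_⟩
    have h1 := hs p hp
    have hp0 : (0 : ℝ) < p := by exact_mod_cast (by omega : 0 < p)
    rw [div_pow, mul_div_assoc', div_le_one (by positivity)]
    have h2 : 2 * k ^ 2 ≤ p ^ 2 := by nlinarith
    exact_mod_cast h2
  have h1 : 1 - ∑ p ∈ s, 2 * ((k : ℝ) / p) ^ 2 ≤ ∏ p ∈ s, (1 - 2 * ((k : ℝ) / p) ^ 2) :=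
    one_sub_sum_le (fun p hp => (h0 p hp).1) (fun p hp => (h0 p hp).2)
  have h2 : ∑ p ∈ s, 2 * ((k : ℝ) / p) ^ 2 ≤ 1 / 2 := by
    have h3 : s ⊆ Finset.Ioc P0 (max P0 (s.sup id)) := by
      intro p hp
      rw [Finset.mem_Ioc]
      exact ⟨hs p hp, le_max_of_le_right (Finset.le_sup (f := id) hp)⟩
    have h4 : ∑ p ∈ s, 2 * ((k : ℝ) / p) ^ 2 ≤
        ∑ p ∈ Finset.Ioc P0 (max P0 (s.sup id)), 2 * ((k : ℝ) / p) ^ 2 :=
      Finset.sum_le_sum_of_subset_of_nonneg h3 fun _ _ _ => by positivity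
    refine h4.trans ?_
    have h5 := sum_Ioc_inv_sq_le_sub (α := ℝ) (k := P0) (n := max P0 (s.sup id)) (by omega)
      (le_max_left _ _)
    have h6 : ∑ p ∈ Finset.Ioc P0 (max P0 (s.sup id)), 2 * ((k : ℝ) / p) ^ 2 =
        2 * (k : ℝ) ^ 2 * ∑ p ∈ Finset.Ioc P0 (max P0 (s.sup id)), ((p : ℝ) ^ 2)⁻¹ := by
      rw [Finset.mul_sum]
      apply Finset.sum_congr rfl
      intro p _
      rw [div_pow]
      ring
    rw [h6]
    have hP0r : (0 : ℝ) < P0 := by exact_mod_cast (by omega : 0 < P0)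
    have h7 : ∑ p ∈ Finset.Ioc P0 (max P0 (s.sup id)), ((p : ℝ) ^ 2)⁻¹ ≤ (P0 : ℝ)⁻¹ := by
      refine h5.trans ?_
      have : (0 : ℝ) ≤ ((max P0 (s.sup id) : ℕ) : ℝ)⁻¹ := by positivity
      linarith
    calc 2 * (k : ℝ) ^ 2 * ∑ p ∈ Finset.Ioc P0 (max P0 (s.sup id)), ((p : ℝ) ^ 2)⁻¹ ≤
          2 * (k : ℝ) ^ 2 * (P0 : ℝ)⁻¹ := mul_le_mul_of_nonneg_left h7 (by positivity)
      _ ≤ 1 / 2 := by
          rw [← div_eq_mul_inv, div_le_iff₀ hP0r]
          have h8 : 4 * k ^ 2 ≤ P0 := by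
            have : k ^ 2 ≤ (k + 1) ^ 2 := Nat.pow_le_pow_left (by omega) 2
            omega
          have h9 : (4 : ℝ) * k ^ 2 ≤ P0 := by exact_mod_cast h8
          linarith
  linarith

/-- the lower bound -/
theorem mer (k : ℕ) : ∃ c : ℝ, 0 < c ∧ ∀ n : ℕ, 2 ≤ n → ∀ ω : ℕ → ℕ,
    (∀ p : ℕ, p.Prime → ω p ≤ k ∧ ω p < p) →
    c / (Real.log n) ^ k ≤ ∏ p ∈ (Icc 1 n).filter Nat.Prime, (1 - (ω p : ℝ) / p) := by
  classical
  obtain ⟨P0, hP0⟩ : ∃ P0, P0 = 8 * (k + 1) ^ 2 := ⟨_, rfl⟩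
  have hk1 : 1 ≤ (k + 1) ^ 2 := Nat.one_le_pow _ _ (by omega)
  obtain ⟨c0, hc0⟩ : ∃ c0 : ℝ, c0 = ∏ p ∈ (Icc 1 P0).filter Nat.Prime, (1 / (p : ℝ)) := ⟨_, rfl⟩
  have hc0pos : 0 < c0 := by
    rw [hc0]
    apply Finset.prod_pos
    intro p hp
    have : (0 : ℝ) < p := by exact_mod_cast (Finset.mem_filter.1 hp).2.pos
    positivity
  refine ⟨c0 * (1 / 2) / 1000 ^ k, by positivity, fun n hn ω hω => ?_⟩
  have hn1 : (1 : ℝ) < n := by exact_mod_cast (by omega : 1 < n)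
  have hlog : 0 < Real.log n := Real.log_pos hn1
  set A := (Icc 1 n).filter Nat.Prime with hA
  have hAp : ∀ p ∈ A, p.Prime := fun p hp => (Finset.mem_filter.1 hp).2
  set A1 := A.filter (fun p => p ≤ P0) with hA1
  set A2 := A.filter (fun p => ¬ p ≤ P0) with hA2
  have hκ := mertens n hn
  have hκ0 := kapD_pos n
  have hκe : kapD n = ∏ p ∈ A, (1 - 1 / (p : ℝ)) := rfl
  have hfac0 : ∀ p ∈ A, 0 ≤ 1 - (ω p : ℝ) / p := by
    intro p hp
    have hpp := hAp p hp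
    have hp0 : (0 : ℝ) < p := by exact_mod_cast hpp.pos
    have h1 : (ω p : ℝ) ≤ p := by exact_mod_cast (hω p hpp).2.le
    have h2 : (ω p : ℝ) / p ≤ 1 := by rw [div_le_one hp0]; exact h1
    linarith
  -- small primes
  have hsm : c0 ≤ ∏ p ∈ A1, (1 - (ω p : ℝ) / p) := by
    have h1 : ∏ p ∈ A1, (1 / (p : ℝ)) ≤ ∏ p ∈ A1, (1 - (ω p : ℝ) / p) := by
      apply Finset.prod_le_prod
      · intro p _; positivity
      · intro p hp
        have hpp := hAp p (Finset.mem_filter.1 hp).1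
        have hp0 : (0 : ℝ) < p := by exact_mod_cast hpp.pos
        have h1 : (ω p : ℝ) + 1 ≤ p := by exact_mod_cast (hω p hpp).2
        rw [div_le_iff₀ hp0, sub_mul, div_mul_cancel₀ _ hp0.ne']
        linarith
    refine le_trans ?_ h1
    rw [hc0]
    have hsub : A1 ⊆ (Icc 1 P0).filter Nat.Prime := by
      intro p hp
      rw [hA1, Finset.mem_filter, hA, Finset.mem_filter, Finset.mem_Icc] at hp
      rw [Finset.mem_filter, Finset.mem_Icc]
      exact ⟨⟨hp.1.1.1, hp.2⟩, hp.1.2⟩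
    rw [← Finset.prod_sdiff hsub]
    have h2 : ∏ p ∈ (Icc 1 P0).filter Nat.Prime \ A1, (1 / (p : ℝ)) ≤ 1 := by
      apply Finset.prod_le_one
      · intro p _; positivity
      · intro p hp
        have hpp := (Finset.mem_filter.1 (Finset.mem_sdiff.1 hp).1).2
        have hp1 : (1 : ℝ) ≤ p := by exact_mod_cast hpp.one_le
        rw [div_le_one (by linarith)]
        exact hp1
    have h3 : 0 ≤ ∏ p ∈ A1, (1 / (p : ℝ)) := Finset.prod_nonneg fun p _ => by positivity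
    calc _ ≤ 1 * ∏ p ∈ A1, (1 / (p : ℝ)) := mul_le_mul_of_nonneg_right h2 h3
      _ = _ := one_mul _
  -- large primes
  have hlg : ∀ p ∈ A2, (1 - 1 / (p : ℝ)) ^ k * (1 - 2 * ((k : ℝ) / p) ^ 2) ≤
      1 - (ω p : ℝ) / p := by
    intro p hp
    rw [hA2, Finset.mem_filter] at hp
    have hpp := hAp p hp.1
    have hp0 : (0 : ℝ) < p := by exact_mod_cast hpp.pos
    have hpP : 8 * (k + 1) ^ 2 < p := by
      have := hp.2
      omega
    have hx0 : 0 ≤ 1 / (p : ℝ) := by positivity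
    have hx1 : 1 / (p : ℝ) ≤ 1 := by
      rw [div_le_one hp0]
      exact_mod_cast hpp.one_le
    have hkx : (k : ℝ) * (1 / (p : ℝ)) ≤ 1 / 2 := by
      rw [mul_one_div, div_le_div_iff₀ hp0 (by norm_num)]
      have : k * 2 ≤ 1 * p := by nlinarith
      exact_mod_cast this
    have h1 := pow_one_sub_le k hx0 hx1
    have h2 := half_pow_le k hx0 hkx hx1
    have h3 : (ω p : ℝ) / p ≤ k * (1 / (p : ℝ)) := by
      rw [mul_one_div]
      apply div_le_div_of_nonneg_right _ hp0.le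
      exact_mod_cast (hω p hpp).1
    have e1 : (k : ℝ) / p = k * (1 / (p : ℝ)) := by ring
    rw [e1]
    have h4 : 0 ≤ ((k : ℝ) * (1 / (p : ℝ))) ^ 2 := sq_nonneg _
    have h5 : ((k : ℝ) * (1 / (p : ℝ))) ^ 2 ≤
        (1 - 1 / (p : ℝ)) ^ k * (2 * ((k : ℝ) * (1 / (p : ℝ))) ^ 2) := by
      have := mul_le_mul_of_nonneg_right h2 (show 0 ≤ 2 * ((k : ℝ) * (1 / (p : ℝ))) ^ 2 by positivity)
      linarith
    have e2 : (1 - 1 / (p : ℝ)) ^ k * (1 - 2 * ((k : ℝ) * (1 / (p : ℝ))) ^ 2) =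
        (1 - 1 / (p : ℝ)) ^ k - (1 - 1 / (p : ℝ)) ^ k * (2 * ((k : ℝ) * (1 / (p : ℝ))) ^ 2) := by
      ring
    rw [e2]
    linarith
  have htail := tail_prod k P0 hP0.ge A2 (fun p hp => by
    rw [hA2, Finset.mem_filter] at hp
    have := hp.2
    omega)
  have hfac1 : ∀ p ∈ A, 0 ≤ 1 - 1 / (p : ℝ) ∧ 1 - 1 / (p : ℝ) ≤ 1 := by
    intro p hp
    have hp1 : (1 : ℝ) ≤ p := by exact_mod_cast (hAp p hp).one_le
    have h1 : 1 / (p : ℝ) ≤ 1 := by rw [div_le_one (by linarith)]; exact hp1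
    have h2 : 0 ≤ 1 / (p : ℝ) := by positivity
    constructor <;> linarith
  have hκ2 : kapD n ≤ ∏ p ∈ A2, (1 - 1 / (p : ℝ)) := by
    rw [hκe, ← Finset.prod_filter_mul_prod_filter_not A (fun p => p ≤ P0)]
    have h1 : ∏ p ∈ A.filter (fun p => p ≤ P0), (1 - 1 / (p : ℝ)) ≤ 1 :=
      Finset.prod_le_one (fun p hp => (hfac1 p (Finset.mem_filter.1 hp).1).1)
        (fun p hp => (hfac1 p (Finset.mem_filter.1 hp).1).2)
    have h2 : 0 ≤ ∏ p ∈ A2, (1 - 1 / (p : ℝ)) :=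
      Finset.prod_nonneg fun p hp => (hfac1 p (Finset.mem_filter.1 hp).1).1
    calc _ ≤ 1 * ∏ p ∈ A2, (1 - 1 / (p : ℝ)) := mul_le_mul_of_nonneg_right h1 h2
      _ = _ := one_mul _
  have hlarge : kapD n ^ k * (1 / 2) ≤ ∏ p ∈ A2, (1 - (ω p : ℝ) / p) := by
    have h1 : ∏ p ∈ A2, ((1 - 1 / (p : ℝ)) ^ k * (1 - 2 * ((k : ℝ) / p) ^ 2)) ≤
        ∏ p ∈ A2, (1 - (ω p : ℝ) / p) := by
      apply Finset.prod_le_prod _ hlg
      intro p hp
      have hpA := (Finset.mem_filter.1 hp).1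
      apply mul_nonneg (pow_nonneg (hfac1 p hpA).1 _)
      rw [hA2, Finset.mem_filter] at hp
      have hp0 : (0 : ℝ) < p := by exact_mod_cast (hAp p hpA).pos
      have h2 : 2 * ((k : ℝ) / p) ^ 2 ≤ 1 := by
        rw [div_pow, mul_div_assoc', div_le_one (by positivity)]
        have h3 : 2 * k ^ 2 ≤ p ^ 2 := by
          have g1 := hp.2
          have g2 : k ^ 2 ≤ (k + 1) ^ 2 := Nat.pow_le_pow_left (by omega) 2
          have g3 : p ≤ p ^ 2 := Nat.le_self_pow (by norm_num) p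
          omega
        exact_mod_cast h3
      linarith
    refine le_trans ?_ h1
    rw [Finset.prod_mul_distrib, Finset.prod_pow]
    apply mul_le_mul _ htail (by norm_num)
    · exact pow_nonneg (Finset.prod_nonneg fun p hp => (hfac1 p (Finset.mem_filter.1 hp).1).1) _
    · exact pow_le_pow_left₀ hκ0.le hκ2 k
  have hκk : 1 / (1000 * Real.log n) ^ k ≤ kapD n ^ k := by
    rw [← one_div_pow]
    apply pow_le_pow_left₀ (by positivity)
    rw [div_le_iff₀ (by positivity)]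
    linarith
  rw [← Finset.prod_filter_mul_prod_filter_not A (fun p => p ≤ P0)]
  calc c0 * (1 / 2) / 1000 ^ k / Real.log n ^ k = c0 * (1 / (1000 * Real.log n) ^ k * (1 / 2)) := by
        rw [mul_pow]
        field_simp
    _ ≤ c0 * (kapD n ^ k * (1 / 2)) :=
        mul_le_mul_of_nonneg_left (mul_le_mul_of_nonneg_right hκk (by norm_num)) hc0pos.le
    _ ≤ _ := by
        apply mul_le_mul hsm hlarge (by positivity)
        exact hc0pos.le.trans hsm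

end Pool.Agent.CC
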