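import Pool.Agent.Lib.MP_d610d0_nt.CC.Cls
import Pool.Agent.Lib.MP_0da313_nt.MT.S2

set_option autoImplicit false
set_option linter.unusedSectionVars false

/-!
The sieved quadratic sum over the primes `N = u y + v`, general weights.
(The proof is that of `Lib/MP_0da313_nt/MT/S2.lean`.)
-/

open Finset

namespace Pool.Agent.CC

open Pool.Agent.MP89da58 Pool.Agent.BVall Pool.Agent.Lib.MP_0da313_nt Pool.Agent.MT

variable {ι : Type} [Fintype ι] [DecidableEq ι]
variable {P : Finset ℕ} {D : PJf P → ι → ℤ → Prop} {Q : ℕ → ℤ → Prop}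

open Classical in
theorem S2_bound {u v : ℤ} (hu : u ≠ 0) (huv : IsCoprime u v)
    (hP : ∀ p ∈ P, p.Prime) (hPu : ∀ p ∈ P, ¬ p ∣ u.natAbs) (K n : ℕ)
    (hPK : Disjoint (PK K n) P) (i : ι)
    (hD : LocD P D (fun l => l ≠ i))
    (hcop : ∀ (j : PJf P) (l l' : ι) (y : ℤ), l ≠ l' → ¬ (D j l y ∧ D j l' y))
    (hnd : ∀ (j : PJf P) (l : ι) (y : ℤ), l ≠ i → D j l y → ¬ (((j : ℕ) : ℤ)) ∣ u * y + v)
    (hQ : ∀ (p : ℕ) (x y : ℤ), (p : ℤ) ∣ x - y → (Q p x ↔ Q p y))
    (hQu : ∀ (p : ℕ) (x : ℤ), Q p x → ¬ (p : ℤ) ∣ u * x + v) (K0 : ℕ) (hK01 : 1 ≤ K0)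
    (hK0 : ∀ p : ℕ, p.Prime → om Q p ≤ K0) (lam : (PJf P → Option ι) → ℝ) (B : ℝ) (Y : ℕ)
    (hB : ∀ α, |lam α| ≤ B)
    (hs : ∀ α, lam α ≠ 0 → part α i = ∅ ∧ nn (fun j : PJf P => (j : ℕ)) (supp α) ≤ Y)
    (w : ℕ → ℝ) (N0 : ℕ) (a : ℕ → ℕ)
    (ha : ∀ q b, 0 < q → b.Coprime (u.natAbs * q) →
      |psA w N0 (u.natAbs * q) b - psW w N0 / (Nat.totient (u.natAbs * q) : ℝ)| ≤
      |psA w N0 (u.natAbs * q) (a q) - psW w N0 / (Nat.totient (u.natAbs * q) : ℝ)|) :
    |∑ N ∈ (Icc 1 N0).filter (fun N : ℕ => u ∣ (N : ℤ) - v),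
        ((ArithmeticFunction.vonMangoldt N * w N) *
          FK K n (fun p => if Q p (((N : ℤ) - v) / u) then (1 : ℝ) else 0)) *
        ZI D lam (((N : ℤ) - v) / u) ^ 2 -
      (psW w N0 / (Nat.totient u.natAbs : ℝ) * FK K n (rhoW u.natAbs Q)) *
        bil (fun j : PJf P => 1 / (((j : ℕ) : ℝ) - 1)) lam lam| ≤
      B ^ 2 * ∑ q ∈ (Icc 1 (Y * Y * lev K n)).filter Squarefree,
        ((3 * Fintype.card ι * K0 : ℕ) : ℝ) ^ q.primeFactors.card *
          |psA w N0 (u.natAbs * q) (a q) - psW w N0 / (Nat.totient (u.natAbs * q) : ℝ)| := by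
  set E : ℕ → ℝ := fun q =>
    |psA w N0 (u.natAbs * q) (a q) - psW w N0 / (Nat.totient (u.natAbs * q) : ℝ)| with hE
  set Sf := (Icc 1 N0).filter (fun N : ℕ => u ∣ (N : ℤ) - v) with hSf
  have hι : 1 ≤ Fintype.card ι := Fintype.card_pos_iff.2 ⟨i⟩
  set e' : Finset (PJf P) → ℝ := fun a =>
    ∑ T ∈ (PK K n).powerset.filter (fun T => ∏ p ∈ T, p ≤ lev K n),
      (K0 : ℝ) ^ (T.card + a.card) * E ((∏ p ∈ T, p) * nn (fun j : PJf P => (j : ℕ)) a) with he'
  have he'0 : ∀ a, 0 ≤ e' a := fun a => Finset.sum_nonneg fun T _ =>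
    mul_nonneg (by positivity) (abs_nonneg _)
  have key := quad_expandI D hcop (fun j : PJf P => 1 / (((j : ℕ) : ℝ) - 1)) lam Sf
    (fun N : ℕ => ((N : ℤ) - v) / u)
    (fun N : ℕ => (ArithmeticFunction.vonMangoldt N * w N) *
          FK K n (fun p => if Q p (((N : ℤ) - v) / u) then (1 : ℝ) else 0))
    (psW w N0 / (Nat.totient u.natAbs : ℝ) * FK K n (rhoW u.natAbs Q)) (fun γ => e' (supp γ)) (by
      intro α β hα hβ _
      have hγi : part (join α β) i = ∅ := part_join_eq_empty (hs α hα).1 (hs β hβ).1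
      set γ := join α β with hγ
      have hne : ∀ (j : PJf P) (l : ι), γ j = some l → l ≠ i := by
        rintro j l hl rfl
        have : j ∈ part γ l := mem_part.2 hl
        rw [hγi] at this
        exact absurd this (Finset.notMem_empty j)
      have h1 := (repB_FK K n).sum_estimate Sf
        (fun N : ℕ => (ArithmeticFunction.vonMangoldt N * w N) *
          if dvI D (((N : ℤ) - v) / u) γ then (1 : ℝ) else 0)
        (fun (N : ℕ) (p : ℕ) => if Q p (((N : ℤ) - v) / u) then (1 : ℝ) else 0)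
        (psW w N0 / (Nat.totient u.natAbs : ℝ) *
          pw (fun j : PJf P => 1 / (((j : ℕ) : ℝ) - 1)) (supp γ)) (rhoW u.natAbs Q)
        (fun T => (K0 : ℝ) ^ (T.card + (supp γ).card) *
          E ((∏ p ∈ T, p) * nn (fun j : PJf P => (j : ℕ)) (supp γ))) (by
          intro T hT hTl
          have hTP : Disjoint T P := hPK.mono_left hT
          have hTp : ∀ p ∈ T ∪ sp γ, p.Prime := by
            intro p hp
            rw [Finset.mem_union] at hp
            rcases hp with hp | hp
            · exact (mem_PK.1 (hT hp)).1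
            · exact hP p (sp_subset γ hp)
          have hQcu : ∀ (p : ℕ) (x : ℤ), Qc D Q γ p x → ¬ (p : ℤ) ∣ u * x + v := by
            rintro p x (⟨h2, l, h3, h4⟩ | h2)
            · exact hnd ⟨p, h2⟩ l x (hne _ l h3) h4
            · exact hQu p x h2.2
          have e3 : ∀ j ∈ supp γ, om (Qc D Q γ) (j : ℕ) = 1 := by
            intro j hj
            obtain ⟨l, hl⟩ := Option.ne_none_iff_exists'.1 (mem_supp.1 hj)
            exact om_Qc_mem hD j hl (hne j l hl)
          have e4 : ∀ p ∈ T, om (Qc D Q γ) p = om Q p := by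
            intro p hp
            exact om_Qc_not_mem (fun h => (Finset.disjoint_left.1 hTP) hp h)
          have hKc : ∀ p ∈ T ∪ sp γ, om (Qc D Q γ) p ≤ K0 := by
            intro p hp
            rw [Finset.mem_union] at hp
            rcases hp with hp | hp
            · rw [e4 p hp]
              exact hK0 p (mem_PK.1 (hT hp)).1
            · unfold sp at hp
              rw [Finset.mem_map] at hp
              obtain ⟨j, hj, rfl⟩ := hp
              have h5 := e3 j hj
              change om (Qc D Q γ) (j : ℕ) ≤ K0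
              omega
          have h2 := class_estimate hu huv (Qc D Q γ) (Qc_per hD hQ) hQcu (T ∪ sp γ) hTp hKc w N0
            a ha
          have e1 : ∀ N : ℕ, ∏ p ∈ T ∪ sp γ,
              (if Qc D Q γ p (((N : ℤ) - v) / u) then (1 : ℝ) else 0) =
              (∏ p ∈ T, (if Q p (((N : ℤ) - v) / u) then (1 : ℝ) else 0)) *
              (if dvI D (((N : ℤ) - v) / u) γ then (1 : ℝ) else 0) := by
            intro N
            rw [prod_Qc hTP]
          simp only [e1] at h2
          rw [prod_sp T hTP (rhoW u.natAbs (Qc D Q γ)), card_sp T hTP, prodn_sp T hTP] at h2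
          have e5 : ∀ p ∈ T, rhoW u.natAbs (Qc D Q γ) p = rhoW u.natAbs Q p := by
            intro p hp
            unfold rhoW
            rw [e4 p hp]
          have e6 : ∀ j ∈ supp γ, rhoW u.natAbs (Qc D Q γ) (j : ℕ) = 1 / (((j : ℕ) : ℝ) - 1) := by
            intro j hj
            unfold rhoW
            rw [e3 j hj, if_neg (hPu j.1 j.2), Nat.cast_sub (hP j.1 j.2).one_le]
            norm_num
          rw [Finset.prod_congr rfl e5, Finset.prod_congr rfl e6] at h2
          have e7 : psW w N0 / (Nat.totient u.natAbs : ℝ) *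
              pw (fun j : PJf P => 1 / (((j : ℕ) : ℝ) - 1)) (supp γ) *
              ∏ p ∈ T, rhoW u.natAbs Q p =
              psW w N0 / (Nat.totient u.natAbs : ℝ) * ((∏ p ∈ T, rhoW u.natAbs Q p) *
                ∏ j ∈ supp γ, (1 / (((j : ℕ) : ℝ) - 1))) := by
            unfold pw
            ring
          have e8 : ∀ N : ℕ, (ArithmeticFunction.vonMangoldt N * w N) *
              ((∏ p ∈ T, (if Q p (((N : ℤ) - v) / u) then (1 : ℝ) else 0)) *
              (if dvI D (((N : ℤ) - v) / u) γ then (1 : ℝ) else 0)) =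
              (ArithmeticFunction.vonMangoldt N * w N *
              (if dvI D (((N : ℤ) - v) / u) γ then (1 : ℝ) else 0)) *
              ∏ p ∈ T, (if Q p (((N : ℤ) - v) / u) then (1 : ℝ) else 0) := by
            intro N; ring
          rw [e7]
          simp only [e8] at h2
          exact h2)
      have e9 : ∀ N : ℕ, (if dvI D (((N : ℤ) - v) / u) γ then
          (ArithmeticFunction.vonMangoldt N * w N) *
          FK K n (fun p => if Q p (((N : ℤ) - v) / u) then (1 : ℝ) else 0) else 0) =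
          ((ArithmeticFunction.vonMangoldt N * w N) *
          if dvI D (((N : ℤ) - v) / u) γ then (1 : ℝ) else 0) *
          FK K n (fun p => if Q p (((N : ℤ) - v) / u) then (1 : ℝ) else 0) := by
        intro N
        split_ifs <;> ring
      simp only [e9]
      have e10 : (psW w N0 / (Nat.totient u.natAbs : ℝ) * FK K n (rhoW u.natAbs Q)) *
          pw (fun j : PJf P => 1 / (((j : ℕ) : ℝ) - 1)) (supp γ) =
          psW w N0 / (Nat.totient u.natAbs : ℝ) *
          pw (fun j : PJf P => 1 / (((j : ℕ) : ℝ) - 1)) (supp γ) * FK K n (rhoW u.natAbs Q) := by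
        ring
      rw [e10]
      exact h1)
  refine key.trans ?_
  have h2 := err_sum_leI (fun j : PJf P => (j : ℕ)) (fun j => (hP j.1 j.2).one_le) lam B Y hB
    (fun α hα => (hs α hα).2) e' he'0
  refine h2.trans ?_
  apply mul_le_mul_of_nonneg_left _ (sq_nonneg B)
  exact pair_sum_le hP K n hPK Y (3 * Fintype.card ι) K0 (by omega) E (fun q => abs_nonneg _)

end Pool.Agent.CC
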