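import Pool.Agent.Lib.MP_d610d0_nt.CC.S2
import Pool.Agent.Lib.MP_0da313_nt.MT.T2

set_option autoImplicit false
set_option linter.unusedSectionVars false

/-!
Lower bound for the sum over the prime values of one linear form, general weights.
(The proof is that of `Lib/MP_0da313_nt/MT/T2.lean`.)
-/

open Finset Polynomial

namespace Pool.Agent.CC

open Pool.Agent.MP89da58 Pool.Agent.BVall Pool.Agent.Lib.MP_0da313_nt Pool.Agent.MT

lemma to_primes {w : ℕ → ℝ} (hw0 : ∀ N, 0 ≤ w N) (hw1 : ∀ N, w N ≤ 1) {N0 : ℕ} (hN0 : 1 ≤ N0)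
    (S' : Finset ℕ) (hS' : ∀ N ∈ S', 1 ≤ N ∧ N ≤ N0) (g : ℕ → ℝ) (hg : ∀ N, 0 ≤ g N)
    {Wm : ℝ} (hWm : ∀ N, g N ≤ Wm) [DecidablePred fun N : ℕ => N.Prime ∧ w N ≠ 0] :
    ∑ N ∈ S', (ArithmeticFunction.vonMangoldt N * w N) * g N ≤
      Real.log N0 * ∑ N ∈ S'.filter (fun N : ℕ => N.Prime ∧ w N ≠ 0), g N +
        2 * Real.sqrt N0 * Real.log N0 * Wm := by
  classical
  have hX1 : (1 : ℝ) ≤ N0 := by exact_mod_cast hN0
  have hlog3 : 0 ≤ Real.log N0 := Real.log_nonneg hX1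
  have hWm0 : 0 ≤ Wm := (hg 0).trans (hWm 0)
  have hnn : ∀ N, 0 ≤ (ArithmeticFunction.vonMangoldt N * w N) * g N := fun N =>
    mul_nonneg (mul_nonneg ArithmeticFunction.vonMangoldt_nonneg (hw0 N)) (hg N)
  set S1 := S'.filter (fun N : ℕ => N.Prime ∧ w N ≠ 0) with hS1
  have h1 : ∑ N ∈ S', (ArithmeticFunction.vonMangoldt N * w N) * g N ≤
      ∑ N ∈ S1, (ArithmeticFunction.vonMangoldt N * w N) * g N +
      ∑ N ∈ (Ioc 0 ⌊(N0 : ℝ)⌋₊).filter (fun N => ¬ N.Prime),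
        (ArithmeticFunction.vonMangoldt N * w N) * g N := by
    rw [← Finset.sum_filter_add_sum_filter_not S' (fun N : ℕ => N.Prime ∧ w N ≠ 0)]
    apply add_le_add le_rfl
    rw [← Finset.sum_filter_add_sum_filter_not
      (S'.filter (fun N : ℕ => ¬ (N.Prime ∧ w N ≠ 0))) (fun N : ℕ => N.Prime)]
    have h2 : ∑ N ∈ (S'.filter (fun N : ℕ => ¬ (N.Prime ∧ w N ≠ 0))).filter
        (fun N : ℕ => N.Prime), (ArithmeticFunction.vonMangoldt N * w N) * g N = 0 := by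
      apply Finset.sum_eq_zero
      intro N hN
      rw [Finset.mem_filter, Finset.mem_filter] at hN
      have h3 : w N = 0 := by
        by_contra h4
        exact hN.1.2 ⟨hN.2, h4⟩
      rw [h3, mul_zero, zero_mul]
    rw [h2, zero_add]
    apply Finset.sum_le_sum_of_subset_of_nonneg
    · intro N hN
      rw [Finset.mem_filter, Finset.mem_filter] at hN
      have h3 := hS' N hN.1.1
      rw [Finset.mem_filter, Finset.mem_Ioc, Nat.floor_natCast]
      exact ⟨⟨by omega, h3.2⟩, hN.2⟩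
    · intro N _ _
      exact hnn N
  have h2 : ∑ N ∈ S1, (ArithmeticFunction.vonMangoldt N * w N) * g N ≤
      Real.log N0 * ∑ N ∈ S1, g N := by
    rw [Finset.mul_sum]
    apply Finset.sum_le_sum
    intro N hN
    rw [hS1, Finset.mem_filter] at hN
    obtain ⟨hNS, hNp, _⟩ := hN
    have h3 : (N : ℝ) ≤ N0 := by exact_mod_cast (hS' N hNS).2
    have hN0' : (0 : ℝ) < N := by exact_mod_cast hNp.pos
    have h4 : ArithmeticFunction.vonMangoldt N ≤ Real.log N0 :=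
      ArithmeticFunction.vonMangoldt_le_log.trans (Real.log_le_log hN0' h3)
    apply mul_le_mul_of_nonneg_right _ (hg N)
    calc ArithmeticFunction.vonMangoldt N * w N ≤ Real.log N0 * 1 :=
          mul_le_mul h4 (hw1 N) (hw0 N) hlog3
      _ = _ := by ring
  have h3 : ∑ N ∈ (Ioc 0 ⌊(N0 : ℝ)⌋₊).filter (fun N => ¬ N.Prime),
        (ArithmeticFunction.vonMangoldt N * w N) * g N ≤
        Wm * (2 * Real.sqrt N0 * Real.log N0) := by
    have h4 := Chebyshev.psi_sub_theta_le (x := (N0 : ℝ)) hX1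
    rw [Chebyshev.psi_sub_theta_eq_sum_not_prime] at h4
    refine le_trans ?_ (mul_le_mul_of_nonneg_left h4 hWm0)
    rw [Finset.mul_sum]
    apply Finset.sum_le_sum
    intro N _
    have e3 := ArithmeticFunction.vonMangoldt_nonneg (n := N)
    calc (ArithmeticFunction.vonMangoldt N * w N) * g N
        ≤ (ArithmeticFunction.vonMangoldt N * 1) * Wm :=
          mul_le_mul (mul_le_mul_of_nonneg_left (hw1 N) e3) (hWm N) (hg N) (by positivity)
      _ = _ := by ring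
  calc _ ≤ _ := h1
    _ ≤ Real.log N0 * ∑ N ∈ S1, g N + Wm * (2 * Real.sqrt N0 * Real.log N0) := add_le_add h2 h3
    _ = _ := by ring

variable {ι : Type} [Fintype ι] [DecidableEq ι] {P : Finset ℕ}

open Classical in
theorem T_low {m D n n' : ℕ} (hD : 1 ≤ D) (f : Fin m → MvPolynomial (Fin 2) ℤ)
    (e : ι → Fin m) (v : ι → ℤ)
    (hev : ∀ l (y : ℤ), 1 * y + v l = 1 * (lineRestrict (f (e l)) n).eval y)
    (hGdeg : (∏ k, lineRestrict (f k) n).natDegree ≤ D)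
    (hloc : ∀ p : ℕ, p.Prime → ¬ ∀ x : ℤ, (p : ℤ) ∣ ∏ k, (lineRestrict (f k) n).eval x)
    (hP : ∀ p ∈ P, p.Prime ∧ 2 ^ (2 ^ (2 * D + n')) < p)
    (hdet : ∀ p ∈ P, ∀ l l' : ι, l ≠ l' → ¬ (p : ℤ) ∣ 1 * v l' - 1 * v l)
    (S : SData ι (PJf P)) (hSp : ∀ j, S.p j = (j : ℕ)) (i : ι)
    (hPR : ∀ p ∈ P, p ≤ S.R)
    (w : ℕ → ℝ) (N0 : ℕ) (hN0 : 1 ≤ N0) (hw0 : ∀ N, 0 ≤ w N) (hw1 : ∀ N, w N ≤ 1)
    (hsup : ∀ N : ℕ, 1 ≤ N → N ≤ N0 → w N ≠ 0 → v i < N ∧ (N : ℤ) < v i + n ∧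
      2 ^ (2 ^ (2 * D + n')) < N ∧ S.R < N)
    (E0 : ℝ) (hbv : ∀ a : ℕ → ℕ, (∀ q, (a q).Coprime q) →
      ∑ q ∈ (Finset.Icc 1 (S.R * S.R * lev (2 * D) n')).filter Squarefree,
      ((3 * Fintype.card ι * D : ℕ) : ℝ) ^ (q.primeFactors.card) * Er w N0 q (a q) ≤ E0)
    (hlogR : 1 < Real.log S.R)
    (hB1 : 16 * (Fintype.card ι : ℝ) * S.B1 ≤ S.A2 * Real.log S.R) :
    1 / 2 * (psW w N0 *
      (W (fun p => (om (fun p y => (p : ℤ) ∣ (∏ k, lineRestrict (f k) n).eval y) p : ℝ) / p)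
        (PK (2 * D) n') / kapD (2 ^ (2 ^ (2 * D + n'))))) *
        (S.A1 ^ 2 * S.A2 ^ (Fintype.card ι - 1) / 4) ≤
      Real.log N0 *
        ∑ x ∈ (Ioo 0 n).filter (fun x : ℕ => Rgh f n (2 ^ (2 ^ (2 * D + n'))) x ∧
          (val (f (e i)) x ((n : ℤ) - x)).natAbs.Prime),
          ZI (Dl P (fun _ => 1) v) S.lam (x : ℤ) ^ 2 +
      2 * Real.sqrt N0 * Real.log N0 * (∑ α, |S.lami i α|) ^ 2 +
      (S.G0 S.R ^ Fintype.card ι) ^ 2 * E0 := by
  set G : ℤ[X] := ∏ k, lineRestrict (f k) n with hG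
  set z : ℕ := 2 ^ (2 ^ (2 * D + n')) with hz
  have hloc' : ∀ p : ℕ, p.Prime → ¬ ∀ x : ℤ, (p : ℤ) ∣ G.eval x :=
    fun p hp h => hloc p hp (fun x => by rw [← eval_prod]; exact h x)
  have hlt : ∀ p : ℕ, p.Prime → om (fun p y => (p : ℤ) ∣ G.eval y) p < p := by
    intro p hp
    unfold om
    exact card_roots_mod_lt _ p hp (hloc' p hp)
  have hdens := dens_poly G D (2 * D) hGdeg (by omega) hloc'
  have hPp : ∀ p ∈ P, p.Prime := fun p hp => (hP p hp).1
  have hPK : Disjoint (PK (2 * D) n') P := by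
    rw [Finset.disjoint_left]
    intro p h1 h2
    have h3 := (mem_PK.1 h1).2
    have h4 := (hP p h2).2
    omega
  have h1ne : (1 : ℤ) ≠ 0 := one_ne_zero
  have huv : ∀ l, IsCoprime (1 : ℤ) (v l) := fun l => isCoprime_one_left
  have hPu : ∀ p ∈ P, ∀ _l : ι, ¬ p ∣ (1 : ℤ).natAbs := by
    intro p hp _ h
    rw [Int.natAbs_one] at h
    have := (hPp p hp).two_le
    have := Nat.le_of_dvd (by omega) h
    omega
  set G' : ℤ[X] := ∏ k ∈ univ.erase (e i), lineRestrict (f k) n with hG'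
  have hcls := cls_family f n (e i) D hGdeg hloc (Or.inl rfl) (hev i)
  have hGG : G = lineRestrict (f (e i)) n * G' :=
    (Finset.mul_prod_erase univ (fun k => lineRestrict (f k) n) (Finset.mem_univ (e i))).symm
  have hWr := W_relation hGG h1ne (Or.inl rfl) (hev i) (huv i) (2 * D) n' hlt
  set V : ℝ := W (fun p => (om (fun p y => (p : ℤ) ∣ G.eval y) p : ℝ) / p) (PK (2 * D) n') with hV
  have hV0 : 0 ≤ V := W_nonneg fun p hp => (hdens.lt_one (mem_PK.1 hp).1).le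
  have hκ := kapD_pos z
  obtain ⟨Q, hQ⟩ : ∃ Q : ℕ → ℤ → Prop, Q = fun (p : ℕ) (y : ℤ) => (p : ℤ) ∣ G'.eval y ∧
    ¬ (p : ℤ) ∣ 1 * y + v i := ⟨_, rfl⟩
  have hcls' : Cls 1 (v i) D Q := by
    subst hQ
    exact Cls_inst _ hcls
  have hWr' : V / kapD z ≤ W (rhoW (1 : ℤ).natAbs Q) (PK (2 * D) n') := by
    subst hQ
    rw [rhoW_inst (1 : ℤ).natAbs _ _ (fun p y => instDecidableAnd)]
    refine le_trans (le_of_eq ?_) hWr
    rw [Int.natAbs_one, Nat.totient_one, hz]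
    norm_num
  have hdQ : Dens (2 * D) (rhoW (1 : ℤ).natAbs Q) := hcls'.dens
  obtain ⟨a, ha1, ha2⟩ := exists_worst w N0 (1 : ℤ).natAbs (by norm_num)
  have hpf : S.p = fun j : PJf P => (j : ℕ) := funext hSp
  have hxf : S.x' = fun j : PJf P => 1 / (((j : ℕ) : ℝ) - 1) := by
    funext j; unfold SData.x'; rw [hSp j]
  set uu : ι → ℤ := fun _ => 1 with huu
  have hcop : ∀ (j : PJf P) (l l' : ι) (y : ℤ), l ≠ l' →
      ¬ (Dl P uu v j l y ∧ Dl P uu v j l' y) :=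
    fun j l l' y h => Dl_cop hdet j l l' y h
  have key := S2_bound (D := Dl P uu v) (Q := Q) h1ne (huv i) hPp
    (fun p hp => hPu p hp i) (2 * D) n' hPK i (Dl_loc hPp hPu huv _) hcop
    (fun j l y h1 h2 h3 => hcop j l i y h1 ⟨h2, h3⟩) hcls'.per hcls'.nd D hD hcls'.le (S.lami i)
    (S.G0 S.R ^ Fintype.card ι) S.R (S.abs_lami_le i) (fun α hα => by
      have := S.lami_support i α hα
      rw [hpf] at this
      exact this) w N0 a ha2
  rw [← hxf] at key
  have h1 := (abs_le.1 key).1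
  -- the error term
  have herr : (S.G0 S.R ^ Fintype.card ι) ^ 2 *
      ∑ q ∈ (Icc 1 (S.R * S.R * lev (2 * D) n')).filter Squarefree,
        ((3 * Fintype.card ι * D : ℕ) : ℝ) ^ q.primeFactors.card *
          |psA w N0 ((1 : ℤ).natAbs * q) (a q) -
            psW w N0 / (Nat.totient ((1 : ℤ).natAbs * q) : ℝ)| ≤
      (S.G0 S.R ^ Fintype.card ι) ^ 2 * E0 := by
    apply mul_le_mul_of_nonneg_left _ (sq_nonneg _)
    have h2 := hbv a (fun q => by
      have := ha1 q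
      rwa [Int.natAbs_one, one_mul] at this)
    unfold Er at h2
    simp only [Int.natAbs_one, one_mul]
    exact h2
  -- the main term
  have hbil := S.bil_lami_ge i hlogR hB1
  have hA0 : 0 ≤ S.A1 ^ 2 * S.A2 ^ (Fintype.card ι - 1) / 4 := by
    have := S.A2_ge_one
    (clear * - this; positivity)
  have hFl := hdQ.FK_lower n'
  have hWQ0 : 0 ≤ W (rhoW (1 : ℤ).natAbs Q) (PK (2 * D) n') :=
    W_nonneg fun p hp => (hdQ.lt_one (mem_PK.1 hp).1).le
  have hpsi0 : 0 ≤ psW w N0 := Finset.sum_nonneg fun n _ =>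
    mul_nonneg ArithmeticFunction.vonMangoldt_nonneg (hw0 n)
  have hmain : 1 / 2 * (psW w N0 * (V / kapD z)) *
      (S.A1 ^ 2 * S.A2 ^ (Fintype.card ι - 1) / 4) ≤
      (psW w N0 / (Nat.totient (1 : ℤ).natAbs : ℝ) *
        FK (2 * D) n' (rhoW (1 : ℤ).natAbs Q)) * bil S.x' (S.lami i) (S.lami i) := by
    have e1 : 1 / 2 * (psW w N0 * (V / kapD z)) ≤
        psW w N0 / (Nat.totient (1 : ℤ).natAbs : ℝ) *
        FK (2 * D) n' (rhoW (1 : ℤ).natAbs Q) := by
      rw [Int.natAbs_one] at hFl hWr' hWQ0 ⊢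
      rw [Nat.totient_one, Nat.cast_one, div_one]
      calc 1 / 2 * (psW w N0 * (V / kapD z)) ≤
            1 / 2 * (psW w N0 * W (rhoW 1 Q) (PK (2 * D) n')) :=
            mul_le_mul_of_nonneg_left (mul_le_mul_of_nonneg_left hWr' hpsi0) (by norm_num)
        _ = psW w N0 * (1 / 2 * W (rhoW 1 Q) (PK (2 * D) n')) := by ring
        _ ≤ _ := mul_le_mul_of_nonneg_left hFl hpsi0
    have e2 : 0 ≤ psW w N0 / (Nat.totient (1 : ℤ).natAbs : ℝ) *
        FK (2 * D) n' (rhoW (1 : ℤ).natAbs Q) := by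
      apply mul_nonneg
      · exact div_nonneg hpsi0 (Nat.cast_nonneg _)
      · exact le_trans (by (clear * - hWQ0; positivity)) hFl
    exact mul_le_mul e1 hbil hA0 e2
  -- passage to the rough points
  set Sf := (Icc 1 N0).filter (fun N : ℕ => (1 : ℤ) ∣ (N : ℤ) - v i) with hSf
  set S' := Sf.filter (fun N : ℕ => ∀ p ∈ PK (2 * D) n',
    ¬ Q p (((N : ℤ) - v i) / 1)) with hS'
  have hnn : ∀ N, 0 ≤ ArithmeticFunction.vonMangoldt N * w N := fun N =>
    mul_nonneg ArithmeticFunction.vonMangoldt_nonneg (hw0 N)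
  have h2 : ∑ N ∈ Sf, ((ArithmeticFunction.vonMangoldt N * w N) *
          FK (2 * D) n' (fun p => if Q p (((N : ℤ) - v i) / 1) then (1 : ℝ) else 0)) *
        ZI (Dl P uu v) (S.lami i) (((N : ℤ) - v i) / 1) ^ 2 ≤
      ∑ N ∈ S', (ArithmeticFunction.vonMangoldt N * w N) *
        ZI (Dl P uu v) (S.lami i) (((N : ℤ) - v i) / 1) ^ 2 := by
    conv_rhs => rw [hS', Finset.sum_filter]
    apply Finset.sum_le_sum
    intro N _
    have hpt := (pointwise_K (2 * D) n'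
      (ρ := fun p => if Q p (((N : ℤ) - v i) / 1) then (1 : ℝ) else 0)
      (fun p _ => by split_ifs <;> norm_num)
      (fun p _ => by split_ifs <;> norm_num)).2
    rw [W_ind] at hpt
    split_ifs with hr
    · rw [if_pos hr] at hpt
      apply mul_le_mul_of_nonneg_right _ (sq_nonneg _)
      calc (ArithmeticFunction.vonMangoldt N * w N) * _ ≤
            (ArithmeticFunction.vonMangoldt N * w N) * 1 :=
            mul_le_mul_of_nonneg_left hpt (hnn N)
        _ = _ := mul_one _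
    · rw [if_neg hr] at hpt
      have : (ArithmeticFunction.vonMangoldt N * w N) *
          FK (2 * D) n' (fun p => if Q p (((N : ℤ) - v i) / 1) then (1 : ℝ) else 0) ≤ 0 :=
        mul_nonpos_of_nonneg_of_nonpos (hnn N) hpt
      exact mul_nonpos_of_nonpos_of_nonneg this (sq_nonneg _)
  have hup := to_primes hw0 hw1 hN0 S' (fun N hN => by
    rw [hS', Finset.mem_filter, hSf, Finset.mem_filter, Finset.mem_Icc] at hN
    exact ⟨hN.1.1.1, hN.1.1.2⟩)
    (fun N => ZI (Dl P uu v) (S.lami i) (((N : ℤ) - v i) / 1) ^ 2)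
    (fun _ => sq_nonneg _) (Wm := (∑ α, |S.lami i α|) ^ 2)
    (fun N => by
      rw [← sq_abs]
      exact pow_le_pow_left₀ (abs_nonneg _) (abs_ZI_le_sum _ _ _) 2)
  set S1 := S'.filter (fun N : ℕ => N.Prime ∧ w N ≠ 0) with hS1
  set Tset := (Ioo 0 n).filter (fun x : ℕ => Rgh f n z x ∧
          (val (f (e i)) x ((n : ℤ) - x)).natAbs.Prime) with hTset
  -- the points
  have hξ : ∀ N ∈ S1, ∃ x : ℕ, (N : ℤ) = x + v i ∧ x ∈ Tset ∧
      ZI (Dl P uu v) (S.lami i) (((N : ℤ) - v i) / 1) ^ 2 =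
        ZI (Dl P uu v) S.lam (x : ℤ) ^ 2 := by
    intro N hN
    rw [hS1, Finset.mem_filter, hS', Finset.mem_filter, hSf, Finset.mem_filter,
      Finset.mem_Icc] at hN
    obtain ⟨⟨⟨⟨hNl, hNu⟩, hdvd⟩, hQN⟩, hNp, hNO⟩ := hN
    obtain ⟨hs1, hs2, hs3, hs4⟩ := hsup N hNl hNu hNO
    simp only [Int.ediv_one] at hQN ⊢
    set x : ℕ := ((N : ℤ) - v i).toNat with hxdef
    have hxy : (x : ℤ) = (N : ℤ) - v i := Int.toNat_of_nonneg (by omega)
    have hval : ∀ k, val (f k) x ((n : ℤ) - x) = (lineRestrict (f k) n).eval (x : ℤ) := fun k =>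
      (eval_lineRestrict (f k) n x).symm
    have hval₀ : val (f (e i)) x ((n : ℤ) - x) = N := by
      have h2 := hev i x
      rw [one_mul, one_mul] at h2
      rw [hval, ← h2, hxy]
      ring
    refine ⟨x, by omega, ?_, ?_⟩
    · rw [hTset, Finset.mem_filter, Finset.mem_Ioo]
      refine ⟨⟨by omega, by omega⟩, ?_, by rw [hval₀, Int.natAbs_natCast]; exact hNp⟩
      intro k p hp hpa
      by_contra hle
      push Not at hle
      by_cases hk : k = e i
      · subst hk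
        rw [hval₀] at hpa
        have h3 : p ∣ N := Int.natCast_dvd_natCast.1 hpa
        rw [Nat.prime_dvd_prime_iff_eq hp hNp] at h3
        omega
      · have h1 := hQN p (mem_PK.2 ⟨hp, hle⟩)
        rw [hQ] at h1
        replace h1 : ¬ ((p : ℤ) ∣ G'.eval ((N : ℤ) - v i) ∧
          ¬ (p : ℤ) ∣ 1 * ((N : ℤ) - v i) + v i) := h1
        rw [not_and_not_right] at h1
        have h2 : (p : ℤ) ∣ G'.eval ((N : ℤ) - v i) := by
          rw [← hxy, hG', eval_prod]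
          rw [hval] at hpa
          exact hpa.trans (Finset.dvd_prod_of_mem (fun k => (lineRestrict (f k) n).eval (x : ℤ))
            (Finset.mem_erase.2 ⟨hk, Finset.mem_univ k⟩))
        have h3 := h1 h2
        have e3 : 1 * ((N : ℤ) - v i) + v i = N := by ring
        rw [e3] at h3
        have h4 : p ∣ N := Int.natCast_dvd_natCast.1 h3
        rw [Nat.prime_dvd_prime_iff_eq hp hNp] at h4
        omega
    · rw [← hxy]
      congr 1
      apply ZI_lami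
      intro j hj
      have hj' : (((j : ℕ) : ℤ)) ∣ 1 * x + v i := hj
      have e3 : 1 * (x : ℤ) + v i = N := by rw [hxy]; ring
      rw [e3] at hj'
      have h3 : (j : ℕ) ∣ N := Int.natCast_dvd_natCast.1 hj'
      rw [Nat.prime_dvd_prime_iff_eq (hPp j.1 j.2) hNp] at h3
      have h4 := hPR j.1 j.2
      omega
  have h3 : ∑ N ∈ S1, ZI (Dl P uu v) (S.lami i) (((N : ℤ) - v i) / 1) ^ 2 ≤
      ∑ x ∈ Tset, ZI (Dl P uu v) S.lam (x : ℤ) ^ 2 := by
    choose! ξ hξ1 hξ2 hξ3 using hξ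
    rw [Finset.sum_congr rfl hξ3]
    have hinj : Set.InjOn ξ (S1 : Set ℕ) := by
      intro N hN N' hN' h
      have g2 := hξ1 N hN
      have g3 := hξ1 N' hN'
      rw [h, ← g3] at g2
      exact_mod_cast g2
    rw [← Finset.sum_image (f := fun x : ℕ => ZI (Dl P uu v) S.lam (x : ℤ) ^ 2) hinj]
    apply Finset.sum_le_sum_of_subset_of_nonneg
    · intro x hx
      rw [Finset.mem_image] at hx
      obtain ⟨N, hN, rfl⟩ := hx
      exact hξ2 N hN
    · intro x _ _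
      exact sq_nonneg _
  have hlog3 : 0 ≤ Real.log N0 := Real.log_natCast_nonneg _
  have h4 : Real.log N0 *
      ∑ N ∈ S1, ZI (Dl P uu v) (S.lami i) (((N : ℤ) - v i) / 1) ^ 2 ≤
      Real.log N0 * ∑ x ∈ Tset, ZI (Dl P uu v) S.lam (x : ℤ) ^ 2 :=
    mul_le_mul_of_nonneg_left h3 hlog3
  linarith only [herr, hmain, h1, h2, hup, h4]

end Pool.Agent.CC
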