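import Pool.Agent.Lib.MP_d610d0_nt.CC.Main
import Pool.Agent.Lib.MP_d610d0_nt.CC.BvD
import Pool.Agent.Lib.MP_d610d0_nt.CC.Mer
import Pool.Agent.Lib.MP_d610d0_nt.CA.SV.Stm

set_option autoImplicit false
set_option linter.unusedSectionVars false

/-!
The window `(j^3, (j+1)^3)` and the linear forms `x + j^3 + h`.
-/

open Finset Polynomial Filter

namespace Pool.Agent.CC

open Pool.Agent.MP89da58 Pool.Agent.BVall Pool.Agent.Lib.MP_0da313_nt Pool.Agent.MT
open Pool.Agent.CH (wJ thP)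
open Pool.Agent.CH.F (mu)

variable {m : ℕ} (a : ℕ) (hh : Fin m → ℕ)

lemma val_fam (k : Fin m) (x y : ℤ) : val (fam a hh k) x y = x + ((a : ℤ) + hh k) := by
  unfold Pool.Agent.Lib.MP_0da313_nt.val fam
  simp

lemma eval_fam (k : Fin m) (n : ℕ) (y : ℤ) :
    (lineRestrict (fam a hh k) n).eval y = y + ((a : ℤ) + hh k) := by
  rw [eval_lineRestrict, val_fam]

lemma deg_fam (n : ℕ) : (∏ k, lineRestrict (fam a hh k) n).natDegree ≤ m := by
  refine (natDegree_prod_le _ _).trans ?_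
  calc ∑ k : Fin m, (lineRestrict (fam a hh k) n).natDegree ≤ ∑ _k : Fin m, 1 := by
        apply Finset.sum_le_sum
        intro k _
        apply natDegree_lineRestrict_le
        unfold fam
        refine (MvPolynomial.totalDegree_add _ _).trans ?_
        rw [MvPolynomial.totalDegree_X, MvPolynomial.totalDegree_C]
        norm_num
    _ = m := by simp

lemma loc_fam (hA : Adm hh) (n : ℕ) :
    ∀ p : ℕ, p.Prime → ¬ ∀ x : ℤ, (p : ℤ) ∣ ∏ k, (lineRestrict (fam a hh k) n).eval x := by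
  intro p hp h
  obtain ⟨r, hr⟩ := hA p hp
  have h1 := h ((r : ℤ) - a)
  have hpi : Prime (p : ℤ) := Nat.prime_iff_prime_int.1 hp
  rw [hpi.dvd_finsetProd_iff] at h1
  obtain ⟨k, _, hk⟩ := h1
  rw [eval_fam] at hk
  have e : (r : ℤ) - a + (a + hh k) = ((r + hh k : ℕ) : ℤ) := by push_cast; ring
  rw [e] at hk
  exact hr k (Int.natCast_dvd_natCast.1 hk)

open Classical in
lemma nroots_fam_lt (hA : Adm hh) (n : ℕ) {p : ℕ} (hp : p.Prime) : nroots (fam a hh) n p < p := by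
  obtain ⟨r, hr⟩ := hA p hp
  unfold nroots
  have hp0 : 0 < p := hp.pos
  -- a missing class
  set r0 : ℕ := (((r : ℤ) - a) % p).toNat with hr0
  have hpz : (0 : ℤ) < p := by exact_mod_cast hp0
  have hr0' : (r0 : ℤ) = ((r : ℤ) - a) % p := Int.toNat_of_nonneg (Int.emod_nonneg _ hpz.ne')
  have hlt : r0 < p := by
    have := Int.emod_lt_of_pos ((r : ℤ) - a) hpz
    omega
  have hnot : r0 ∉ (Finset.range p).filter
      (fun r : ℕ => (p : ℤ) ∣ ∏ k, val (fam a hh k) r ((n : ℤ) - r)) := by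
    rw [Finset.mem_filter]
    rintro ⟨_, h⟩
    have hpi : Prime (p : ℤ) := Nat.prime_iff_prime_int.1 hp
    rw [hpi.dvd_finsetProd_iff] at h
    obtain ⟨k, _, hk⟩ := h
    rw [val_fam, hr0'] at hk
    have h1 : (p : ℤ) ∣ ((r : ℤ) - a) - ((r : ℤ) - a) % p := Int.dvd_self_sub_emod
    have h2 := dvd_add h1 hk
    have e : ((r : ℤ) - a) - ((r : ℤ) - a) % p + (((r : ℤ) - a) % p + (a + hh k)) =
        ((r + hh k : ℕ) : ℤ) := by push_cast; ring
    rw [e] at h2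
    exact hr k (Int.natCast_dvd_natCast.1 h2)
  have hss : (Finset.range p).filter
      (fun r : ℕ => (p : ℤ) ∣ ∏ k, val (fam a hh k) r ((n : ℤ) - r)) ⊂ Finset.range p := by
    refine ⟨Finset.filter_subset _ _, fun h => ?_⟩
    exact hnot (h (Finset.mem_range.2 hlt))
  have := Finset.card_lt_card hss
  rwa [Finset.card_range] at this

open Classical in
lemma nroots_fam_le (n : ℕ) {p : ℕ} (hp : p.Prime) :
    nroots (fam a hh) n p ≤ (univ.image hh).card := by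
  unfold nroots
  have hp0 : 0 < p := hp.pos
  have hpz : (0 : ℤ) < p := by exact_mod_cast hp0
  have hsub : (Finset.range p).filter
      (fun r : ℕ => (p : ℤ) ∣ ∏ k, val (fam a hh k) r ((n : ℤ) - r)) ⊆
      (univ.image hh).image (fun h : ℕ => ((-((a : ℤ) + h)) % p).toNat) := by
    intro r hr
    rw [Finset.mem_filter, Finset.mem_range] at hr
    obtain ⟨hr1, hr2⟩ := hr
    have hpi : Prime (p : ℤ) := Nat.prime_iff_prime_int.1 hp
    rw [hpi.dvd_finsetProd_iff] at hr2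
    obtain ⟨k, _, hk⟩ := hr2
    rw [val_fam] at hk
    rw [Finset.mem_image]
    refine ⟨hh k, Finset.mem_image_of_mem _ (Finset.mem_univ k), ?_⟩
    have h1 : (-((a : ℤ) + hh k)) % p = r := by
      have h2 : (p : ℤ) ∣ (r : ℤ) - (-((a : ℤ) + hh k)) := by
        have e : (r : ℤ) - (-((a : ℤ) + hh k)) = r + (a + hh k) := by ring
        rw [e]
        exact hk
      have h3 : (-((a : ℤ) + hh k)) ≡ r [ZMOD p] := Int.modEq_iff_dvd.2 h2
      have h4 : (r : ℤ) % p = r := Int.emod_eq_of_lt (Nat.cast_nonneg _) (by exact_mod_cast hr1)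
      rw [← h4]
      exact h3
    rw [h1]
    simp
  exact (Finset.card_le_card hsub).trans Finset.card_image_le

/-- the window is well inside the interval -/
lemma margin {J j C : ℕ} (hJ : 8 ≤ J) (hj : j ∈ Ioc J (2 * J)) (hC : 4 * C ≤ J ^ 2) {N : ℕ}
    (hN : 1 ≤ N) (hw : wJ J j N ≠ 0) : j ^ 3 + C < N ∧ N + C < (j + 1) ^ 3 := by
  obtain ⟨hj1, hj2⟩ := Finset.mem_Ioc.1 hj
  have hJr : (8 : ℝ) ≤ J := by exact_mod_cast hJ
  have hjr : (8 : ℝ) ≤ j := by exact_mod_cast (by omega : 8 ≤ j)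
  have hj2r : (j : ℝ) ≤ 2 * J := by exact_mod_cast hj2
  have hJj : (J : ℝ) ≤ j := by exact_mod_cast hj1.le
  have hCr : 4 * (C : ℝ) ≤ (j : ℝ) ^ 2 := by
    have h1 : 4 * (C : ℝ) ≤ (J : ℝ) ^ 2 := by exact_mod_cast hC
    have h2 : (J : ℝ) ^ 2 ≤ (j : ℝ) ^ 2 := pow_le_pow_left₀ (by linarith) hJj 2
    linarith
  have hN0 : (0 : ℝ) < N := by exact_mod_cast hN
  obtain ⟨x, hx⟩ : ∃ x : ℝ, x = ((j : ℝ) + 1 / 2) ^ 3 := ⟨_, rfl⟩
  have hx0 : 0 < x := by rw [hx]; positivity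
  obtain ⟨t, ht⟩ : ∃ t : ℝ, t = 1 / (j : ℝ) := ⟨_, rfl⟩
  have hj0 : (0 : ℝ) < j := by linarith
  have ht0 : 0 < t := by rw [ht]; positivity
  have htj : t * j = 1 := by rw [ht]; field_simp
  have ht1 : t ≤ 1 / 8 := by
    rw [ht]
    exact one_div_le_one_div_of_le (by norm_num) hjr
  have habs : |Real.log (N / x)| < t := by
    by_contra hc
    rw [not_lt] at hc
    apply hw
    unfold wJ tri
    rw [← hx]
    apply max_eq_left
    rw [abs_mul, abs_of_nonneg (by linarith : (0 : ℝ) ≤ 2 * J)]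
    have h1 : 1 ≤ 2 * (J : ℝ) * t := by
      have h2 : t * j ≤ t * (2 * J) := mul_le_mul_of_nonneg_left hj2r ht0.le
      linarith
    have h3 : 2 * (J : ℝ) * t ≤ 2 * (J : ℝ) * |Real.log (N / x)| :=
      mul_le_mul_of_nonneg_left hc (by linarith)
    linarith
  rw [abs_lt] at habs
  have hq : 0 < (N : ℝ) / x := by positivity
  have hexp : Real.exp (Real.log (N / x)) = N / x := Real.exp_log hq
  -- lower end
  have hlow : x * (1 - t) < N := by
    have h1 : -t + 1 ≤ Real.exp (-t) := Real.add_one_le_exp (-t)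
    have h2 : Real.exp (-t) < Real.exp (Real.log (N / x)) := Real.exp_lt_exp.2 habs.1
    rw [hexp, lt_div_iff₀ hx0] at h2
    have h3 : x * (1 - t) ≤ Real.exp (-t) * x := by
      have := mul_le_mul_of_nonneg_right h1 hx0.le
      linarith
    linarith
  have hupp : (N : ℝ) < x * (1 + t + t ^ 2) := by
    have h1 := Real.abs_exp_sub_one_sub_id_le (x := t) (by
      rw [abs_of_pos ht0]; linarith)
    have h2 := (abs_le.1 h1).2
    have h3 : Real.exp (Real.log (N / x)) < Real.exp t := Real.exp_lt_exp.2 habs.2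
    rw [hexp, div_lt_iff₀ hx0] at h3
    have h4 : Real.exp t * x ≤ x * (1 + t + t ^ 2) := by
      have := mul_le_mul_of_nonneg_right (show Real.exp t ≤ 1 + t + t ^ 2 by linarith) hx0.le
      linarith
    linarith
  have e1 : x * (1 - t) = (j : ℝ) ^ 3 + 1 / 2 * j ^ 2 - 3 / 4 * j - 5 / 8 - 1 / 8 * t := by
    have : x * (1 - t) = (j : ℝ) ^ 3 + 3 / 2 * j ^ 2 + 3 / 4 * j + 1 / 8 -
        ((t * j) * j ^ 2 + 3 / 2 * ((t * j) * j) + 3 / 4 * (t * j) + 1 / 8 * t) := by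
      rw [hx]; ring
    rw [this, htj]; ring
  have e2 : x * (1 + t + t ^ 2) = (j : ℝ) ^ 3 + 5 / 2 * j ^ 2 + 13 / 4 * j + 19 / 8 +
      7 / 8 * t + 1 / 8 * t ^ 2 := by
    have : x * (1 + t + t ^ 2) = (j : ℝ) ^ 3 + 3 / 2 * j ^ 2 + 3 / 4 * j + 1 / 8 +
        ((t * j) * j ^ 2 + 3 / 2 * ((t * j) * j) + 3 / 4 * (t * j) + 1 / 8 * t) +
        ((t * j) ^ 2 * j + 3 / 2 * (t * j) ^ 2 + 3 / 4 * ((t * j) * t) + 1 / 8 * t ^ 2) := by
      rw [hx]; ring
    rw [this, htj]; ring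
  rw [e1] at hlow
  rw [e2] at hupp
  have ht2 : t ^ 2 ≤ 1 := by nlinarith
  constructor
  · have h1 : ((j ^ 3 + C : ℕ) : ℝ) < N := by
      push_cast
      nlinarith
    exact_mod_cast h1
  · have h1 : ((N + C : ℕ) : ℝ) < (((j + 1) ^ 3 : ℕ) : ℝ) := by
      push_cast
      nlinarith
    exact_mod_cast h1

/-- the mass -/
lemma mass {J : ℕ} (hJ : 2 ≤ J) {j : ℕ} (hj : J < j)
    (h : 0.999 * mu J j ≤ ∑ n ∈ Icc 1 (27 * J ^ 3), thP n * wJ J j n)
    (hw0 : ∀ n, 0 ≤ wJ J j n) :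
    (j : ℝ) ^ 2 / 3 ≤ psW (wJ J j) (27 * J ^ 3) := by
  have hJ0 : (0 : ℝ) < J := by exact_mod_cast (by omega : 0 < J)
  have hjr : (J : ℝ) ≤ j := by exact_mod_cast hj.le
  have h1 : ∑ n ∈ Icc 1 (27 * J ^ 3), thP n * wJ J j n ≤ psW (wJ J j) (27 * J ^ 3) := by
    unfold psW
    apply Finset.sum_le_sum
    intro n _
    apply mul_le_mul_of_nonneg_right _ (hw0 n)
    unfold thP
    split_ifs with hp
    · rw [ArithmeticFunction.vonMangoldt_apply_prime hp]
    · exact ArithmeticFunction.vonMangoldt_nonneg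
  refine le_trans ?_ (h.trans h1)
  unfold mu
  rw [mul_div_assoc', div_le_div_iff₀ (by norm_num) (by positivity)]
  have h2 : (j : ℝ) ^ 3 ≤ ((j : ℝ) + 1 / 2) ^ 3 := pow_le_pow_left₀ (by positivity) (by linarith) 3
  have h3 : (j : ℝ) ^ 2 * (2 * J) ≤ 2 * (j : ℝ) ^ 3 := by
    have := mul_le_mul_of_nonneg_left hjr (show 0 ≤ 2 * (j : ℝ) ^ 2 by positivity)
    calc (j : ℝ) ^ 2 * (2 * J) = 2 * (j : ℝ) ^ 2 * J := by ring
      _ ≤ 2 * (j : ℝ) ^ 2 * j := this
      _ = _ := by ring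
  nlinarith

end Pool.Agent.CC
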